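import Mathlib

set_option autoImplicit false

open MeasureTheory

namespace Pool.Agent.Helper598.MT

/-! ## The statement: multitriangulations -/

/-- The vertices `0, ..., n - 1` of a convex `n`-gon, in cyclic order, are the elements of `Fin n`.
An edge `[a, c]` with `a < c` is the pair `(a, c)`. Two edges `[a, c]`, `[b, d]` with `a < c`,
`b < d` cross if `a < b < c < d` or `b < a < d < c`. -/
def Crosses {n : ℕ} (e f : Fin n × Fin n) : Prop :=
  (e.1 < f.1 ∧ f.1 < e.2 ∧ e.2 < f.2) ∨ (f.1 < e.1 ∧ e.1 < f.2 ∧ f.2 < e.2)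

/-- The edge set of `G` contains an `m`-crossing: a set of `m` pairwise crossing edges. -/
def HasCrossing {n : ℕ} (G : SimpleGraph (Fin n)) (m : ℕ) : Prop :=
  ∃ S : Finset (Fin n × Fin n), S.card = m ∧ (∀ e ∈ S, e.1 < e.2 ∧ G.Adj e.1 e.2) ∧
    ∀ e ∈ S, ∀ f ∈ S, e ≠ f → Crosses e f

/-- `G` is a `k`-triangulation of the convex `n`-gon: a maximal set of edges without a
`(k+1)`-crossing. -/
def IsKTriangulation {n : ℕ} (k : ℕ) (G : SimpleGraph (Fin n)) : Prop :=
  Maximal (fun H : SimpleGraph (Fin n) => ¬ HasCrossing H (k + 1)) G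

/-! ## The statement: rigidity -/

/-- A placement of `n` vertices in real `d`-space. -/
abbrev Placement (n d : ℕ) : Type := Fin n → EuclideanSpace ℝ (Fin d)

/-- `γ` is a motion of the framework `(G, p)`: a continuous movement of the vertices which
starts at `p` and keeps every edge length fixed. -/
def IsMotion {n d : ℕ} (G : SimpleGraph (Fin n)) (p : Placement n d)
    (γ : unitInterval → Placement n d) : Prop :=
  Continuous γ ∧ γ 0 = p ∧
    ∀ t i j, G.Adj i j → dist (γ t i) (γ t j) = dist (p i) (p j)

/-- The framework `(G, p)` is rigid: its only motions are restrictions of isometries of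
`d`-space. -/
def IsRigid {n d : ℕ} (G : SimpleGraph (Fin n)) (p : Placement n d) : Prop :=
  ∀ γ : unitInterval → Placement n d, IsMotion G p γ →
    ∀ t, ∃ φ : EuclideanSpace ℝ (Fin d) ≃ᵢ EuclideanSpace ℝ (Fin d), ∀ i, γ t i = φ (p i)

/-- `G` is generically rigid in dimension `d`: almost all placements (Lebesgue measure) are
rigid. -/
def GenericallyRigid {n : ℕ} (d : ℕ) (G : SimpleGraph (Fin n)) : Prop :=
  ∀ᵐ p : Placement n d, IsRigid G p

/-- `G` is generically flexible in dimension `d`: almost all placements are not rigid. -/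
def GenericallyFlexible {n : ℕ} (d : ℕ) (G : SimpleGraph (Fin n)) : Prop :=
  ∀ᵐ p : Placement n d, ¬ IsRigid G p

/-- `G` is minimally generically rigid in dimension `d`: generically rigid, and deleting any
single edge makes it generically flexible. -/
def IsMinimallyGenericallyRigid {n : ℕ} (d : ℕ) (G : SimpleGraph (Fin n)) : Prop :=
  GenericallyRigid d G ∧ ∀ e ∈ G.edgeSet, GenericallyFlexible d (G.deleteEdges {e})

end Pool.Agent.Helper598.MT
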