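import Pool.Agent.Helper598.MT.Defs

set_option autoImplicit false

open MeasureTheory

namespace Pool.Agent.Helper598.MT

/-! ## Auxiliary notions for the proof -/

/-- No nonzero equilibrium stress (the rows of the rigidity matrix are independent). -/
def NoStress {n d : ℕ} (G : SimpleGraph (Fin n)) (p : Placement n d) : Prop :=
  ∀ ω : Fin n → Fin n → ℝ, (∀ i j, ω i j = ω j i) → (∀ i j, ¬ G.Adj i j → ω i j = 0) →
    (∀ i, ∑ j, ω i j • (p i - p j) = 0) → ω = 0

/-- The points do not lie in a common hyperplane. -/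
def Spans {n d : ℕ} (p : Placement n d) : Prop :=
  ∀ (c : EuclideanSpace ℝ (Fin d)) (b : ℝ), (∀ i, inner ℝ c (p i) = b) → c = 0


/-- `c 0 < ... < c k < d 0 < ... < d k < n` with all `(c t, d t)` in `P`. -/
structure IsCr (P : ℕ → ℕ → Prop) (n k : ℕ) (c d : ℕ → ℕ) : Prop where
  hc : ∀ t, t < k → c t < c (t + 1)
  hd : ∀ t, t < k → d t < d (t + 1)
  mid : c k < d 0
  top : d k < n
  mem : ∀ t, t ≤ k → P (c t) (d t)

theorem IsCr.c_add {P : ℕ → ℕ → Prop} {n k : ℕ} {c d : ℕ → ℕ} (h : IsCr P n k c d) :
    ∀ m t, t + m ≤ k → c t + m ≤ c (t + m) := by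
  intro m
  induction m with
  | zero => intro t _; simp
  | succ m ih =>
    intro t ht
    have h1 := ih t (by omega)
    have h2 := h.hc (t + m) (by omega)
    have : t + (m + 1) = t + m + 1 := by ring
    rw [this]; omega

theorem IsCr.d_add {P : ℕ → ℕ → Prop} {n k : ℕ} {c d : ℕ → ℕ} (h : IsCr P n k c d) :
    ∀ m t, t + m ≤ k → d t + m ≤ d (t + m) := by
  intro m
  induction m with
  | zero => intro t _; simp
  | succ m ih =>
    intro t ht
    have h1 := ih t (by omega)
    have h2 := h.hd (t + m) (by omega)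
    have : t + (m + 1) = t + m + 1 := by ring
    rw [this]; omega

theorem IsCr.len_ge {P : ℕ → ℕ → Prop} {n k : ℕ} {c d : ℕ → ℕ} (h : IsCr P n k c d)
    {t : ℕ} (ht : t ≤ k) : c t + k + 1 ≤ d t := by
  have h1 := h.c_add (k - t) t (by omega)
  have h2 := h.d_add t 0 (by omega)
  have h3 : t + (k - t) = k := by omega
  rw [h3] at h1
  rw [Nat.zero_add] at h2
  have := h.mid
  omega

theorem IsCr.len_le {P : ℕ → ℕ → Prop} {n k : ℕ} {c d : ℕ → ℕ} (h : IsCr P n k c d)
    {t : ℕ} (ht : t ≤ k) : d t + k + 1 ≤ n + c t := by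
  have h1 := h.c_add t 0 (by omega)
  have h2 := h.d_add (k - t) t (by omega)
  have h3 : t + (k - t) = k := by omega
  rw [h3] at h2
  rw [Nat.zero_add] at h1
  have := h.top
  omega

/-- maximal `(k+1)`-crossing-free relation on `{0, ..., n-1}`. -/
structure KT (T : ℕ → ℕ → Prop) (n k : ℕ) : Prop where
  free : ∀ c d, ¬ IsCr T n k c d
  max : ∀ x y, x < y → y < n → ¬ T x y →
    ∃ c d, IsCr (fun u v => T u v ∨ (u = x ∧ v = y)) n k c d

theorem KT.max' {T : ℕ → ℕ → Prop} {n k : ℕ} (h : KT T n k) {x y : ℕ} (hxy : x < y) (hy : y < n)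
    (hT : ¬ T x y) : ∃ c d m, IsCr (fun u v => T u v ∨ (u = x ∧ v = y)) n k c d ∧ m ≤ k ∧
      c m = x ∧ d m = y ∧ ∀ t, t ≤ k → t ≠ m → T (c t) (d t) := by
  obtain ⟨c, d, hcd⟩ := h.max x y hxy hy hT
  by_cases hex : ∃ m, m ≤ k ∧ c m = x ∧ d m = y
  · obtain ⟨m, hm, hc, hd⟩ := hex
    refine ⟨c, d, m, hcd, hm, hc, hd, ?_⟩
    intro t ht htm
    rcases hcd.mem t ht with h1 | ⟨h1, h2⟩
    · exact h1
    · exfalso
      rcases lt_or_gt_of_ne htm with h3 | h3
      · have := hcd.c_add (m - t) t (by omega)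
        have h4 : t + (m - t) = m := by omega
        rw [h4] at this; omega
      · have := hcd.c_add (t - m) m (by omega)
        have h4 : m + (t - m) = t := by omega
        rw [h4] at this; omega
  · exfalso
    push Not at hex
    apply h.free c d
    refine ⟨hcd.hc, hcd.hd, hcd.mid, hcd.top, ?_⟩
    intro t ht
    rcases hcd.mem t ht with h1 | ⟨h1, h2⟩
    · exact h1
    · exact absurd h2 (hex t ht h1)

theorem KT.short {T : ℕ → ℕ → Prop} {n k : ℕ} (h : KT T n k) {x y : ℕ} (hxy : x < y) (hy : y < n)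
    (hs : y ≤ x + k ∨ x + n ≤ y + k) : T x y := by
  by_contra hT
  obtain ⟨c, d, m, hcd, hm, hc, hd, -⟩ := h.max' hxy hy hT
  have h1 := hcd.len_ge hm
  have h2 := hcd.len_le hm
  omega

/-- the data of the flattened star at the boundary cluster `{0, ..., k}` -/
structure RSeq (T : ℕ → ℕ → Prop) (n k : ℕ) (R : ℕ → ℕ) : Prop where
  zero : R 0 = k
  lt : ∀ j, R j < R (j + 1)
  mem : ∀ j, j < k → T j (R (j + 1))
  gap : ∀ j, j ≤ k → ∀ y, y < n → R j < y → y < R (j + 1) → ¬ T j y
  mem' : ∀ j, j < k → T (j + 1) (R (j + 1))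
  le : ∀ j, j ≤ k → R j + k + 1 ≤ n + j
  big : n ≤ R (k + 1)

theorem RSeq.add_le {T : ℕ → ℕ → Prop} {n k : ℕ} {R : ℕ → ℕ} (h : RSeq T n k R) :
    ∀ m j, R j + m ≤ R (j + m) := by
  intro m
  induction m with
  | zero => intro j; simp
  | succ m ih =>
    intro j
    have h1 := ih j
    have h2 := h.lt (j + m)
    have : j + (m + 1) = j + m + 1 := by ring
    rw [this]; omega

theorem RSeq.mono {T : ℕ → ℕ → Prop} {n k : ℕ} {R : ℕ → ℕ} (h : RSeq T n k R) {i j : ℕ}
    (hij : i ≤ j) : R i + (j - i) ≤ R j := by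
  have := h.add_le (j - i) i
  rwa [Nat.add_sub_cancel' hij] at this

theorem RSeq.ge {T : ℕ → ℕ → Prop} {n k : ℕ} {R : ℕ → ℕ} (h : RSeq T n k R) (j : ℕ) :
    k + j ≤ R j := by
  have := h.add_le j 0
  rw [Nat.zero_add, h.zero] at this; exact this

theorem RSeq.lt_of {T : ℕ → ℕ → Prop} {n k : ℕ} {R : ℕ → ℕ} (h : RSeq T n k R) {j : ℕ}
    (hj : R j < n) : j ≤ k := by
  by_contra hc
  have h1 := h.mono (show k + 1 ≤ j by omega)
  have h2 := h.big
  omega

theorem KT.exists_R {T : ℕ → ℕ → Prop} {n k : ℕ} (h : KT T n k) (hn : 2 * k + 1 ≤ n) :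
    ∃ R, RSeq T n k R := by
  -- the recursive sequence
  let R : ℕ → ℕ := fun j => Nat.rec k (fun j r => if j < k then sInf {y | r < y ∧ T j y} else n + j) j
  have hR0 : R 0 = k := rfl
  have hRs : ∀ j, R (j + 1) = if j < k then sInf {y | R j < y ∧ T j y} else n + j := fun j => rfl
  have key : ∀ j, j ≤ k → R j + k + 1 ≤ n + j := by
    intro j
    induction j with
    | zero => intro _; rw [hR0]; omega
    | succ j ih =>
      intro hj
      have h1 := ih (by omega)
      rw [hRs, if_pos (by omega)]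
      have hmem : n + j - k ∈ {y | R j < y ∧ T j y} := by
        refine ⟨by omega, h.short (by omega) (by omega) (by omega)⟩
      have := Nat.sInf_le hmem
      omega
  have spec : ∀ j, j < k → R j < R (j + 1) ∧ T j (R (j + 1)) := by
    intro j hj
    rw [hRs, if_pos hj]
    have hmem : n + j - k ∈ {y | R j < y ∧ T j y} := by
      have := key j (by omega)
      refine ⟨by omega, h.short (by omega) (by omega) (by omega)⟩
    exact Nat.sInf_mem ⟨_, hmem⟩
  have gap : ∀ j, j < k → ∀ y, R j < y → y < R (j + 1) → ¬ T j y := by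
    intro j hj y h1 h2 h3
    rw [hRs, if_pos hj] at h2
    exact Nat.notMem_of_lt_sInf h2 ⟨h1, h3⟩
  have lt : ∀ j, R j < R (j + 1) := by
    intro j
    by_cases hj : j < k
    · exact (spec j hj).1
    · rw [hRs, if_neg hj]
      by_cases hjk : j = k
      · have := key j (by omega); omega
      · obtain ⟨i, rfl⟩ : ∃ i, j = i + 1 := ⟨j - 1, by omega⟩
        rw [hRs, if_neg (by omega)]; omega
  have big : n ≤ R (k + 1) := by rw [hRs, if_neg (by omega)]; omega
  have ge : ∀ j, k + j ≤ R j := by
    intro j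
    induction j with
    | zero => rw [hR0]; omega
    | succ j ih => have := lt j; omega
  -- last gap
  have gapk : ∀ y, y < n → R k < y → ¬ T k y := by
    intro y hy hRy hT
    apply h.free (fun t => t) (fun t => if t < k then R (t + 1) else y)
    refine ⟨fun t ht => by simp, ?_, ?_, ?_, ?_⟩
    · intro t ht
      simp only [ht, if_true]
      by_cases h2 : t + 1 < k
      · simp only [h2, if_true]; exact lt (t + 1)
      · simp only [h2, if_false]
        have : t + 1 = k := by omega
        rw [this]; exact hRy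
    · by_cases h0 : 0 < k
      · simp only [h0, if_true]
        have := ge 1; simp at this ⊢; omega
      · simp only [h0, if_false]
        have := ge k; omega
    · simp [hy]
    · intro t ht
      by_cases h2 : t < k
      · simp only [h2, if_true]; exact (spec t h2).2
      · simp only [h2, if_false]
        have : t = k := by omega
        rw [this]; exact hT
  -- the edges (j+1, R (j+1))
  have mem' : ∀ j, j < k → T (j + 1) (R (j + 1)) := by
    intro j hj
    by_contra hT
    have hlt : j + 1 < R (j + 1) := by have := ge (j + 1); omega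
    have hltn : R (j + 1) < n := by have := key (j + 1) (by omega); omega
    obtain ⟨c, d, m, hcd, hm, hcm, hdm, hoth⟩ := h.max' hlt hltn hT
    have P : ∀ s, s ≤ j + 1 → s ≤ m ∧ ∀ s', s' ≤ s → c (m - s') = j + 1 - s' ∧
        d (m - s') ≤ R (j + 1 - s') := by
      intro s
      induction s with
      | zero =>
        intro _
        refine ⟨by omega, ?_⟩
        intro s' hs'
        have : s' = 0 := by omega
        subst this
        simp [hcm, hdm]
      | succ s ih =>
        intro hs
        obtain ⟨hsm, hP⟩ := ih (by omega)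
        have claim : s + 1 ≤ m ∧ c (m - (s + 1)) = j - s := by
          by_contra hneg
          -- build a crossing in T
          apply h.free (fun t => if m - s ≤ t ∧ t ≤ m then c t - 1 else c t)
            (fun t => if m - s ≤ t ∧ t ≤ m then R (c t) else d t)
          have hct : ∀ t, m - s ≤ t → t ≤ m → c t = j + 1 - (m - t) ∧ d t ≤ R (c t) := by
            intro t h1 h2
            have := hP (m - t) (by omega)
            have h3 : m - (m - t) = t := by omega
            rw [h3] at this
            rw [this.1]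
            exact ⟨rfl, this.2⟩
          refine ⟨?_, ?_, ?_, ?_, ?_⟩
          · intro t ht
            have h0 := hcd.hc t ht
            by_cases h1 : m - s ≤ t ∧ t ≤ m
            · simp only [h1, and_self, if_true]
              have := hct t h1.1 h1.2
              by_cases h2 : m - s ≤ t + 1 ∧ t + 1 ≤ m
              · simp only [h2, and_self, if_true]; omega
              · simp only [h2, if_false]; omega
            · simp only [h1, if_false]
              by_cases h2 : m - s ≤ t + 1 ∧ t + 1 ≤ m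
              · simp only [h2, and_self, if_true]
                have h3 : t + 1 = m - s := by omega
                have h4 := hct (t + 1) h2.1 h2.2
                have h5 : t = m - (s + 1) := by omega
                have h6 : ¬ (c t = j - s) := by
                  intro hh
                  apply hneg
                  rw [← h5]
                  exact ⟨by omega, hh⟩
                omega
              · simp only [h2, if_false]; exact h0
          · intro t ht
            have h0 := hcd.hd t ht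
            have h0' := hcd.hc t ht
            by_cases h1 : m - s ≤ t ∧ t ≤ m
            · simp only [h1, and_self, if_true]
              have ht1 := hct t h1.1 h1.2
              by_cases h2 : m - s ≤ t + 1 ∧ t + 1 ≤ m
              · simp only [h2, and_self, if_true]
                have ht2 := hct (t + 1) h2.1 h2.2
                have : c (t + 1) = c t + 1 := by omega
                rw [this]; exact lt _
              · simp only [h2, if_false]
                have h3 : t = m := by omega
                have : R (c t) = d t := by rw [h3, hcm, hdm]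
                rw [this]; exact h0
            · simp only [h1, if_false]
              by_cases h2 : m - s ≤ t + 1 ∧ t + 1 ≤ m
              · simp only [h2, and_self, if_true]
                have h4 := hct (t + 1) h2.1 h2.2
                omega
              · simp only [h2, if_false]; exact h0
          · have h0 := hcd.mid
            have hA : (if m - s ≤ k ∧ k ≤ m then c k - 1 else c k) ≤ c k := by
              split_ifs <;> omega
            have hB : d 0 ≤ (if m - s ≤ 0 ∧ 0 ≤ m then R (c 0) else d 0) := by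
              split_ifs with h1
              · exact (hct 0 h1.1 h1.2).2
              · exact le_rfl
            exact lt_of_le_of_lt hA (lt_of_lt_of_le h0 hB)
          · have h0 := hcd.top
            by_cases h1 : m - s ≤ k ∧ k ≤ m
            · simp only [h1, and_self, if_true]
              have h3 : k = m := by omega
              have : R (c k) = d k := by rw [h3, hcm, hdm]
              rw [this]; exact h0
            · simp only [h1, if_false]; exact h0
          · intro t ht
            by_cases h1 : m - s ≤ t ∧ t ≤ m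
            · simp only [h1, and_self, if_true]
              have h4 := hct t h1.1 h1.2
              have h5 : c t = (c t - 1) + 1 := by omega
              have := (spec (c t - 1) (by omega)).2
              rwa [← h5] at this
            · simp only [h1, if_false]
              exact hoth t ht (by omega)
        refine ⟨claim.1, ?_⟩
        intro s' hs'
        by_cases hss : s' ≤ s
        · exact hP s' hss
        · have hs'' : s' = s + 1 := by omega
          subst hs''
          have e1 : j + 1 - (s + 1) = j - s := by omega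
          rw [e1]
          refine ⟨claim.2, ?_⟩
          have hTm := hoth (m - (s + 1)) (by omega) (by omega)
          rw [claim.2] at hTm
          have h2 := hcd.hd (m - (s + 1)) (by omega)
          have h3 : m - (s + 1) + 1 = m - s := by omega
          rw [h3] at h2
          have h4 := (hP s le_rfl).2
          by_contra h5
          push Not at h5
          have h6 : j + 1 - s = j - s + 1 := by omega
          rw [h6] at h4
          exact gap (j - s) (by omega) _ h5 (by omega) hTm
    obtain ⟨h1, h2⟩ := P (j + 1) le_rfl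
    have h3 := h2 (j + 1) le_rfl
    have h4 := hcd.len_ge (show m - (j + 1) ≤ k by omega)
    have h5 : j + 1 - (j + 1) = 0 := by omega
    rw [h5, hR0] at h3
    omega
  refine ⟨R, hR0, lt, fun j hj => (spec j hj).2, ?_, mem', key, big⟩
  intro j hj y hy h1 h2
  by_cases hjk : j < k
  · exact gap j hjk y h1 h2
  · have : j = k := by omega
    subst this
    exact gapk y hy h1


/-- the flattened relation on one vertex fewer -/
def flat (T : ℕ → ℕ → Prop) (R : ℕ → ℕ) (x y : ℕ) : Prop :=
  T (if R (x + 1) ≤ y then x else x + 1) (y + 1)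

theorem flat_of_le {T : ℕ → ℕ → Prop} {R : ℕ → ℕ} {x y : ℕ} (h : R (x + 1) ≤ y) :
    flat T R x y ↔ T x (y + 1) := by
  unfold flat; rw [if_pos h]

theorem flat_of_lt {T : ℕ → ℕ → Prop} {R : ℕ → ℕ} {x y : ℕ} (h : y < R (x + 1)) :
    flat T R x y ↔ T (x + 1) (y + 1) := by
  unfold flat; rw [if_neg (by omega)]

theorem flat_free {T : ℕ → ℕ → Prop} {n k : ℕ} (h : KT T n k) {R : ℕ → ℕ} (hR : RSeq T n k R)
    (c' d' : ℕ → ℕ) : ¬ IsCr (flat T R) (n - 1) k c' d' := by
  classical
  intro hcd
  have htop := hcd.top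
  -- types
  let H : ℕ → Prop := fun t => R (c' t + 1) ≤ d' t
  let down : ℕ → Prop := fun t => ∃ m, t + m ≤ k ∧ c' (t + m) = c' t + m ∧ H (t + m)
  have hdk : ∀ t, t ≤ k → d' t + 1 < n := by
    intro t ht
    have := hcd.d_add (k - t) t (by omega)
    have h2 : t + (k - t) = k := by omega
    rw [h2] at this; omega
  have Hlt : ∀ t, t ≤ k → H t → c' t + 1 ≤ k := by
    intro t ht hH
    apply hR.lt_of
    have := hdk t ht
    change R (c' t + 1) ≤ d' t at hH
    omega
  have downlt : ∀ t, down t → c' t + 1 ≤ k := by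
    rintro t ⟨m, hm, h1, h2⟩
    have := Hlt _ hm h2
    omega
  have Hdown : ∀ t, t ≤ k → H t → down t := fun t ht hH => ⟨0, by omega, by simp, by simpa using hH⟩
  have down_succ : ∀ t, t < k → down (t + 1) → c' (t + 1) = c' t + 1 → down t := by
    rintro t ht ⟨m, hm, h1, h2⟩ h3
    refine ⟨m + 1, by omega, ?_, ?_⟩
    · have : t + (m + 1) = t + 1 + m := by ring
      rw [this, h1, h3]; ring
    · have : t + (m + 1) = t + 1 + m := by ring
      rw [this]; exact h2
  have down_step : ∀ t, down t → ¬ H t → t < k ∧ c' (t + 1) = c' t + 1 ∧ down (t + 1) := by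
    rintro t ⟨m, hm, h1, h2⟩ h3
    obtain ⟨m, rfl⟩ : ∃ m', m = m' + 1 := by
      cases m with
      | zero => exact absurd (by simpa using h2) h3
      | succ m => exact ⟨m, rfl⟩
    have h4 := hcd.hc t (by omega)
    have h5 := hcd.c_add m (t + 1) (by omega)
    have h6 : t + (m + 1) = t + 1 + m := by ring
    rw [h6] at h1 h2
    refine ⟨by omega, by omega, m, by omega, by omega, h2⟩
  apply h.free (fun t => if down t then c' t else c' t + 1)
    (fun t => if down t ∧ ¬ H t then R (c' t + 1) else d' t + 1)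
  refine ⟨?_, ?_, ?_, ?_, ?_⟩
  · intro t ht
    have h0 := hcd.hc t ht
    by_cases h1 : down t
    · simp only [h1, if_true]
      by_cases h2 : down (t + 1)
      · simp only [h2, if_true]; exact h0
      · simp only [h2, if_false]; omega
    · simp only [h1, if_false]
      by_cases h2 : down (t + 1)
      · simp only [h2, if_true]
        have h3 : c' (t + 1) ≠ c' t + 1 := fun hh => h1 (down_succ t ht h2 hh)
        omega
      · simp only [h2, if_false]; omega
  · intro t ht
    have h0 := hcd.hd t ht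
    have hA : d' (t + 1) + 1 ≤ (if down (t + 1) ∧ ¬ H (t + 1) then R (c' (t + 1) + 1)
        else d' (t + 1) + 1) := by
      split_ifs with h1
      · have : ¬ (R (c' (t + 1) + 1) ≤ d' (t + 1)) := h1.2
        omega
      · exact le_rfl
    by_cases h1 : down t ∧ ¬ H t
    · simp only [h1, not_false_eq_true, and_self, if_true]
      obtain ⟨h2, h3, h4⟩ := down_step t h1.1 h1.2
      by_cases h5 : H (t + 1)
      · have h6 : R (c' (t + 1) + 1) ≤ d' (t + 1) := h5
        have h7 := hR.lt (c' (t + 1))
        rw [h3] at h7 h6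
        simp only [h5, not_true_eq_false, and_false, if_false]
        omega
      · simp only [h4, h5, not_false_eq_true, and_self, if_true]
        rw [h3]; exact hR.lt _
    · simp only [h1, if_false]
      omega
  · have h0 := hcd.mid
    have hA : (if down k then c' k else c' k + 1) ≤ c' k + 1 := by split_ifs <;> omega
    have hB : d' 0 + 1 ≤ (if down 0 ∧ ¬ H 0 then R (c' 0 + 1) else d' 0 + 1) := by
      split_ifs with h1
      · have : ¬ (R (c' 0 + 1) ≤ d' 0) := h1.2
        omega
      · exact le_rfl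
    exact lt_of_le_of_lt hA (lt_of_lt_of_le (by omega) hB)
  · by_cases h1 : down k ∧ ¬ H k
    · exact absurd (down_step k h1.1 h1.2).1 (by omega)
    · simp only [h1, if_false]; have := hdk k le_rfl; omega
  · intro t ht
    have hm := hcd.mem t ht
    by_cases hH : H t
    · have hD := Hdown t ht hH
      simp only [hD, hH, not_true_eq_false, and_false, if_true, if_false]
      exact (flat_of_le hH).1 hm
    · have hH' : d' t < R (c' t + 1) := not_le.1 hH
      by_cases hD : down t
      · simp only [hD, hH, not_false_eq_true, and_self, if_true]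
        exact hR.mem _ (by have := downlt t hD; omega)
      · simp only [hD, false_and, if_false]
        exact (flat_of_lt hH').1 hm

theorem flat_max {T : ℕ → ℕ → Prop} {n k : ℕ} (h : KT T n k) {R : ℕ → ℕ} (hR : RSeq T n k R)
    {x y : ℕ} (hxy : x < y) (hy : y < n - 1) (hT : ¬ flat T R x y) :
    ∃ c d, IsCr (fun u v => flat T R u v ∨ (u = x ∧ v = y)) (n - 1) k c d := by
  classical
  -- the original nonedge
  obtain ⟨c, d, m, hcd, hm, hcm, hdm, hoth⟩ := h.max'
    (show (if R (x + 1) ≤ y then x else x + 1) < y + 1 by split_ifs <;> omega)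
    (show y + 1 < n by omega) hT
  have hdlt : ∀ t, t ≤ k → d t < n := by
    intro t ht
    have := hcd.d_add (k - t) t (by omega)
    have h2 : t + (k - t) = k := by omega
    rw [h2] at this
    have := hcd.top
    omega
  let stay : ℕ → Prop := fun t => R (c t + 1) ≤ d t
  have dich : ∀ t, t ≤ k → ¬ stay t → d t ≤ R (c t) := by
    intro t ht hs
    have hs' : d t < R (c t + 1) := not_le.1 hs
    by_cases htm : t = m
    · subst htm
      rw [hcm, hdm] at hs' ⊢
      split_ifs at hs' ⊢ with h1
      · omega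
      · omega
    · by_contra h1
      have hcR : R (c t) < n := by have := hdlt t ht; omega
      exact hR.gap (c t) (hR.lt_of hcR) (d t) (hdlt t ht) (by omega) hs' (hoth t ht htm)
  have stayc : ∀ t, t ≤ k → stay t → c t < k := by
    intro t ht hs
    have hs' : R (c t + 1) ≤ d t := hs
    have := hdlt t ht
    have := hR.lt_of (show R (c t + 1) < n by omega)
    omega
  have cpos : ∀ t, t ≤ k → ¬ stay t → 1 ≤ c t := by
    intro t ht hs
    by_contra h0
    have h1 := dich t ht hs
    have h2 : c t = 0 := by omega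
    rw [h2, hR.zero] at h1
    have := hcd.len_ge ht
    omega
  refine ⟨fun t => if stay t then c t else c t - 1, fun t => d t - 1, ?_, ?_, ?_, ?_, ?_⟩
  · intro t ht
    have h0 := hcd.hc t ht
    have hd0 := hcd.hd t ht
    by_cases h1 : stay t
    · simp only [h1, if_true]
      by_cases h2 : stay (t + 1)
      · simp only [h2, if_true]; exact h0
      · simp only [h2, if_false]
        have h3 := dich (t + 1) (by omega) h2
        have h4 : R (c t + 1) ≤ d t := h1
        have h5 : c (t + 1) ≠ c t + 1 := by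
          intro h6
          rw [h6] at h3
          omega
        omega
    · simp only [h1, if_false]
      have h3 := cpos t (by omega) h1
      by_cases h2 : stay (t + 1)
      · simp only [h2, if_true]; omega
      · simp only [h2, if_false]; omega
  · intro t ht
    have hd0 := hcd.hd t ht
    have := hcd.len_ge (show t ≤ k by omega)
    show d t - 1 < d (t + 1) - 1
    omega
  · have h0 := hcd.mid
    have hl := hcd.len_ge (show 0 ≤ k by omega)
    by_cases h1 : stay k
    · simp only [h1, if_true]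
      have := stayc k le_rfl h1
      omega
    · simp only [h1, if_false]
      have := cpos k le_rfl h1
      omega
  · have := hcd.top
    have := hcd.len_ge (le_refl k)
    show d k - 1 < n - 1
    omega
  · intro t ht
    have hl := hcd.len_ge ht
    have hd1 : d t - 1 + 1 = d t := by omega
    by_cases htm : t = m
    · right
      subst htm
      by_cases hs : stay t
      · simp only [hs, if_true]
        have hs' : R (c t + 1) ≤ d t := hs
        rw [hcm, hdm] at hs' ⊢
        by_cases h1 : R (x + 1) ≤ y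
        · simp [h1]
        · exfalso
          simp only [h1, if_false] at hs'
          have := hR.lt (x + 1)
          have h2 : y + 1 = R (x + 1) := by omega
          have h3 : x + 1 ≤ k := hR.lt_of (by omega)
          apply hT
          rw [flat_of_lt (by omega), h2]
          exact hR.mem' x (by omega)
      · simp only [hs, if_false]
        have hs' : d t < R (c t + 1) := not_le.1 hs
        rw [hcm, hdm] at hs' ⊢
        by_cases h1 : R (x + 1) ≤ y
        · simp only [h1, if_true] at hs'
          omega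
        · simp [h1]
    · left
      have hTt := hoth t ht htm
      by_cases hs : stay t
      · simp only [hs, if_true]
        have hs' : R (c t + 1) ≤ d t := hs
        by_cases h1 : R (c t + 1) ≤ d t - 1
        · rw [flat_of_le h1, hd1]; exact hTt
        · rw [flat_of_lt (by omega), hd1]
          have h2 : d t = R (c t + 1) := by omega
          rw [h2]
          exact hR.mem' _ (stayc t ht hs)
      · simp only [hs, if_false]
        have h1 := cpos t ht hs
        have h2 := dich t ht hs
        have h3 : c t - 1 + 1 = c t := by omega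
        rw [flat_of_lt (by rw [h3]; omega), hd1, h3]
        exact hTt

theorem flat_KT {T : ℕ → ℕ → Prop} {n k : ℕ} (h : KT T n k) {R : ℕ → ℕ} (hR : RSeq T n k R) :
    KT (flat T R) (n - 1) k :=
  ⟨fun c d => flat_free h hR c d, fun _ _ h1 h2 h3 => flat_max h hR h1 h2 h3⟩


open Classical in
/-- pipe system of a relation `T` on `{0, ..., n-1}`: `A a x y` says that pipe `a` is
below the gap pair `(x, y)`. -/
structure Pipes (k n : ℕ) (T : ℕ → ℕ → Prop) (ι : Type) [Fintype ι]
    (A : ι → ℕ → ℕ → Prop) : Prop where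
  low : ∀ a x y, A a x y → x + k + 1 ≤ y
  mono : ∀ a x y x' y', x' ≤ x → y ≤ y' → y' ≤ n → A a x y → A a x' y'
  dual : ∀ a x, x ≤ n → (A a 0 x ↔ ¬ A a x n)
  count : ∀ x y, x ≤ y → y ≤ n →
    (Finset.univ.filter (fun a => A a x y)).card = min (y - x - k) (n - 2 * k)
  box : ∀ x y, x < y → y < n → (T x y ↔ ∀ a, (A a x y ↔ A a (x + 1) (y + 1)))

/-- insertion of the flattened star -/
def ins (R : ℕ → ℕ) {ι : Type} (A : ι → ℕ → ℕ → Prop) : Option ι → ℕ → ℕ → Prop
  | none, x, y => R x < y ∧ x ≤ y
  | some a, x, y => (R x < y ∧ A a x (y - 1)) ∨ (¬ R x < y ∧ A a (x - 1) (y - 1))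

open Classical in
theorem pipes_ins {T : ℕ → ℕ → Prop} {n k : ℕ} (hk : 1 ≤ k) (hn : 2 * k + 2 ≤ n)
    (h : KT T n k) {R : ℕ → ℕ} (hR : RSeq T n k R) {ι : Type} [Fintype ι]
    {A : ι → ℕ → ℕ → Prop} (hA : Pipes k (n - 1) (flat T R) ι A) :
    Pipes k n T (Option ι) (ins R A) := by
  have Rge := hR.ge
  refine ⟨?_, ?_, ?_, ?_, ?_⟩
  · -- low
    rintro (_ | a) x y hxy
    · have := Rge x
      have := hxy.1
      omega
    · rcases hxy with ⟨h1, h2⟩ | ⟨h1, h2⟩
      · have := hA.low _ _ _ h2
        omega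
      · have := hA.low _ _ _ h2
        omega
  · -- mono
    rintro (_ | a) x y x' y' hx hy hy' hxy
    · have := hR.mono hx
      have := hxy.1
      have := hxy.2
      exact ⟨by omega, by omega⟩
    · rcases hxy with ⟨h1, h2⟩ | ⟨h1, h2⟩
      · left
        have := hR.mono hx
        exact ⟨by omega, hA.mono a _ _ _ _ hx (by omega) (by omega) h2⟩
      · by_cases h3 : R x' < y'
        · left
          refine ⟨h3, ?_⟩
          by_cases h4 : x' ≤ x - 1
          · exact hA.mono a _ _ _ _ h4 (by omega) (by omega) h2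
          · have hx' : x' = x := by omega
            subst hx'
            obtain ⟨z, rfl⟩ : ∃ z, x' = z + 1 := ⟨x' - 1, by omega⟩
            have hz : z + 1 ≤ k := hR.lt_of (by omega)
            have hge := Rge (z + 1)
            have h5 : A a z (R (z + 1) - 1) := by
              refine hA.mono a _ _ _ _ ?_ ?_ ?_ h2
              · omega
              · omega
              · omega
            have h6 : flat T R z (R (z + 1) - 1) := by
              rw [flat_of_lt (by omega)]
              have : R (z + 1) - 1 + 1 = R (z + 1) := by omega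
              rw [this]
              exact hR.mem' z (by omega)
            have h7 := (hA.box z (R (z + 1) - 1) (by omega) (by omega)).1 h6 a
            have h8 := h7.1 h5
            exact hA.mono a _ _ _ _ le_rfl (by omega) (by omega) h8
        · right
          exact ⟨h3, hA.mono a _ _ _ _ (by omega) (by omega) (by omega) h2⟩
  · -- dual
    rintro (_ | a) x hx
    · have h0 : R 0 = k := hR.zero
      constructor
      · rintro ⟨h1, -⟩ ⟨h2, -⟩
        have := hR.lt_of h2
        omega
      · intro h1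
        refine ⟨?_, by omega⟩
        rw [h0]
        by_contra h2
        apply h1
        have := hR.le x (by omega)
        exact ⟨by omega, hx⟩
    · have h0 : R 0 = k := hR.zero
      have hl : ins R A (some a) 0 x ↔ A a 0 (x - 1) := by
        constructor
        · rintro (⟨-, h2⟩ | ⟨-, h2⟩)
          · exact h2
          · exact h2
        · intro h2
          by_cases h3 : R 0 < x
          · exact Or.inl ⟨h3, h2⟩
          · exact Or.inr ⟨h3, h2⟩
      rw [hl]
      by_cases hxk : x ≤ k
      · have h1 := hR.le x hxk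
        have hr : ins R A (some a) x n ↔ A a x (n - 1) := by
          constructor
          · rintro (⟨-, h2⟩ | ⟨h3, h2⟩)
            · exact h2
            · exact absurd (show R x < n by omega) h3
          · intro h2
            exact Or.inl ⟨by omega, h2⟩
        rw [hr, ← hA.dual a x (by omega)]
        constructor
        · intro h2
          have := hA.low _ _ _ h2
          omega
        · intro h2
          have := hA.low _ _ _ h2
          omega
      · have h1 : ¬ R x < n := fun h2 => hxk (hR.lt_of h2)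
        have hr : ins R A (some a) x n ↔ A a (x - 1) (n - 1) := by
          constructor
          · rintro (⟨h3, -⟩ | ⟨-, h2⟩)
            · exact absurd h3 h1
            · exact h2
          · intro h2
            exact Or.inr ⟨h1, h2⟩
        rw [hr]
        exact hA.dual a (x - 1) (by omega)
  · -- count
    intro x y hxy hy
    have hsum : (Finset.univ.filter (fun a => ins R A a x y)).card =
        (if R x < y ∧ x ≤ y then 1 else 0) +
          (Finset.univ.filter (fun a => ins R A (some a) x y)).card := by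
      rw [Finset.card_filter, Fintype.sum_option, Finset.card_filter]
      congr 1
      simp only [ins]
      by_cases hh : R x < y ∧ x ≤ y <;> simp [hh]
    rw [hsum]
    by_cases h1 : R x < y
    · have h2 : (Finset.univ.filter (fun a => ins R A (some a) x y)) =
          (Finset.univ.filter (fun a => A a x (y - 1))) := by
        apply Finset.filter_congr
        intro a _
        constructor
        · rintro (⟨-, h2⟩ | ⟨h3, -⟩)
          · exact h2
          · exact absurd h1 h3
        · intro h2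
          exact Or.inl ⟨h1, h2⟩
      have hx := Rge x
      rw [h2, hA.count x (y - 1) (by omega) (by omega), if_pos ⟨h1, hxy⟩]
      omega
    · have h2 : (Finset.univ.filter (fun a => ins R A (some a) x y)) =
          (Finset.univ.filter (fun a => A a (x - 1) (y - 1))) := by
        apply Finset.filter_congr
        intro a _
        constructor
        · rintro (⟨h3, -⟩ | ⟨-, h2⟩)
          · exact absurd h3 h1
          · exact h2
        · intro h2
          exact Or.inr ⟨h1, h2⟩
      rw [h2, hA.count (x - 1) (y - 1) (by omega) (by omega), if_neg (by tauto)]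
      have h3 : x ≤ k → y + k + 1 ≤ n + x := by
        intro hxk
        have := hR.le x hxk
        omega
      have h4 : x = 0 → y ≤ k := by
        rintro rfl
        rw [hR.zero] at h1
        omega
      by_cases hx0 : x = 0
      · have := h4 hx0
        omega
      · by_cases hxk : x ≤ k
        · have := h3 hxk
          omega
        · omega
  · -- box
    intro x y hxy hy
    rw [Option.forall]
    have hRx := Rge x
    have hRlt := hR.lt x
    by_cases h1 : y ≤ R x
    · have hS : (ins R A none x y ↔ ins R A none (x + 1) (y + 1)) := by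
        constructor
        · rintro ⟨h2, -⟩; omega
        · rintro ⟨h2, -⟩; omega
      have e1 : ∀ a, (ins R A (some a) x y ↔ A a (x - 1) (y - 1)) := by
        intro a
        constructor
        · rintro (⟨h3, -⟩ | ⟨-, h2⟩)
          · omega
          · exact h2
        · intro h2
          exact Or.inr ⟨by omega, h2⟩
      have e2 : ∀ a, (ins R A (some a) (x + 1) (y + 1) ↔ A a x y) := by
        intro a
        constructor
        · rintro (⟨h3, -⟩ | ⟨-, h2⟩)
          · omega
          · exact h2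
        · intro h2
          exact Or.inr ⟨by omega, h2⟩
      simp only [hS, e1, e2, true_and]
      rcases Nat.eq_zero_or_pos x with hx | hx
      · subst hx
        rw [hR.zero] at h1
        have h2 : T 0 y := h.short hxy hy (by omega)
        simp only [h2, true_iff]
        intro a
        constructor
        · intro h3; have := hA.low _ _ _ h3; omega
        · intro h3; have := hA.low _ _ _ h3; omega
      · obtain ⟨z, rfl⟩ : ∃ z, x = z + 1 := ⟨x - 1, by omega⟩
        obtain ⟨w, rfl⟩ : ∃ w, y = w + 1 := ⟨y - 1, by omega⟩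
        have h2 := hA.box z w (by omega) (by omega)
        rw [flat_of_lt (by omega)] at h2
        simpa using h2
    · by_cases h2 : y < R (x + 1)
      · have hT : ¬ T x y := hR.gap x (hR.lt_of (by omega)) y hy (by omega) h2
        simp only [hT, false_iff]
        rintro ⟨h3, -⟩
        have h4 : ins R A none x y := ⟨by omega, by omega⟩
        have h5 := (h3.1 h4).1
        omega
      · have hxk : x + 1 ≤ k := hR.lt_of (by omega)
        have hRx1 := Rge (x + 1)
        have hS : (ins R A none x y ↔ ins R A none (x + 1) (y + 1)) := by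
          constructor
          · rintro ⟨h2, -⟩; exact ⟨by omega, by omega⟩
          · rintro ⟨h2, -⟩; exact ⟨by omega, by omega⟩
        have e1 : ∀ a, (ins R A (some a) x y ↔ A a x (y - 1)) := by
          intro a
          constructor
          · rintro (⟨-, h2⟩ | ⟨h3, h2⟩)
            · exact h2
            · omega
          · intro h2
            exact Or.inl ⟨by omega, h2⟩
        have e2 : ∀ a, (ins R A (some a) (x + 1) (y + 1) ↔ A a (x + 1) y) := by
          intro a
          constructor
          · rintro (⟨-, h2⟩ | ⟨h3, h2⟩)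
            · exact h2
            · omega
          · intro h2
            exact Or.inl ⟨by omega, h2⟩
        simp only [hS, e1, e2, true_and]
        obtain ⟨w, rfl⟩ : ∃ w, y = w + 1 := ⟨y - 1, by omega⟩
        have h3 := hA.box x w (by omega) (by omega)
        simp only [Nat.add_sub_cancel]
        rw [← h3]
        by_cases h4 : R (x + 1) ≤ w
        · rw [flat_of_le h4]
        · rw [flat_of_lt (by omega)]
          have h5 : w + 1 = R (x + 1) := by omega
          rw [h5]
          exact ⟨fun _ => hR.mem' x (by omega), fun _ => hR.mem x (by omega)⟩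

open Classical in
theorem pipes_base {T : ℕ → ℕ → Prop} {n k : ℕ} (hn : n = 2 * k + 1)
    (h : KT T n k) : Pipes k n T Unit (fun _ x y => x + k + 1 ≤ y) := by
  refine ⟨fun _ _ _ h => h, ?_, ?_, ?_, ?_⟩
  · intro _ x y x' y' h1 h2 h3 h4; omega
  · intro _ x hx; omega
  · intro x y hxy hy
    by_cases h1 : x + k + 1 ≤ y
    · simp only [h1, Finset.filter_true]
      simp
      omega
    · simp only [h1, Finset.filter_false]
      simp
      omega
  · intro x y hxy hy
    have : T x y := h.short hxy hy (by omega)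
    simp only [this, true_iff]
    intro _
    omega


theorem sum_skip (f : ℕ → ℕ) (i : ℕ) : ∀ y, i ≤ y →
    ∑ x ∈ Finset.range (y + 1), f x =
      f i + ∑ x ∈ Finset.range y, f (if x < i then x else x + 1) := by
  intro y hy
  induction y, hy using Nat.le_induction with
  | base =>
    rw [Finset.sum_range_succ, add_comm]
    congr 1
    apply Finset.sum_congr rfl
    intro x hx
    rw [if_pos (Finset.mem_range.1 hx)]
  | succ y hy ih =>
    rw [Finset.sum_range_succ, ih, Finset.sum_range_succ _ y, if_neg (by omega)]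
    ring

open Classical in
/-- number of nonedges -/
noncomputable def numN (T : ℕ → ℕ → Prop) (n : ℕ) : ℕ :=
  ∑ y ∈ Finset.range n, ∑ x ∈ Finset.range y, if T x y then 0 else 1

open Classical in
theorem numN_flat {T : ℕ → ℕ → Prop} {n k : ℕ} (hn : 2 * k + 2 ≤ n)
    (h : KT T n k) {R : ℕ → ℕ} (hR : RSeq T n k R) :
    numN T n = numN (flat T R) (n - 1) + (n - 1 - 2 * k) := by
  obtain ⟨m, rfl⟩ : ∃ m, n = m + 1 := ⟨n - 1, by omega⟩
  simp only [Nat.add_sub_cancel]
  unfold numN
  rw [Finset.sum_range_succ']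
  simp only [Finset.range_zero, Finset.sum_empty, add_zero]
  have col : ∀ y ∈ Finset.range m, (∑ x ∈ Finset.range (y + 1), if T x (y + 1) then 0 else 1) =
      (∑ x ∈ Finset.range y, if flat T R x y then 0 else 1) +
        (if k < y + 1 ∧ y + 1 ∉ (Finset.range k).image (fun j => R (j + 1)) then 1 else 0) := by
    intro y hy
    rw [Finset.mem_range] at hy
    have hex : ∃ i, y < R (i + 1) := ⟨y, by have := hR.ge (y + 1); omega⟩
    let i := Nat.find hex
    have hi : y < R (i + 1) := Nat.find_spec hex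
    have hi' : ∀ x, x < i → R (x + 1) ≤ y := fun x hx => not_lt.1 (Nat.find_min hex hx)
    have hi2 : ∀ x, i ≤ x → y < R (x + 1) := by
      intro x hx
      have := hR.mono (show i + 1 ≤ x + 1 by omega)
      omega
    have hiy : i ≤ y := by
      by_contra hc
      have h1 := hi' y (by omega)
      have := hR.ge (y + 1)
      omega
    rw [sum_skip _ i y hiy, add_comm]
    congr 1
    · apply Finset.sum_congr rfl
      intro x _
      by_cases hx : x < i
      · rw [if_pos hx]
        have : flat T R x y ↔ T x (y + 1) := flat_of_le (hi' x hx)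
        simp only [this]
      · rw [if_neg hx]
        have : flat T R x y ↔ T (x + 1) (y + 1) := flat_of_lt (hi2 x (by omega))
        simp only [this]
    · by_cases hyk : y + 1 ≤ k
      · have h0 : i = 0 := by
          by_contra h0
          have h1 := hi' 0 (by omega)
          have := hR.ge (0 + 1)
          omega
        have hT : T i (y + 1) := by
          rw [h0]; exact h.short (by omega) (by omega) (by omega)
        rw [if_pos hT, if_neg (by omega)]
      · have hRi : R i < y + 1 := by
          rcases Nat.eq_zero_or_pos i with h0 | h0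
          · rw [h0, hR.zero]; omega
          · have := hi' (i - 1) (by omega)
            have h2 : i - 1 + 1 = i := by omega
            rw [h2] at this; omega
        have hik : i ≤ k := hR.lt_of (by omega)
        by_cases heq : y + 1 = R (i + 1)
        · have hik' : i + 1 ≤ k := hR.lt_of (by omega)
          have hT : T i (y + 1) := by rw [heq]; exact hR.mem i (by omega)
          rw [if_pos hT, if_neg]
          rintro ⟨-, h2⟩
          apply h2
          rw [Finset.mem_image]
          exact ⟨i, Finset.mem_range.2 (by omega), heq.symm⟩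
        · have hT : ¬ T i (y + 1) := hR.gap i hik (y + 1) (by omega) hRi (by omega)
          rw [if_neg hT, if_pos]
          refine ⟨by omega, ?_⟩
          rw [Finset.mem_image]
          rintro ⟨j, -, hj⟩
          rcases Nat.lt_trichotomy j i with h1 | h1 | h1
          · have := hR.mono (show j + 1 ≤ i by omega)
            omega
          · subst h1; exact heq hj.symm
          · have := hR.mono (show i + 1 ≤ j + 1 by omega)
            omega
  rw [Finset.sum_congr rfl col, Finset.sum_add_distrib]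
  congr 1
  -- the count
  have h1 : (∑ y ∈ Finset.range m,
      if k < y + 1 ∧ y + 1 ∉ (Finset.range k).image (fun j => R (j + 1)) then 1 else 0) =
      ((Finset.Ioo k (m + 1)) \ ((Finset.range k).image (fun j => R (j + 1)))).card := by
    rw [← Finset.card_filter]
    apply Finset.card_bij (fun y _ => y + 1)
    · intro y hy
      simp only [Finset.mem_filter, Finset.mem_range, Finset.mem_sdiff, Finset.mem_Ioo] at hy ⊢
      exact ⟨⟨by omega, by omega⟩, hy.2.2⟩
    · intro a _ b _ hab; omega
    · intro b hb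
      simp only [Finset.mem_sdiff, Finset.mem_Ioo] at hb
      refine ⟨b - 1, ?_, by omega⟩
      have : b - 1 + 1 = b := by omega
      simp only [Finset.mem_filter, Finset.mem_range, this]
      exact ⟨by omega, by omega, hb.2⟩
  rw [h1, Finset.card_sdiff_of_subset, Nat.card_Ioo, Finset.card_image_of_injOn, Finset.card_range]
  · omega
  · intro a _ b _ hab
    simp only at hab
    rcases Nat.lt_trichotomy a b with h1 | h1 | h1
    · have := hR.mono (show a + 1 ≤ b + 1 by omega); omega
    · exact h1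
    · have := hR.mono (show b + 1 ≤ a + 1 by omega); omega
  · intro y hy
    rw [Finset.mem_image] at hy
    obtain ⟨j, hj, rfl⟩ := hy
    rw [Finset.mem_range] at hj
    rw [Finset.mem_Ioo]
    have := hR.ge (j + 1)
    have := hR.le (j + 1) (by omega)
    omega

open Classical in
theorem exists_pipes (k : ℕ) (hk : 1 ≤ k) : ∀ m, ∀ T : ℕ → ℕ → Prop, KT T (2 * k + 1 + m) k →
    (∃ (ι : Type) (_ : Fintype ι) (A : ι → ℕ → ℕ → Prop), Pipes k (2 * k + 1 + m) T ι A) ∧
      numN T (2 * k + 1 + m) = (m + 1).choose 2 := by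
  intro m
  induction m with
  | zero =>
    intro T hT
    refine ⟨⟨Unit, inferInstance, _, pipes_base rfl hT⟩, ?_⟩
    unfold numN
    rw [Finset.sum_eq_zero]
    · rfl
    · intro y hy
      apply Finset.sum_eq_zero
      intro x hx
      rw [Finset.mem_range] at hx hy
      rw [if_pos]
      exact hT.short hx hy (by omega)
  | succ m ih =>
    intro T hT
    obtain ⟨R, hR⟩ := hT.exists_R (by omega)
    have hflat := flat_KT hT hR
    have e : 2 * k + 1 + (m + 1) - 1 = 2 * k + 1 + m := by omega
    have hN := numN_flat (by omega) hT hR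
    rw [e] at hflat hN
    obtain ⟨⟨ι, _, A, hA⟩, hcount⟩ := ih _ hflat
    refine ⟨⟨Option ι, inferInstance, ins R A, pipes_ins hk (by omega) hT hR (by rw [e]; exact hA)⟩, ?_⟩
    rw [hN, hcount]
    have : 2 * k + 1 + m - 2 * k = m + 1 := by omega
    rw [this, Nat.choose_succ_succ' (m + 1) 1, Nat.choose_one_right]
    ring


section cert

variable {k n : ℕ} {T : ℕ → ℕ → Prop} {ι : Type} [Fintype ι] {A : ι → ℕ → ℕ → Prop}

/-- pipe `a` goes straight along wire `x` at the box `(x, y)` -/
def Ve (A : ι → ℕ → ℕ → Prop) (a : ι) (x y : ℕ) : Prop := A a x y ∧ ¬ A a (x + 1) (y + 1)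

/-- pipe `b` goes straight along wire `y` at the box `(x, y)` -/
def Ho (A : ι → ℕ → ℕ → Prop) (b : ι) (x y : ℕ) : Prop := ¬ A b x y ∧ A b (x + 1) (y + 1)

theorem Pipes.top (hA : Pipes k n T ι A) (a : ι) : A a 0 n := by
  by_contra h
  have := hA.low _ _ _ ((hA.dual a 0 (by omega)).2 h)
  omega

theorem Pipes.card (hA : Pipes k n T ι A) (hn : 2 * k + 1 ≤ n) : Fintype.card ι = n - 2 * k := by
  classical
  have h := hA.count 0 n (by omega) le_rfl
  have h2 : (Finset.univ.filter (fun a => A a 0 n)) = Finset.univ := by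
    apply Finset.filter_true_of_mem
    intro a _
    exact hA.top a
  rw [h2, Finset.card_univ] at h
  rw [h]; omega

theorem Pipes.uV (hA : Pipes k n T ι A) {a b : ι} {x y : ℕ} (hxy : x < y) (hy : y ≤ n)
    (ha : A a x y) (ha' : ¬ A a (x + 1) y) (hb : A b x y) (hb' : ¬ A b (x + 1) y) : a = b := by
  classical
  by_contra hab
  have h1 := hA.count x y (by omega) hy
  have h2 := hA.count (x + 1) y (by omega) hy
  have h3 : insert a (insert b (Finset.univ.filter (fun c => A c (x + 1) y))) ⊆
      Finset.univ.filter (fun c => A c x y) := by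
    intro c hc
    simp only [Finset.mem_insert, Finset.mem_filter, Finset.mem_univ, true_and] at hc ⊢
    rcases hc with rfl | rfl | hc
    · exact ha
    · exact hb
    · exact hA.mono _ _ _ _ _ (by omega) le_rfl hy hc
  have h4 := Finset.card_le_card h3
  rw [Finset.card_insert_of_notMem, Finset.card_insert_of_notMem] at h4
  · omega
  · simp [hb']
  · simp [ha', hab]

theorem Pipes.uH (hA : Pipes k n T ι A) {a b : ι} {x y : ℕ} (hxy : x ≤ y) (hy : y < n)
    (ha : ¬ A a x y) (ha' : A a x (y + 1)) (hb : ¬ A b x y) (hb' : A b x (y + 1)) : a = b := by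
  classical
  by_contra hab
  have h1 := hA.count x y (by omega) (by omega)
  have h2 := hA.count x (y + 1) (by omega) hy
  have h3 : insert a (insert b (Finset.univ.filter (fun c => A c x y))) ⊆
      Finset.univ.filter (fun c => A c x (y + 1)) := by
    intro c hc
    simp only [Finset.mem_insert, Finset.mem_filter, Finset.mem_univ, true_and] at hc ⊢
    rcases hc with rfl | rfl | hc
    · exact ha'
    · exact hb'
    · exact hA.mono _ _ _ _ _ le_rfl (by omega) hy hc
  have h4 := Finset.card_le_card h3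
  rw [Finset.card_insert_of_notMem, Finset.card_insert_of_notMem] at h4
  · omega
  · simp [hb]
  · simp [ha, hab]

theorem Pipes.not_of_V (hA : Pipes k n T ι A) {a : ι} {x y : ℕ} (hxy : x < y) (hy : y < n)
    (h : Ve A a x y) : ¬ T x y := by
  intro hT
  exact h.2 (((hA.box x y hxy hy).1 hT a).1 h.1)

theorem Pipes.not_of_H (hA : Pipes k n T ι A) {a : ι} {x y : ℕ} (hxy : x < y) (hy : y < n)
    (h : Ho A a x y) : ¬ T x y := by
  intro hT
  exact h.1 (((hA.box x y hxy hy).1 hT a).2 h.2)

theorem Pipes.labels (hA : Pipes k n T ι A) {x y : ℕ} (hxy : x < y) (hy : y < n)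
    (h : ¬ T x y) : ∃ a b, Ve A a x y ∧ Ho A b x y := by
  classical
  have h1 := hA.count x y (by omega) (by omega)
  have h2 := hA.count (x + 1) (y + 1) (by omega) (by omega)
  have h3 : y + 1 - (x + 1) - k = y - x - k := by omega
  rw [h3, ← h1] at h2
  by_contra hne
  push Not at hne
  apply h
  rw [hA.box x y hxy hy]
  by_cases hV : ∃ a, Ve A a x y
  · obtain ⟨a, ha⟩ := hV
    exfalso
    have h4 : Finset.univ.filter (fun c => A c (x + 1) (y + 1)) ⊂
        Finset.univ.filter (fun c => A c x y) := by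
      rw [Finset.ssubset_iff_of_subset]
      · exact ⟨a, by simpa using ha.1, by simpa using ha.2⟩
      · intro c hc
        simp only [Finset.mem_filter, Finset.mem_univ, true_and] at hc ⊢
        by_contra hc'
        exact hne a c ha ⟨hc', hc⟩
    have := Finset.card_lt_card h4
    omega
  · push Not at hV
    have h4 : Finset.univ.filter (fun c => A c x y) ⊆
        Finset.univ.filter (fun c => A c (x + 1) (y + 1)) := by
      intro c hc
      simp only [Finset.mem_filter, Finset.mem_univ, true_and] at hc ⊢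
      by_contra hc'
      exact hV c ⟨hc, hc'⟩
    have h5 := Finset.eq_of_subset_of_card_le h4 (by omega)
    intro a
    have h6 := Finset.ext_iff.1 h5 a
    simpa using h6

theorem Pipes.cross (hA : Pipes k n T ι A) {a b : ι} (hab : a ≠ b) : ∀ m x1 y1 y2 : ℕ,
    y1 ≤ n → y2 ≤ n → A a x1 y1 → ¬ A b x1 y1 → A b (x1 + m) y2 → ¬ A a (x1 + m) y2 →
    ∃ x y, x1 ≤ x ∧ x < x1 + m ∧ x < y ∧ y < n ∧ Ve A a x y ∧ Ho A b x y := by
  classical
  intro m
  induction m with
  | zero =>
    intro x1 y1 y2 hy1 hy2 h1 h2 h3 h4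
    exfalso
    rcases le_total y1 y2 with h | h
    · exact h4 (hA.mono _ _ _ _ _ le_rfl h hy2 h1)
    · exact h2 (hA.mono _ _ _ _ _ le_rfl h hy1 h3)
  | succ m ih =>
    intro x1 y1 y2 hy1 hy2 h1 h2 h3 h4
    have hex : ∃ y, A b (x1 + 1) y := ⟨y2, hA.mono _ _ _ _ _ (by omega) le_rfl hy2 h3⟩
    have hf1 : A b (x1 + 1) (Nat.find hex) := Nat.find_spec hex
    have hf2 : Nat.find hex ≤ y2 := Nat.find_min' hex (hA.mono _ _ _ _ _ (by omega) le_rfl hy2 h3)
    have hf3 : ∀ z, z < Nat.find hex → ¬ A b (x1 + 1) z := fun z hz => Nat.find_min hex hz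
    generalize Nat.find hex = y' at hf1 hf2 hf3
    have hlow := hA.low _ _ _ hf1
    obtain ⟨y, rfl⟩ : ∃ y, y' = y + 1 := ⟨y' - 1, by omega⟩
    have hb' := hf3 y (by omega)
    by_cases ha : A a (x1 + 1) (y + 1)
    · by_cases ha' : A a (x1 + 1) y
      · have e : x1 + (m + 1) = x1 + 1 + m := by ring
        rw [e] at h3 h4
        obtain ⟨x, z, g1, g2, g3, g4, g5, g6⟩ := ih (x1 + 1) y y2 (by omega) hy2 ha' hb' h3 h4
        exact ⟨x, z, by omega, by omega, g3, g4, g5, g6⟩
      · exact absurd (hA.uH (by omega) (by omega) ha' ha hb' hf1) hab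
    · -- box at (x1, y)
      have hbx : A b x1 (y + 1) := hA.mono _ _ _ _ _ (by omega) le_rfl (by omega) hf1
      have hy1' : y1 ≤ y := by
        by_contra hc
        exact h2 (hA.mono _ _ _ _ _ le_rfl (by omega) hy1 hbx)
      have hax : A a x1 y := hA.mono _ _ _ _ _ le_rfl hy1' (by omega) h1
      refine ⟨x1, y, le_rfl, by omega, by omega, by omega, ⟨hax, ha⟩, ?_, hf1⟩
      intro hby
      apply hab
      apply hA.uV (show x1 < y by omega) (by omega) hax _ hby hb'
      intro h5
      exact ha (hA.mono _ _ _ _ _ le_rfl (by omega) (by omega) h5)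

theorem Pipes.exists_cross (hA : Pipes k n T ι A) {a b : ι} (hab : a ≠ b) :
    ∃ x y, x < y ∧ y < n ∧ ((Ve A a x y ∧ Ho A b x y) ∨ (Ve A b x y ∧ Ho A a x y)) := by
  classical
  have main : ∀ a b : ι, a ≠ b → ∀ z, z ≤ n → A a 0 z → ¬ A b 0 z →
      ∃ x y, x < y ∧ y < n ∧ Ve A a x y ∧ Ho A b x y := by
    intro a b hab z hz h1 h2
    have h3 := (hA.dual a z hz)
    have h4 := (hA.dual b z hz)
    obtain ⟨x, y, -, -, g3, g4, g5, g6⟩ := hA.cross hab z 0 z n hz le_rfl h1 h2
      (by rw [Nat.zero_add]; tauto) (by rw [Nat.zero_add]; tauto)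
    exact ⟨x, y, g3, g4, g5, g6⟩
  have hexa : ∃ z, A a 0 z := ⟨n, hA.top a⟩
  have hexb : ∃ z, A b 0 z := ⟨n, hA.top b⟩
  have ha1 := Nat.find_spec hexa
  have ha2 := Nat.find_min' hexa (hA.top a)
  have ha3 : ∀ z, z < Nat.find hexa → ¬ A a 0 z := fun z hz => Nat.find_min hexa hz
  have hb1 := Nat.find_spec hexb
  have hb2 := Nat.find_min' hexb (hA.top b)
  have hb3 : ∀ z, z < Nat.find hexb → ¬ A b 0 z := fun z hz => Nat.find_min hexb hz
  generalize Nat.find hexa = za at ha1 ha2 ha3
  generalize Nat.find hexb = zb at hb1 hb2 hb3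
  rcases Nat.lt_trichotomy za zb with h | h | h
  · obtain ⟨x, y, g1, g2, g3, g4⟩ := main a b hab za ha2 ha1 (hb3 za h)
    exact ⟨x, y, g1, g2, Or.inl ⟨g3, g4⟩⟩
  · subst h
    have := hA.low _ _ _ ha1
    obtain ⟨z, rfl⟩ : ∃ z, za = z + 1 := ⟨za - 1, by omega⟩
    exact absurd (hA.uH (by omega) (by omega) (ha3 z (by omega)) ha1 (hb3 z (by omega)) hb1) hab
  · obtain ⟨x, y, g1, g2, g3, g4⟩ := main b a hab.symm zb hb2 hb1 (ha3 zb h)
    exact ⟨x, y, g1, g2, Or.inr ⟨g3, g4⟩⟩

open Classical in
/-- the set of nonedges -/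
noncomputable def Nset (T : ℕ → ℕ → Prop) (n : ℕ) : Finset (ℕ × ℕ) :=
  ((Finset.range n) ×ˢ (Finset.range n)).filter (fun e => e.1 < e.2 ∧ ¬ T e.1 e.2)

theorem mem_Nset {e : ℕ × ℕ} : e ∈ Nset T n ↔ e.1 < e.2 ∧ e.2 < n ∧ ¬ T e.1 e.2 := by
  unfold Nset
  simp only [Finset.mem_filter, Finset.mem_product, Finset.mem_range]
  constructor
  · rintro ⟨⟨h1, h2⟩, h3, h4⟩; exact ⟨h3, h2, h4⟩
  · rintro ⟨h1, h2, h3⟩; exact ⟨⟨by omega, h2⟩, h1, h3⟩

theorem card_Nset : (Nset T n).card = numN T n := by
  classical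
  unfold Nset numN
  rw [Finset.card_filter, Finset.sum_product_right]
  apply Finset.sum_congr rfl
  intro y hy
  rw [Finset.mem_range] at hy
  rw [← Finset.sum_subset (s₁ := Finset.range y) (s₂ := Finset.range n)]
  · apply Finset.sum_congr rfl
    intro x hx
    rw [Finset.mem_range] at hx
    by_cases h : T x y
    · simp [h]
    · simp [h, hx]
  · intro x hx
    rw [Finset.mem_range] at hx ⊢
    omega
  · intro x hx hx'
    rw [Finset.mem_range] at hx hx'
    simp only
    rw [if_neg]
    omega

theorem Pipes.filter_eq (hA : Pipes k n T ι A) [DecidableEq ι] {a b : ι} {x y : ℕ} (hxy : x < y)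
    (hy : y < n) (ha : Ve A a x y) (hb : Ho A b x y) (c : ι) :
    (Ve A c x y ∨ Ho A c x y) ↔ c = a ∨ c = b := by
  constructor
  · rintro (h | h)
    · left
      apply hA.uV hxy (by omega) h.1 _ ha.1
      · intro h5
        exact ha.2 (hA.mono _ _ _ _ _ le_rfl (by omega) (by omega) h5)
      · intro h5
        exact h.2 (hA.mono _ _ _ _ _ le_rfl (by omega) (by omega) h5)
    · right
      apply hA.uH (show x ≤ y by omega) (by omega) h.1 _ hb.1
      · exact hA.mono _ _ _ _ _ (by omega) le_rfl (by omega) hb.2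
      · exact hA.mono _ _ _ _ _ (by omega) le_rfl (by omega) h.2
  · rintro (rfl | rfl)
    · exact Or.inl ha
    · exact Or.inr hb

omit [Fintype ι] in
theorem VH_ne {a b : ι} {x y : ℕ} (ha : Ve A a x y) (hb : Ho A b x y) : a ≠ b := by
  rintro rfl
  exact hb.1 ha.1

theorem Pipes.uniq (hA : Pipes k n T ι A) (hn : 2 * k + 1 ≤ n)
    (hN : numN T n = (n - 2 * k).choose 2) {a b c d : ι} {x y x' y' : ℕ}
    (hxy : x < y) (hy : y < n) (hxy' : x' < y') (hy' : y' < n)
    (ha : Ve A a x y) (hb : Ho A b x y) (hc : Ve A c x' y') (hd : Ho A d x' y')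
    (hlab : (c = a ∧ d = b) ∨ (c = b ∧ d = a)) : x = x' ∧ y = y' := by
  classical
  let f : ℕ × ℕ → Finset ι := fun e => Finset.univ.filter (fun c => Ve A c e.1 e.2 ∨ Ho A c e.1 e.2)
  have hf : ∀ {x y : ℕ} {a b : ι}, x < y → y < n → Ve A a x y → Ho A b x y →
      f (x, y) = {a, b} := by
    intro x y a b h1 h2 h3 h4
    ext c
    simp only [f, Finset.mem_filter, Finset.mem_univ, true_and, Finset.mem_insert,
      Finset.mem_singleton]
    exact hA.filter_eq h1 h2 h3 h4 c
  have hmaps : Set.MapsTo f (Nset T n) (Finset.powersetCard 2 (Finset.univ : Finset ι)) := by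
    intro e he
    rw [Finset.mem_coe, mem_Nset] at he
    obtain ⟨a, b, h1, h2⟩ := hA.labels he.1 he.2.1 he.2.2
    have : f e = {a, b} := hf he.1 he.2.1 h1 h2
    rw [this, Finset.mem_coe, Finset.mem_powersetCard]
    exact ⟨Finset.subset_univ _, Finset.card_pair (VH_ne h1 h2)⟩
  have hsurj : Set.SurjOn f (Nset T n) (Finset.powersetCard 2 (Finset.univ : Finset ι)) := by
    intro s hs
    rw [Finset.mem_coe, Finset.mem_powersetCard] at hs
    obtain ⟨a, b, hab, rfl⟩ := Finset.card_eq_two.1 hs.2
    obtain ⟨x, y, h1, h2, h3⟩ := hA.exists_cross hab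
    refine ⟨(x, y), ?_, ?_⟩
    · rw [Finset.mem_coe, mem_Nset]
      rcases h3 with h3 | h3
      · exact ⟨h1, h2, hA.not_of_V h1 h2 h3.1⟩
      · exact ⟨h1, h2, hA.not_of_V h1 h2 h3.1⟩
    · rcases h3 with h3 | h3
      · exact hf h1 h2 h3.1 h3.2
      · rw [hf h1 h2 h3.1 h3.2, Finset.pair_comm]
  have hinj := Finset.injOn_of_surjOn_of_card_le f hmaps hsurj (by
    rw [card_Nset, hN, Finset.card_powersetCard, Finset.card_univ, hA.card hn])
  have h1 : (x, y) ∈ (Nset T n : Set (ℕ × ℕ)) := by
    rw [Finset.mem_coe, mem_Nset]; exact ⟨hxy, hy, hA.not_of_V hxy hy ha⟩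
  have h2 : (x', y') ∈ (Nset T n : Set (ℕ × ℕ)) := by
    rw [Finset.mem_coe, mem_Nset]; exact ⟨hxy', hy', hA.not_of_V hxy' hy' hc⟩
  have h3 : f (x, y) = f (x', y') := by
    rw [hf hxy hy ha hb, hf hxy' hy' hc hd]
    rcases hlab with ⟨rfl, rfl⟩ | ⟨rfl, rfl⟩
    · rfl
    · exact Finset.pair_comm _ _
  have := hinj h1 h2 h3
  simpa using this


open Classical in
/-- the edges -/
noncomputable def Eset (T : ℕ → ℕ → Prop) (n : ℕ) : Finset (ℕ × ℕ) :=
  ((Finset.range n) ×ˢ (Finset.range n)).filter (fun e => e.1 < e.2 ∧ T e.1 e.2)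

theorem mem_Eset {e : ℕ × ℕ} : e ∈ Eset T n ↔ e.1 < e.2 ∧ e.2 < n ∧ T e.1 e.2 := by
  unfold Eset
  simp only [Finset.mem_filter, Finset.mem_product, Finset.mem_range]
  constructor
  · rintro ⟨⟨h1, h2⟩, h3, h4⟩; exact ⟨h3, h2, h4⟩
  · rintro ⟨h1, h2, h3⟩; exact ⟨⟨by omega, h2⟩, h1, h3⟩

/-- indicator: `e` crosses `ij` -/
def xi (i j : ℕ) (e : ℕ × ℕ) : ℕ :=
  if (e.1 < i ∧ i < e.2 ∧ (j < e.1 ∨ e.2 < j)) ∨ ((i < e.1 ∨ e.2 < i) ∧ e.1 < j ∧ j < e.2)
  then 1 else 0

open Classical in
/-- indicator: `i` is strictly on the side of `e` opposite to pipe `a` -/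
noncomputable def gi (A : ι → ℕ → ℕ → Prop) (a : ι) (i : ℕ) (e : ℕ × ℕ) : ℕ :=
  if (A a e.1 e.2 ∧ (i < e.1 ∨ e.2 < i)) ∨ (¬ A a e.1 e.2 ∧ e.1 < i ∧ i < e.2) then 1 else 0

open Classical in
/-- indicator: `e` separates the pipes `a`, `b` -/
noncomputable def di (A : ι → ℕ → ℕ → Prop) (a b : ι) (e : ℕ × ℕ) : ℕ :=
  if (A a e.1 e.2 ↔ A b e.1 e.2) then 0 else 1

omit [Fintype ι] in
theorem xi_le (a b : ι) (i j : ℕ) (e : ℕ × ℕ) :
    xi i j e ≤ gi A a i e + gi A b j e + di A a b e := by
  unfold xi gi di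
  by_cases p : A a e.1 e.2
  · by_cases q : A b e.1 e.2
    · simp only [p, q, true_and, not_true_eq_false, false_and, or_false]
      split_ifs <;> first | omega | simp_all
    · simp only [p, q, true_and, not_true_eq_false, false_and, or_false, false_or,
        not_false_eq_true, iff_false]
      split_ifs <;> first | omega | simp_all
  · by_cases q : A b e.1 e.2
    · simp only [p, q, true_and, not_true_eq_false, false_and, or_false, false_or,
        not_false_eq_true, iff_true]
      split_ifs <;> first | omega | simp_all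
    · simp only [p, q, true_and, false_and, false_or, not_false_eq_true]
      split_ifs <;> first | omega | simp_all

theorem Pipes.eq_at (hA : Pipes k n T ι A) (hn : 2 * k + 1 ≤ n)
    (hN : numN T n = (n - 2 * k).choose 2) {a b : ι} {i j : ℕ} (hij : i < j) (hj : j < n)
    (ha : Ve A a i j) (hb : Ho A b i j) {u v : ℕ} (huv : u < v) (hv : v < n) (hT : T u v) :
    xi i j (u, v) = gi A a i (u, v) + gi A b j (u, v) + di A a b (u, v) := by
  have hEa := (hA.box u v huv hv).1 hT a
  have hEb := (hA.box u v huv hv).1 hT b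
  have hIN : u ≤ i → j ≤ v → A a u v ∧ A b u v := by
    intro h1 h2
    exact ⟨hA.mono _ _ _ _ _ h1 h2 (by omega) ha.1,
      hEb.2 (hA.mono _ _ _ _ _ (by omega) (by omega) (by omega) hb.2)⟩
  have hOUT1 : i ≤ u → v ≤ j → ¬ A a u v ∧ ¬ A b u v := by
    intro h1 h2
    exact ⟨fun h => ha.2 (hA.mono _ _ _ _ _ (by omega) (by omega) (by omega) (hEa.1 h)),
      fun h => hb.1 (hA.mono _ _ _ _ _ h1 h2 (by omega) h)⟩
  have hOUT2 : v ≤ i → ¬ A a u v ∧ ¬ A b u v := by
    intro h1
    constructor
    · intro h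
      have h2 : A a 0 i := hA.mono _ _ _ _ _ (by omega) h1 (by omega) h
      exact (hA.dual a i (by omega)).1 h2 (hA.mono _ _ _ _ _ le_rfl (by omega) le_rfl ha.1)
    · intro h
      have h2 : A b 0 (i + 1) := hA.mono _ _ _ _ _ (by omega) (by omega) (by omega) (hEb.1 h)
      exact (hA.dual b (i + 1) (by omega)).1 h2
        (hA.mono _ _ _ _ _ le_rfl (by omega) le_rfl hb.2)
  have hOUT3 : j ≤ u → ¬ A a u v ∧ ¬ A b u v := by
    intro h1
    constructor
    · intro h
      have h2 : A a j n := hA.mono _ _ _ _ _ h1 (by omega) le_rfl h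
      exact (hA.dual a j (by omega)).1 (hA.mono _ _ _ _ _ (by omega) le_rfl (by omega) ha.1) h2
    · intro h
      have h2 : A b (j + 1) n := hA.mono _ _ _ _ _ (by omega) (by omega) le_rfl (hEb.1 h)
      exact (hA.dual b (j + 1) (by omega)).1
        (hA.mono _ _ _ _ _ (by omega) le_rfl (by omega) hb.2) h2
  have hab := VH_ne ha hb
  have h4a : i < u → u < j → j < v → ¬ (A a u v ∧ ¬ A b u v) := by
    rintro h1 h2 h3 ⟨h4, h5⟩
    have e : i + 1 + (u - (i + 1)) = u := by omega
    obtain ⟨x, y, g1, g2, g3, g4, g5, g6⟩ := hA.cross hab.symm (u - (i + 1)) (i + 1) (j + 1) v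
      (by omega) (by omega) hb.2 ha.2 (by rw [e]; exact h4) (by rw [e]; exact h5)
    have := hA.uniq hn hN hij hj g3 g4 ha hb g5 g6 (Or.inr ⟨rfl, rfl⟩)
    omega
  have h4b : u < i → i < v → v < j → ¬ (¬ A a u v ∧ A b u v) := by
    rintro h1 h2 h3 ⟨h4, h5⟩
    have e : u + (i - u) = i := by omega
    obtain ⟨x, y, g1, g2, g3, g4, g5, g6⟩ := hA.cross hab.symm (i - u) u v j
      (by omega) (by omega) h5 h4 (by rw [e]; exact ha.1) (by rw [e]; exact hb.1)
    have := hA.uniq hn hN hij hj g3 g4 ha hb g5 g6 (Or.inr ⟨rfl, rfl⟩)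
    omega
  clear hEa hEb
  unfold xi gi di
  by_cases p : A a u v
  · by_cases q : A b u v
    · simp only [p, q, not_true_eq_false, and_self, imp_false] at hIN hOUT1 hOUT2 hOUT3 h4a h4b
      simp only [p, q, true_and, not_true_eq_false, false_and, or_false]
      split_ifs <;> first | omega | simp_all
    · simp only [p, q, not_true_eq_false, not_false_eq_true, and_false, false_and, and_true, imp_false]
        at hIN hOUT1 hOUT2 hOUT3 h4a h4b
      simp only [p, q, true_and, not_true_eq_false, false_and, or_false, false_or,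
        not_false_eq_true, iff_false]
      split_ifs <;> first | omega | simp_all
  · by_cases q : A b u v
    · simp only [p, q, not_true_eq_false, not_false_eq_true, and_false, false_and, and_true, imp_false]
        at hIN hOUT1 hOUT2 hOUT3 h4a h4b
      simp only [p, q, true_and, not_true_eq_false, false_and, or_false, false_or,
        not_false_eq_true, iff_true]
      split_ifs <;> first | omega | simp_all
    · simp only [p, q, not_false_eq_true, and_self, imp_false, and_false, false_and] at hIN hOUT1 hOUT2 hOUT3 h4a h4b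
      simp only [p, q, true_and, false_and, false_or, not_false_eq_true]
      split_ifs <;> first | omega | simp_all


/-- `a` is the pipe that goes straight at vertex `z` in the nonedge `zj` -/
def lab (A : ι → ℕ → ℕ → Prop) (a : ι) (z j : ℕ) : Prop :=
  (z < j ∧ Ve A a z j) ∨ (j < z ∧ Ho A a j z)

theorem Pipes.elbow1 (hA : Pipes k n T ι A) {c : ι} {x y : ℕ} (hxy : x < y) (hy : y < n)
    (h1 : A c x y) (h2 : A c (x + 1) (y + 1)) (h3 : ¬ A c (x + 1) y) : T x y := by
  by_contra hT
  obtain ⟨a, b, ha, hb⟩ := hA.labels hxy hy hT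
  have : a = c := by
    apply hA.uV hxy (by omega) ha.1 _ h1 h3
    intro h5
    exact ha.2 (hA.mono _ _ _ _ _ le_rfl (by omega) (by omega) h5)
  subst this
  exact ha.2 h2

theorem Pipes.elbow2 (hA : Pipes k n T ι A) {c : ι} {x y : ℕ} (hxy : x < y) (hy : y < n)
    (h1 : ¬ A c x y) (h2 : ¬ A c (x + 1) (y + 1)) (h3 : A c x (y + 1)) : T x y := by
  by_contra hT
  obtain ⟨a, b, ha, hb⟩ := hA.labels hxy hy hT
  have : b = c := by
    apply hA.uH (show x ≤ y by omega) (by omega) hb.1 _ h1 h3
    exact hA.mono _ _ _ _ _ (by omega) le_rfl (by omega) hb.2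
  subst this
  exact h2 hb.2

theorem Pipes.sep1 (hA : Pipes k n T ι A) {a c : ι} (hac : a ≠ c) {z j j' : ℕ}
    (hzj : z < j) (hjj : j < j') (hj' : j' < n) (hc : Ve A c z j) (ha : Ve A a z j') :
    ∃ v, j < v ∧ v < j' ∧ T z v := by
  classical
  have h1 : A c z j' := hA.mono _ _ _ _ _ le_rfl (by omega) (by omega) hc.1
  have ha3 : ¬ A a (z + 1) j' := fun h5 =>
    ha.2 (hA.mono _ _ _ _ _ le_rfl (by omega) (by omega) h5)
  have h2 : A c (z + 1) j' := by
    by_contra h
    exact hac (hA.uV (show z < j' by omega) (by omega) ha.1 ha3 h1 h)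
  have hex : ∃ y, A c (z + 1) y := ⟨j', h2⟩
  have hf1 : A c (z + 1) (Nat.find hex) := Nat.find_spec hex
  have hf2 : Nat.find hex ≤ j' := Nat.find_min' hex h2
  have hf3 : ∀ w, w < Nat.find hex → ¬ A c (z + 1) w := fun w hw => Nat.find_min hex hw
  generalize Nat.find hex = y' at hf1 hf2 hf3
  have hgt : j + 1 < y' := by
    by_contra h
    exact hc.2 (hA.mono _ _ _ _ _ le_rfl (by omega) (by omega) hf1)
  obtain ⟨v, rfl⟩ : ∃ v, y' = v + 1 := ⟨y' - 1, by omega⟩
  refine ⟨v, by omega, by omega, ?_⟩
  exact hA.elbow1 (by omega) (by omega) (hA.mono _ _ _ _ _ le_rfl (by omega) (by omega) hc.1) hf1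
    (hf3 v (by omega))

theorem Pipes.sep2 (hA : Pipes k n T ι A) {a c : ι} (hac : a ≠ c) {z j j' : ℕ}
    (hzj : j < j') (hjj : j' < z) (hz : z < n) (hc : Ho A c j z) (ha : Ho A a j' z) :
    ∃ v, j < v ∧ v < j' ∧ T v z := by
  classical
  have h1 : ¬ A c j' z := fun h => hc.1 (hA.mono _ _ _ _ _ (by omega) le_rfl (by omega) h)
  have ha3 : A a j' (z + 1) := hA.mono _ _ _ _ _ (by omega) le_rfl (by omega) ha.2
  have h2 : ¬ A c j' (z + 1) := by
    intro h
    exact hac (hA.uH (show j' ≤ z by omega) (by omega) ha.1 ha3 h1 h)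
  have hex : ∃ y, ¬ A c y (z + 1) := ⟨j', h2⟩
  have hf1 : ¬ A c (Nat.find hex) (z + 1) := Nat.find_spec hex
  have hf2 : Nat.find hex ≤ j' := Nat.find_min' hex h2
  have hf3 : ∀ w, w < Nat.find hex → ¬ ¬ A c w (z + 1) := fun w hw => Nat.find_min hex hw
  generalize Nat.find hex = y' at hf1 hf2 hf3
  have hgt : j + 1 < y' := by
    by_contra h
    exact hf1 (hA.mono _ _ _ _ _ (by omega) le_rfl (by omega) hc.2)
  obtain ⟨v, rfl⟩ : ∃ v, y' = v + 1 := ⟨y' - 1, by omega⟩
  refine ⟨v, by omega, by omega, ?_⟩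
  exact hA.elbow2 (by omega) (by omega)
    (fun h => hc.1 (hA.mono _ _ _ _ _ (by omega) le_rfl (by omega) h)) hf1
    (not_not.1 (hf3 v (by omega)))

theorem Pipes.sep3 (hA : Pipes k n T ι A) {a c : ι} (hac : a ≠ c) {z x1 x2 : ℕ}
    (h1z : x1 < z) (hz2 : z < x2) (h2n : x2 < n) (hc : Ho A c x1 z) (ha : Ve A a z x2) :
    (∃ v, x2 < v ∧ v < n ∧ T z v) ∨ (∃ v, v < x1 ∧ T v z) := by
  classical
  by_cases htop : A a (z + 1) n
  · left
    have hex : ∃ y, A a (z + 1) y := ⟨n, htop⟩
    have hf1 : A a (z + 1) (Nat.find hex) := Nat.find_spec hex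
    have hf2 : Nat.find hex ≤ n := Nat.find_min' hex htop
    have hf3 : ∀ w, w < Nat.find hex → ¬ A a (z + 1) w := fun w hw => Nat.find_min hex hw
    generalize Nat.find hex = y' at hf1 hf2 hf3
    have hgt : x2 + 1 < y' := by
      by_contra h
      exact ha.2 (hA.mono _ _ _ _ _ le_rfl (by omega) (by omega) hf1)
    obtain ⟨v, rfl⟩ : ∃ v, y' = v + 1 := ⟨y' - 1, by omega⟩
    refine ⟨v, by omega, by omega, ?_⟩
    exact hA.elbow1 (by omega) (by omega)
      (hA.mono _ _ _ _ _ le_rfl (by omega) (by omega) ha.1) hf1 (hf3 v (by omega))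
  · right
    have h1 : A a 0 (z + 1) := (hA.dual a (z + 1) (by omega)).2 htop
    have h2 : ¬ A a 0 z := by
      intro h
      exact (hA.dual a z (by omega)).1 h (hA.mono _ _ _ _ _ le_rfl (by omega) le_rfl ha.1)
    have h3 : A c 0 (z + 1) := hA.mono _ _ _ _ _ (by omega) le_rfl (by omega) hc.2
    have h4 : A c 0 z := by
      by_contra h
      exact hac (hA.uH (show 0 ≤ z by omega) (by omega) h2 h1 h h3)
    have hex : ∃ y, ¬ A c y z := ⟨x1, hc.1⟩
    have hf1 : ¬ A c (Nat.find hex) z := Nat.find_spec hex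
    have hf2 : Nat.find hex ≤ x1 := Nat.find_min' hex hc.1
    have hf3 : ∀ w, w < Nat.find hex → ¬ ¬ A c w z := fun w hw => Nat.find_min hex hw
    generalize Nat.find hex = y' at hf1 hf2 hf3
    have hgt : 0 < y' := by
      rcases Nat.eq_zero_or_pos y' with h | h
      · subst h; exact absurd h4 hf1
      · exact h
    obtain ⟨v, rfl⟩ : ∃ v, y' = v + 1 := ⟨y' - 1, by omega⟩
    refine ⟨v, by omega, ?_⟩
    exact hA.elbow1 (by omega) (by omega) (not_not.1 (hf3 v (by omega)))
      (hA.mono _ _ _ _ _ (by omega) le_rfl (by omega) hc.2) hf1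

theorem Pipes.sep (hA : Pipes k n T ι A) {a c : ι} (hac : a ≠ c) {z j j' : ℕ} (hz : z < n)
    (hj : j < n) (hj' : j' < n) (hc : lab A c z j) (ha : lab A a z j') :
    ∃ u v, u < v ∧ v < n ∧ T u v ∧ (u = z ∨ v = z) ∧
      ((u < j ∧ j < v ∧ (j' < u ∨ v < j')) ∨ (u < j' ∧ j' < v ∧ (j < u ∨ v < j))) := by
  rcases hc with ⟨h1, hc⟩ | ⟨h1, hc⟩ <;> rcases ha with ⟨h2, ha⟩ | ⟨h2, ha⟩
  · -- both above
    rcases Nat.lt_trichotomy j j' with h | h | h
    · obtain ⟨v, g1, g2, g3⟩ := hA.sep1 hac h1 h hj' hc ha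
      exact ⟨z, v, by omega, by omega, g3, Or.inl rfl, Or.inl ⟨by omega, by omega, by omega⟩⟩
    · subst h
      exfalso
      apply hac
      apply hA.uV h1 (by omega) ha.1 _ hc.1
      · intro h5
        exact hc.2 (hA.mono _ _ _ _ _ le_rfl (by omega) (by omega) h5)
      · intro h5
        exact ha.2 (hA.mono _ _ _ _ _ le_rfl (by omega) (by omega) h5)
    · obtain ⟨v, g1, g2, g3⟩ := hA.sep1 hac.symm h2 h hj ha hc
      exact ⟨z, v, by omega, by omega, g3, Or.inl rfl, Or.inr ⟨by omega, by omega, by omega⟩⟩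
  · -- j above, j' below
    rcases hA.sep3 hac.symm h2 h1 hj ha hc with ⟨v, g1, g2, g3⟩ | ⟨v, g1, g2⟩
    · exact ⟨z, v, by omega, by omega, g3, Or.inl rfl, Or.inl ⟨by omega, by omega, by omega⟩⟩
    · exact ⟨v, z, by omega, by omega, g2, Or.inr rfl, Or.inr ⟨by omega, by omega, by omega⟩⟩
  · -- j below, j' above
    rcases hA.sep3 hac h1 h2 hj' hc ha with ⟨v, g1, g2, g3⟩ | ⟨v, g1, g2⟩
    · exact ⟨z, v, by omega, by omega, g3, Or.inl rfl, Or.inr ⟨by omega, by omega, by omega⟩⟩
    · exact ⟨v, z, by omega, by omega, g2, Or.inr rfl, Or.inl ⟨by omega, by omega, by omega⟩⟩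
  · rcases Nat.lt_trichotomy j j' with h | h | h
    · obtain ⟨v, g1, g2, g3⟩ := hA.sep2 hac h h2 hz hc ha
      exact ⟨v, z, by omega, by omega, g3, Or.inr rfl, Or.inr ⟨by omega, by omega, by omega⟩⟩
    · subst h
      exfalso
      apply hac
      apply hA.uH (show j ≤ z by omega) (by omega) ha.1 _ hc.1
      · exact hA.mono _ _ _ _ _ (by omega) le_rfl (by omega) hc.2
      · exact hA.mono _ _ _ _ _ (by omega) le_rfl (by omega) ha.2
    · obtain ⟨v, g1, g2, g3⟩ := hA.sep2 hac.symm h h1 hz ha hc
      exact ⟨v, z, by omega, by omega, g3, Or.inr rfl, Or.inl ⟨by omega, by omega, by omega⟩⟩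

theorem Pipes.side (hA : Pipes k n T ι A) {a : ι} {z p : ℕ} (hz : z < n) (hp : p < n)
    (ha : lab A a z p) {u v : ℕ} (huv : u < v) (hv : v < n) (hT : T u v) (hzz : u = z ∨ v = z) :
    (A a u v ↔ (u < p ∧ p < v)) := by
  have hE := (hA.box u v huv hv).1 hT a
  rcases ha with ⟨h1, ha⟩ | ⟨h1, ha⟩
  · rcases hzz with rfl | rfl
    · constructor
      · intro h
        refine ⟨h1, ?_⟩
        by_contra hc
        rcases Nat.lt_or_ge v p with h2 | h2
        · exact ha.2 (hA.mono _ _ _ _ _ le_rfl (by omega) (by omega) (hE.1 h))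
        · have : v = p := by omega
          subst this
          exact hA.not_of_V huv hv ha hT
      · intro h
        exact hA.mono _ _ _ _ _ le_rfl (by omega) (by omega) ha.1
    · constructor
      · intro h
        exfalso
        have h2 : A a 0 v := hA.mono _ _ _ _ _ (by omega) le_rfl (by omega) h
        exact (hA.dual a v (by omega)).1 h2 (hA.mono _ _ _ _ _ le_rfl (by omega) le_rfl ha.1)
      · intro h; omega
  · rcases hzz with rfl | rfl
    · constructor
      · intro h
        exfalso
        have h2 : A a (u + 1) n := hA.mono _ _ _ _ _ le_rfl (by omega) le_rfl (hE.1 h)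
        exact (hA.dual a (u + 1) (by omega)).1
          (hA.mono _ _ _ _ _ (by omega) le_rfl (by omega) ha.2) h2
      · intro h; omega
    · constructor
      · intro h
        refine ⟨?_, h1⟩
        by_contra hc
        rcases Nat.lt_or_ge p u with h2 | h2
        · exact ha.1 (hA.mono _ _ _ _ _ (by omega) le_rfl (by omega) h)
        · have : u = p := by omega
          subst this
          exact hA.not_of_H huv hv ha hT
      · intro h
        exact hE.2 (hA.mono _ _ _ _ _ (by omega) le_rfl (by omega) ha.2)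

theorem Pipes.strict (hA : Pipes k n T ι A) {a b : ι} {i j : ℕ} (hij : i < j) (hj : j < n)
    (ha : Ve A a i j) (hb : Ho A b i j) {a' b' : ι} {p q : ℕ} (hp : p < n) (hq : q < n)
    (ha' : lab A a' i p) (hb' : lab A b' j q)
    (heq : ∀ e ∈ Eset T n, xi i j e = gi A a' i e + gi A b' j e + di A a' b' e) :
    a' = a ∧ b' = b := by
  have hla : lab A a i j := Or.inl ⟨hij, ha⟩
  have hlb : lab A b j i := Or.inr ⟨hij, hb⟩
  constructor
  · by_contra hne
    obtain ⟨u, v, huv, hv, hT, hz, hsep⟩ := hA.sep hne (by omega) hj hp hla ha'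
    have h1 := heq (u, v) (mem_Eset.2 ⟨huv, hv, hT⟩)
    have h2 := hA.side (by omega) hp ha' huv hv hT hz
    have h3 : xi i j (u, v) = 0 := by
      unfold xi
      rw [if_neg]
      simp only
      omega
    have h4 : di A a' b' (u, v) = 0 := by omega
    have h5 : gi A b' j (u, v) = 0 := by omega
    unfold di at h4
    unfold gi at h5
    simp only at h4 h5
    have h6 : (A a' u v ↔ A b' u v) := by
      by_contra h; rw [if_neg h] at h4; omega
    have h7 : ¬ ((A b' u v ∧ (j < u ∨ v < j)) ∨ (¬ A b' u v ∧ u < j ∧ j < v)) := by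
      intro h; rw [if_pos h] at h5; omega
    rw [← h6] at h7
    by_cases hp : A a' u v
    · simp only [hp, true_iff, true_and, not_true_eq_false, false_and, or_false] at h2 h7
      omega
    · simp only [hp, false_iff, false_and, not_false_eq_true, true_and, false_or] at h2 h7
      omega
  · by_contra hne
    obtain ⟨u, v, huv, hv, hT, hz, hsep⟩ := hA.sep hne (by omega) (by omega) hq hlb hb'
    have h1 := heq (u, v) (mem_Eset.2 ⟨huv, hv, hT⟩)
    have h2 := hA.side (by omega) hq hb' huv hv hT hz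
    have h3 : xi i j (u, v) = 0 := by
      unfold xi
      rw [if_neg]
      simp only
      omega
    have h4 : di A a' b' (u, v) = 0 := by omega
    have h5 : gi A a' i (u, v) = 0 := by omega
    unfold di at h4
    unfold gi at h5
    simp only at h4 h5
    have h6 : (A a' u v ↔ A b' u v) := by
      by_contra h; rw [if_neg h] at h4; omega
    have h7 : ¬ ((A a' u v ∧ (i < u ∨ v < i)) ∨ (¬ A a' u v ∧ u < i ∧ i < v)) := by
      intro h; rw [if_pos h] at h5; omega
    rw [h6] at h7
    by_cases hp : A b' u v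
    · simp only [hp, true_iff, true_and, not_true_eq_false, false_and, or_false] at h2 h7
      omega
    · simp only [hp, false_iff, false_and, not_false_eq_true, true_and, false_or] at h2 h7
      omega


noncomputable def Xs (T : ℕ → ℕ → Prop) (n : ℕ) (i j : ℕ) : ℕ := ∑ e ∈ Eset T n, xi i j e

noncomputable def gs (T : ℕ → ℕ → Prop) (n : ℕ) (A : ι → ℕ → ℕ → Prop) (a : ι) (i : ℕ) : ℕ :=
  ∑ e ∈ Eset T n, gi A a i e

noncomputable def Ds (T : ℕ → ℕ → Prop) (n : ℕ) (A : ι → ℕ → ℕ → Prop) (a b : ι) : ℕ :=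
  ∑ e ∈ Eset T n, di A a b e

omit [Fintype ι] in
theorem Xs_le (a b : ι) (i j : ℕ) : Xs T n i j ≤ gs T n A a i + gs T n A b j + Ds T n A a b := by
  unfold Xs gs Ds
  rw [← Finset.sum_add_distrib, ← Finset.sum_add_distrib]
  exact Finset.sum_le_sum (fun e _ => xi_le a b i j e)

omit [Fintype ι] in
theorem Ds_comm (a b : ι) : Ds T n A a b = Ds T n A b a := by
  unfold Ds di
  apply Finset.sum_congr rfl
  intro e _
  by_cases h : (A a e.1 e.2 ↔ A b e.1 e.2)
  · rw [if_pos h, if_pos h.symm]
  · rw [if_neg h, if_neg (fun h' => h h'.symm)]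

omit [Fintype ι] in
theorem Ds_self (a : ι) : Ds T n A a a = 0 := by
  unfold Ds di
  apply Finset.sum_eq_zero
  intro e _
  rw [if_pos Iff.rfl]

theorem Pipes.Xs_eq (hA : Pipes k n T ι A) (hn : 2 * k + 1 ≤ n)
    (hN : numN T n = (n - 2 * k).choose 2) {a b : ι} {i j : ℕ} (hij : i < j) (hj : j < n)
    (ha : Ve A a i j) (hb : Ho A b i j) :
    Xs T n i j = gs T n A a i + gs T n A b j + Ds T n A a b := by
  unfold Xs gs Ds
  rw [← Finset.sum_add_distrib, ← Finset.sum_add_distrib]
  apply Finset.sum_congr rfl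
  rintro ⟨u, v⟩ he
  rw [mem_Eset] at he
  exact hA.eq_at hn hN hij hj ha hb he.1 he.2.1 he.2.2

theorem Pipes.Xs_strict (hA : Pipes k n T ι A) {a b : ι} {i j : ℕ} (hij : i < j) (hj : j < n)
    (ha : Ve A a i j) (hb : Ho A b i j) {a' b' : ι}
    (ha' : ∃ p, p < n ∧ lab A a' i p) (hb' : ∃ q, q < n ∧ lab A b' j q)
    (heq : gs T n A a' i + gs T n A b' j + Ds T n A a' b' ≤ Xs T n i j) :
    a' = a ∧ b' = b := by
  obtain ⟨p, hp, ha'⟩ := ha'
  obtain ⟨q, hq, hb'⟩ := hb'
  apply hA.strict hij hj ha hb hp hq ha' hb'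
  rw [← Finset.sum_eq_sum_iff_of_le (fun e _ => xi_le a' b' i j e)]
  rw [Finset.sum_add_distrib, Finset.sum_add_distrib]
  exact le_antisymm (Xs_le a' b' i j) heq

open Classical in
/-- the vectors attached to the pipes -/
noncomputable def cc (T : ℕ → ℕ → Prop) (n : ℕ) (A : ι → ℕ → ℕ → Prop) (s : ℝ) (a : ι) (i : ℕ) : ℝ :=
  if (∃ p, p < n ∧ lab A a i p) then s ^ (gs T n A a i) else 0

open Classical in
/-- scaled entries -/
noncomputable def tm (T : ℕ → ℕ → Prop) (n : ℕ) (A : ι → ℕ → ℕ → Prop) (s : ℝ) (D : ℕ)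
    (i j : ℕ) (a b : ι) : ℝ :=
  if (∃ p, p < n ∧ lab A a i p) ∧ (∃ q, q < n ∧ lab A b j q) then
    s ^ (gs T n A a i + gs T n A b j + D - Xs T n i j) else 0

omit [Fintype ι] in
theorem tm_eq (s : ℝ) (D : ℕ) (i j : ℕ) (a b : ι)
    (h : Xs T n i j ≤ gs T n A a i + gs T n A b j + D) :
    cc T n A s a i * cc T n A s b j * s ^ D = tm T n A s D i j a b * s ^ (Xs T n i j) := by
  classical
  unfold cc tm
  by_cases h1 : (∃ p, p < n ∧ lab A a i p)
  · by_cases h2 : (∃ q, q < n ∧ lab A b j q)
    · rw [if_pos h1, if_pos h2, if_pos ⟨h1, h2⟩, ← pow_add, ← pow_add, ← pow_add,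
        Nat.sub_add_cancel h]
    · have h3 : ¬ ((∃ p, p < n ∧ lab A a i p) ∧ (∃ q, q < n ∧ lab A b j q)) := fun h' => h2 h'.2
      rw [if_neg h3, if_neg h2]
      ring
  · have h3 : ¬ ((∃ p, p < n ∧ lab A a i p) ∧ (∃ q, q < n ∧ lab A b j q)) := fun h' => h1 h'.1
    rw [if_neg h3, if_neg h1]
    ring

omit [Fintype ι] in
theorem tm_cont (D : ℕ) (i j : ℕ) (a b : ι) : Continuous (fun s => tm T n A s D i j a b) := by
  classical
  unfold tm
  split_ifs
  · exact continuous_pow _
  · exact continuous_const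

omit [Fintype ι] in
theorem tm_zero_of_pos {D : ℕ} {i j : ℕ} {a b : ι}
    (h : (∃ p, p < n ∧ lab A a i p) → (∃ q, q < n ∧ lab A b j q) →
      Xs T n i j < gs T n A a i + gs T n A b j + D) : tm T n A 0 D i j a b = 0 := by
  classical
  unfold tm
  split_ifs with h1
  · have := h h1.1 h1.2
    rw [zero_pow]
    omega
  · rfl

theorem Pipes.tm_zero_same (hA : Pipes k n T ι A) {a b : ι} {i j : ℕ} (hij : i < j) (hj : j < n)
    (ha : Ve A a i j) (hb : Ho A b i j) (c : ι) (D : ℕ) : tm T n A 0 D i j c c = 0 := by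
  apply tm_zero_of_pos
  intro h1 h2
  by_contra h3
  have h4 := hA.Xs_strict hij hj ha hb h1 h2 (by rw [Ds_self]; omega)
  exact VH_ne ha hb (h4.1.symm.trans h4.2)

theorem Pipes.tm_zero_ne (hA : Pipes k n T ι A) {a b : ι} {i j : ℕ} (hij : i < j) (hj : j < n)
    (ha : Ve A a i j) (hb : Ho A b i j) (c d : ι) (h : ¬ (c = a ∧ d = b)) :
    tm T n A 0 (Ds T n A c d) i j c d = 0 := by
  apply tm_zero_of_pos
  intro h1 h2
  by_contra h3
  exact h (hA.Xs_strict hij hj ha hb h1 h2 (by omega))

theorem Pipes.tm_one (hA : Pipes k n T ι A) (hn : 2 * k + 1 ≤ n)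
    (hN : numN T n = (n - 2 * k).choose 2) {a b : ι} {i j : ℕ} (hij : i < j) (hj : j < n)
    (ha : Ve A a i j) (hb : Ho A b i j) : tm T n A 0 (Ds T n A a b) i j a b = 1 := by
  classical
  unfold tm
  rw [if_pos, ← hA.Xs_eq hn hN hij hj ha hb, Nat.sub_self, pow_zero]
  exact ⟨⟨j, hj, Or.inl ⟨hij, ha⟩⟩, ⟨i, by omega, Or.inr ⟨hij, hb⟩⟩⟩

end cert

open Classical in
theorem Pipes.equiv {k n : ℕ} {T : ℕ → ℕ → Prop} {ι κ : Type} [Fintype ι] [Fintype κ]
    {A : ι → ℕ → ℕ → Prop} (hA : Pipes k n T ι A) (f : κ ≃ ι) :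
    Pipes k n T κ (fun a => A (f a)) := by
  refine ⟨fun a => hA.low (f a), fun a => hA.mono (f a), fun a => hA.dual (f a), ?_, ?_⟩
  · intro x y hxy hy
    rw [← hA.count x y hxy hy]
    apply Finset.card_bij (fun a _ => f a)
    · intro a ha
      simpa using ha
    · intro a _ b _ h
      exact f.injective h
    · intro b hb
      exact ⟨f.symm b, by simpa using hb, by simp⟩
  · intro x y hxy hy
    rw [hA.box x y hxy hy]
    constructor
    · intro h a; exact h (f a)
    · intro h a
      have := h (f.symm a)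
      simpa using this

theorem exists_vectors {k n r : ℕ} {T : ℕ → ℕ → Prop} {A : Fin r → ℕ → ℕ → Prop}
    (hn : 2 * k + 1 ≤ n) (hA : Pipes k n T (Fin r) A)
    (hN : numN T n = (n - 2 * k).choose 2) :
    ∃ w : Fin r → ℕ → ℝ, ∀ c : Fin r → Fin r → ℝ,
      (∀ i j : ℕ, i < j → j < n → ¬ T i j →
        ∑ a, ∑ b, (if a < b then c a b * ((w a i - w b i) * (w a j - w b j)) else 0) = 0) →
      ∀ a b, a < b → c a b = 0 := by
  classical
  -- choose crossing boxes
  have hbox : ∀ q : {q : Fin r × Fin r // q.1 < q.2}, ∃ x y a b, x < y ∧ y < n ∧ Ve A a x y ∧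
      Ho A b x y ∧ ((a = q.1.1 ∧ b = q.1.2) ∨ (a = q.1.2 ∧ b = q.1.1)) := by
    intro q
    obtain ⟨x, y, h1, h2, h3 | h3⟩ := hA.exists_cross (ne_of_lt q.2)
    · exact ⟨x, y, q.1.1, q.1.2, h1, h2, h3.1, h3.2, Or.inl ⟨rfl, rfl⟩⟩
    · exact ⟨x, y, q.1.2, q.1.1, h1, h2, h3.1, h3.2, Or.inr ⟨rfl, rfl⟩⟩
  choose sx sy sa sb hxy hyn hVe hHo hor using hbox
  let B : ℝ → Matrix {q : Fin r × Fin r // q.1 < q.2} {q : Fin r × Fin r // q.1 < q.2} ℝ :=
    fun s => Matrix.of fun q q' =>
      tm T n A s (Ds T n A q'.1.1 q'.1.2) (sx q) (sy q) q'.1.1 q'.1.1 +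
      tm T n A s (Ds T n A q'.1.1 q'.1.2) (sx q) (sy q) q'.1.2 q'.1.2 -
      tm T n A s (Ds T n A q'.1.1 q'.1.2) (sx q) (sy q) q'.1.1 q'.1.2 -
      tm T n A s (Ds T n A q'.1.1 q'.1.2) (sx q) (sy q) q'.1.2 q'.1.1
  have hB0 : B 0 = -1 := by
    ext q q'
    simp only [B, Matrix.of_apply, Matrix.neg_apply]
    rw [hA.tm_zero_same (hxy q) (hyn q) (hVe q) (hHo q),
      hA.tm_zero_same (hxy q) (hyn q) (hVe q) (hHo q)]
    by_cases hq : q = q'
    · subst hq
      rw [Matrix.one_apply_eq]
      rcases hor q with ⟨e1, e2⟩ | ⟨e1, e2⟩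
      · have h1 := hA.tm_one hn hN (hxy q) (hyn q) (hVe q) (hHo q)
        rw [e1, e2] at h1
        have h2 := hA.tm_zero_ne (hxy q) (hyn q) (hVe q) (hHo q) q.1.2 q.1.1 (by
          rintro ⟨h3, h4⟩
          rw [e1] at h3
          exact absurd h3 (ne_of_gt q.2))
        rw [Ds_comm] at h2
        rw [h1, h2]; ring
      · have h1 := hA.tm_one hn hN (hxy q) (hyn q) (hVe q) (hHo q)
        rw [e1, e2, Ds_comm] at h1
        have h2 := hA.tm_zero_ne (hxy q) (hyn q) (hVe q) (hHo q) q.1.1 q.1.2 (by
          rintro ⟨h3, h4⟩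
          rw [e1] at h3
          exact absurd h3 (ne_of_lt q.2))
        rw [h1, h2]; ring
    · rw [Matrix.one_apply_ne hq]
      have hne1 : ¬ (q'.1.1 = sa q ∧ q'.1.2 = sb q) := by
        rintro ⟨h1, h2⟩
        rcases hor q with ⟨e1, e2⟩ | ⟨e1, e2⟩
        · apply hq
          apply Subtype.ext
          apply Prod.ext
          · rw [h1, e1]
          · rw [h2, e2]
        · have h3 := q'.2
          have h4 := q.2
          rw [h1, h2, e1, e2] at h3
          exact absurd h3 (not_lt.2 h4.le)
      have hne2 : ¬ (q'.1.2 = sa q ∧ q'.1.1 = sb q) := by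
        rintro ⟨h1, h2⟩
        rcases hor q with ⟨e1, e2⟩ | ⟨e1, e2⟩
        · have h3 := q'.2
          have h4 := q.2
          rw [h1, h2, e1, e2] at h3
          exact absurd h3 (not_lt.2 h4.le)
        · apply hq
          apply Subtype.ext
          apply Prod.ext
          · rw [h2, e2]
          · rw [h1, e1]
      have h1 := hA.tm_zero_ne (hxy q) (hyn q) (hVe q) (hHo q) _ _ hne1
      have h2 := hA.tm_zero_ne (hxy q) (hyn q) (hVe q) (hHo q) _ _ hne2
      rw [Ds_comm] at h2
      rw [h1, h2]; ring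
  have hcont : Continuous (fun s => (B s).det) := by
    apply Continuous.matrix_det
    apply continuous_matrix
    intro q q'
    simp only [B, Matrix.of_apply]
    exact (((tm_cont _ _ _ _ _).add (tm_cont _ _ _ _ _)).sub (tm_cont _ _ _ _ _)).sub
      (tm_cont _ _ _ _ _)
  have hdet0 : (B 0).det ≠ 0 := by
    rw [hB0]
    intro h
    have h2 : IsUnit (-1 : Matrix {q : Fin r × Fin r // q.1 < q.2} {q : Fin r × Fin r // q.1 < q.2} ℝ) :=
      isUnit_one.neg
    rw [Matrix.isUnit_iff_isUnit_det] at h2
    rw [h] at h2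
    exact not_isUnit_zero h2
  obtain ⟨s, hs, hsdet⟩ : ∃ s : ℝ, 0 < s ∧ (B s).det ≠ 0 := by
    have hopen : IsOpen {s : ℝ | (B s).det ≠ 0} := isOpen_ne.preimage hcont
    obtain ⟨ε, hε, hball⟩ := Metric.isOpen_iff.1 hopen 0 hdet0
    refine ⟨ε / 2, by positivity, ?_⟩
    apply hball
    rw [Metric.mem_ball, dist_zero_right, Real.norm_eq_abs, abs_of_pos (by positivity)]
    linarith
  refine ⟨cc T n A s, ?_⟩
  intro c hc
  have hpairs : ∀ F : Fin r → Fin r → ℝ, (∑ a, ∑ b, (if a < b then F a b else 0)) =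
      ∑ q : {q : Fin r × Fin r // q.1 < q.2}, F q.1.1 q.1.2 := by
    intro F
    rw [← Finset.sum_product', Finset.univ_product_univ]
    rw [← Finset.sum_filter]
    rw [Finset.sum_subtype (p := fun q : Fin r × Fin r => q.1 < q.2)]
    intro x
    simp
  have hzero : (B s).mulVec (fun q => c q.1.1 q.1.2 / s ^ (Ds T n A q.1.1 q.1.2)) = 0 := by
    ext q
    have h1 := hc (sx q) (sy q) (hxy q) (hyn q) (hA.not_of_V (hxy q) (hyn q) (hVe q))
    rw [hpairs] at h1
    rw [Matrix.mulVec, dotProduct, Pi.zero_apply]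
    have h2 : (∑ q', B s q q' * (c q'.1.1 q'.1.2 / s ^ (Ds T n A q'.1.1 q'.1.2))) *
        s ^ (Xs T n (sx q) (sy q)) = 0 := by
      rw [← h1, Finset.sum_mul]
      apply Finset.sum_congr rfl
      intro q' _
      have hsD : s ^ (Ds T n A q'.1.1 q'.1.2) ≠ 0 := pow_ne_zero _ hs.ne'
      have k11 := tm_eq (T := T) (n := n) (A := A) s (Ds T n A q'.1.1 q'.1.2) (sx q) (sy q) q'.1.1 q'.1.1
        (by have := Xs_le (T := T) (n := n) (A := A) q'.1.1 q'.1.1 (sx q) (sy q); rw [Ds_self] at this; omega)
      have k22 := tm_eq (T := T) (n := n) (A := A) s (Ds T n A q'.1.1 q'.1.2) (sx q) (sy q) q'.1.2 q'.1.2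
        (by have := Xs_le (T := T) (n := n) (A := A) q'.1.2 q'.1.2 (sx q) (sy q); rw [Ds_self] at this; omega)
      have k12 := tm_eq (T := T) (n := n) (A := A) s (Ds T n A q'.1.1 q'.1.2) (sx q) (sy q) q'.1.1 q'.1.2
        (Xs_le _ _ _ _)
      have k21 := tm_eq (T := T) (n := n) (A := A) s (Ds T n A q'.1.1 q'.1.2) (sx q) (sy q) q'.1.2 q'.1.1
        (by rw [Ds_comm]; exact Xs_le _ _ _ _)
      simp only [B, Matrix.of_apply]
      have : (tm T n A s (Ds T n A q'.1.1 q'.1.2) (sx q) (sy q) q'.1.1 q'.1.1 +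
          tm T n A s (Ds T n A q'.1.1 q'.1.2) (sx q) (sy q) q'.1.2 q'.1.2 -
          tm T n A s (Ds T n A q'.1.1 q'.1.2) (sx q) (sy q) q'.1.1 q'.1.2 -
          tm T n A s (Ds T n A q'.1.1 q'.1.2) (sx q) (sy q) q'.1.2 q'.1.1) *
          s ^ (Xs T n (sx q) (sy q)) =
          ((cc T n A s q'.1.1 (sx q) - cc T n A s q'.1.2 (sx q)) *
          (cc T n A s q'.1.1 (sy q) - cc T n A s q'.1.2 (sy q))) * s ^ (Ds T n A q'.1.1 q'.1.2) := by
        linear_combination (-1) * k11 - k22 + k12 + k21
      calc _ = (tm T n A s (Ds T n A q'.1.1 q'.1.2) (sx q) (sy q) q'.1.1 q'.1.1 +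
          tm T n A s (Ds T n A q'.1.1 q'.1.2) (sx q) (sy q) q'.1.2 q'.1.2 -
          tm T n A s (Ds T n A q'.1.1 q'.1.2) (sx q) (sy q) q'.1.1 q'.1.2 -
          tm T n A s (Ds T n A q'.1.1 q'.1.2) (sx q) (sy q) q'.1.2 q'.1.1) *
          s ^ (Xs T n (sx q) (sy q)) * (c q'.1.1 q'.1.2 / s ^ (Ds T n A q'.1.1 q'.1.2)) := by ring
        _ = _ := by
          rw [this]
          field_simp
    have h3 : s ^ (Xs T n (sx q) (sy q)) ≠ 0 := pow_ne_zero _ hs.ne'
    exact (mul_eq_zero.1 h2).resolve_right h3
  have hv := Matrix.eq_zero_of_mulVec_eq_zero hsdet hzero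
  intro a b hab
  have h1 := congrFun hv ⟨(a, b), hab⟩
  simp only [Pi.zero_apply] at h1
  have hsD : s ^ (Ds T n A a b) ≠ 0 := pow_ne_zero _ hs.ne'
  rcases div_eq_zero_iff.1 h1 with h2 | h2
  · exact h2
  · exact absurd h2 hsD


namespace D

/-- half of a symmetric sum -/
lemma half_sum {r : ℕ} (F : Fin r → Fin r → ℝ) (hs : ∀ a b, F a b = F b a)
    (hd : ∀ a, F a a = 0) :
    2 * ∑ a, ∑ b, (if a < b then F a b else 0) = ∑ a, ∑ b, F a b := by
  have h1 : ∑ a, ∑ b, (if a < b then F a b else 0) = ∑ a, ∑ b, (if b < a then F a b else 0) := by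
    rw [Finset.sum_comm]
    refine Finset.sum_congr rfl fun a _ => Finset.sum_congr rfl fun b _ => ?_
    rw [hs b a]
  have h2 : ∑ a, ∑ b, F a b = ∑ a, ∑ b, (if a < b then F a b else 0)
      + ∑ a, ∑ b, (if b < a then F a b else 0) := by
    rw [← Finset.sum_add_distrib]
    refine Finset.sum_congr rfl fun a _ => ?_
    rw [← Finset.sum_add_distrib]
    refine Finset.sum_congr rfl fun b _ => ?_
    rcases lt_trichotomy a b with h | h | h
    · simp [h, not_lt.2 h.le]
    · subst h; simp [hd]
    · simp [h, not_lt.2 h.le]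
  rw [h2, ← h1]; ring

lemma keyQ {n r : ℕ} (G : SimpleGraph (Fin n))
    (w : Fin r → Fin n → ℝ)
    (hw : ∀ c : Fin r → Fin r → ℝ,
      (∀ i j : Fin n, i < j → ¬ G.Adj i j →
        ∑ a, ∑ b, (if a < b then c a b * ((w a i - w b i) * (w a j - w b j)) else 0) = 0) →
      ∀ a b, a < b → c a b = 0)
    (K : Fin r → Fin r → ℝ) (hs : ∀ a b, K a b = K b a) (h0 : ∀ a, ∑ b, K a b = 0)
    (hK : ∀ i j : Fin n, i < j → ¬ G.Adj i j → ∑ a, ∑ b, K a b * (w a i * w b j) = 0) :
    ∀ a b, K a b = 0 := by
  have h1 := hw K (by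
    intro i j hij hadj
    have e1 := half_sum (fun a b => K a b * ((w a i - w b i) * (w a j - w b j)))
      (fun a b => by simp only [hs a b]; ring) (fun a => by simp)
    have e2 : ∑ a, ∑ b, K a b * ((w a i - w b i) * (w a j - w b j)) = 0 := by
      have f1 : ∑ a, ∑ b, K a b * (w a i * w a j) = 0 := by
        refine Finset.sum_eq_zero fun a _ => ?_
        rw [← Finset.sum_mul, h0, zero_mul]
      have f2 : ∑ a, ∑ b, K a b * (w b i * w b j) = 0 := by
        rw [Finset.sum_comm]
        refine Finset.sum_eq_zero fun b _ => ?_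
        rw [← Finset.sum_mul]
        rw [Finset.sum_congr rfl (fun a _ => hs a b), h0, zero_mul]
      have f3 := hK i j hij hadj
      have f4 : ∑ a, ∑ b, K a b * (w b i * w a j) = 0 := by
        rw [Finset.sum_comm, ← f3]
        refine Finset.sum_congr rfl fun a _ => Finset.sum_congr rfl fun b _ => ?_
        rw [hs b a]
      have : ∑ a, ∑ b, K a b * ((w a i - w b i) * (w a j - w b j))
          = ∑ a, ∑ b, K a b * (w a i * w a j) + ∑ a, ∑ b, K a b * (w b i * w b j)
            - ∑ a, ∑ b, K a b * (w a i * w b j) - ∑ a, ∑ b, K a b * (w b i * w a j) := by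
        simp only [← Finset.sum_add_distrib, ← Finset.sum_sub_distrib]
        refine Finset.sum_congr rfl fun a _ => Finset.sum_congr rfl fun b _ => ?_
        ring
      rw [this, f1, f2, f3, f4]; ring
    rw [e2] at e1
    linarith)
  have h2 : ∀ a b, a ≠ b → K a b = 0 := by
    intro a b hab
    rcases lt_or_gt_of_ne hab with h | h
    · exact h1 a b h
    · rw [hs]; exact h1 b a h
  intro a b
  by_cases hab : a = b
  · subst hab
    have := h0 a
    rw [Finset.sum_eq_single a (fun b _ hb => h2 a b (Ne.symm hb)) (by simp)] at this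
    exact this
  · exact h2 a b hab

/-- the subspace of vectors with zero sum -/
noncomputable def Z (r : ℕ) : Submodule ℝ (Fin r → ℝ) :=
  LinearMap.ker (Fintype.linearCombination ℝ (fun _ : Fin r => (1 : ℝ)))

lemma mem_Z {r : ℕ} (μ : Fin r → ℝ) : μ ∈ Z r ↔ ∑ a, μ a = 0 := by
  simp [Z, Fintype.linearCombination_apply]

lemma finrank_Z (r : ℕ) : r ≤ Module.finrank ℝ (Z r) + 1 := by
  have h := LinearMap.finrank_range_add_finrank_ker
    (Fintype.linearCombination ℝ (fun _ : Fin r => (1 : ℝ)))
  have h1 : Module.finrank ℝ (LinearMap.range (Fintype.linearCombination ℝ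
      (fun _ : Fin r => (1 : ℝ)))) ≤ 1 := by
    have := Submodule.finrank_le (LinearMap.range (Fintype.linearCombination ℝ
      (fun _ : Fin r => (1 : ℝ))))
    simpa using this
  have h2 : Module.finrank ℝ (Fin r → ℝ) = r := by simp
  have h3 : Module.finrank ℝ (Z r) = Module.finrank ℝ (LinearMap.ker (Fintype.linearCombination ℝ
      (fun _ : Fin r => (1 : ℝ)))) := rfl
  omega

/-- the linear map `μ ↦ ∑ μ_a w_a` on zero sum vectors -/
noncomputable def T {n r : ℕ} (w : Fin r → Fin n → ℝ) : Z r →ₗ[ℝ] EuclideanSpace ℝ (Fin n) :=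
  (Fintype.linearCombination ℝ (fun a => (WithLp.toLp 2 (w a) : EuclideanSpace ℝ (Fin n)))) ∘ₗ
    (Z r).subtype

lemma T_apply {n r : ℕ} (w : Fin r → Fin n → ℝ) (μ : Z r) (i : Fin n) :
    T w μ i = ∑ a, (μ : Fin r → ℝ) a * w a i := by
  simp [T, Fintype.linearCombination_apply]

lemma inner_eq {n : ℕ} (x y : EuclideanSpace ℝ (Fin n)) : inner ℝ x y = ∑ i, x i * y i := by
  rw [PiLp.inner_apply]
  refine Finset.sum_congr rfl fun i _ => ?_
  simp [mul_comm]

theorem exists_noStress {n d r : ℕ} (hr : 1 ≤ r) (hn : d + r = n) (G : SimpleGraph (Fin n))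
    (w : Fin r → Fin n → ℝ)
    (hw : ∀ c : Fin r → Fin r → ℝ,
      (∀ i j : Fin n, i < j → ¬ G.Adj i j →
        ∑ a, ∑ b, (if a < b then c a b * ((w a i - w b i) * (w a j - w b j)) else 0) = 0) →
      ∀ a b, a < b → c a b = 0) :
    ∃ p : Placement n d, NoStress G p := by
  have hQ := keyQ G w hw
  -- rank one consequence
  have hQ1 : ∀ μ : Z r, (∀ i j : Fin n, i < j → T w μ i * T w μ j = 0) → μ = 0 := by
    intro μ h
    have := hQ (fun a b => (μ : Fin r → ℝ) a * (μ : Fin r → ℝ) b) (fun a b => mul_comm _ _)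
      (fun a => by rw [← Finset.mul_sum, (mem_Z _).1 μ.2, mul_zero])
      (fun i j hij _ => by
        rw [← h i j hij, T_apply, T_apply, Finset.sum_mul_sum]
        refine Finset.sum_congr rfl fun a _ => Finset.sum_congr rfl fun b _ => ?_
        ring)
    ext a
    have h2 := this a a
    simpa using h2
  have hinj : Function.Injective (T w) := by
    rw [← LinearMap.ker_eq_bot, LinearMap.ker_eq_bot']
    intro μ hμ
    exact hQ1 μ (fun i j _ => by rw [hμ]; simp)
  set W := LinearMap.range (T w) with hWdef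
  have hWr : Module.finrank ℝ W = Module.finrank ℝ (Z r) := LinearMap.finrank_range_of_inj hinj
  set L := Wᗮ with hLdef
  have hLW : Lᗮ = W := Submodule.orthogonal_orthogonal W
  have hdim : Module.finrank ℝ L ≤ d + 1 := by
    have h1 := Submodule.finrank_add_finrank_orthogonal W
    have h2 : Module.finrank ℝ (EuclideanSpace ℝ (Fin n)) = n := by simp
    have h3 := finrank_Z r
    have h4 : Module.finrank ℝ L = Module.finrank ℝ (Wᗮ : Submodule ℝ (EuclideanSpace ℝ (Fin n))) := rfl
    omega
  have hn1 : 0 < n := by omega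
  -- coordinates are not identically zero on L
  have hcoord : ∀ i : Fin n, ∃ y ∈ L, y i ≠ 0 := by
    intro i
    by_contra hcon
    push Not at hcon
    have hi : EuclideanSpace.single i (1 : ℝ) ∈ Lᗮ := by
      rw [Submodule.mem_orthogonal]
      intro y hy
      have := hcon y hy
      rw [inner_eq]
      refine Finset.sum_eq_zero fun j _ => ?_
      by_cases hj : j = i
      · subst hj; rw [this]; simp
      · simp [hj]
    rw [hLW] at hi
    obtain ⟨μ, hμ⟩ := hi
    have h0 : μ = 0 := hQ1 μ (fun k l hkl => by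
      rw [hμ]
      by_cases hk : k = i
      · have hl : l ≠ i := by rintro rfl; exact absurd hk (ne_of_lt hkl)
        simp [hl]
      · simp [hk])
    rw [h0, map_zero] at hμ
    have := congrArg (fun v : EuclideanSpace ℝ (Fin n) => v i) hμ
    simp at this
  -- a vector of L with nonzero coordinates
  obtain ⟨y0, hy0L, hy0⟩ : ∃ y0 ∈ L, ∀ i, y0 i ≠ 0 := by
    by_contra hcon
    push Not at hcon
    have hcov : ⋃ i : Fin n, ((LinearMap.ker ((EuclideanSpace.proj i : EuclideanSpace ℝ (Fin n) →L[ℝ] ℝ).toLinearMap ∘ₗ L.subtype) : Submodule ℝ L) : Set L) = Set.univ := by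
      rw [Set.eq_univ_iff_forall]
      intro y
      obtain ⟨i, hi⟩ := hcon y y.2
      rw [Set.mem_iUnion]
      exact ⟨i, by simpa using hi⟩
    obtain ⟨i, hi⟩ := Subspace.exists_eq_top_of_iUnion_eq_univ hcov
    obtain ⟨y, hyL, hy⟩ := hcoord i
    have : (⟨y, hyL⟩ : L) ∈ (⊤ : Submodule ℝ L) := trivial
    rw [← hi, LinearMap.mem_ker] at this
    exact hy (by simpa using this)
  have hy0ne : y0 ≠ 0 := by
    rintro rfl
    exact hy0 ⟨0, hn1⟩ (by simp)
  -- complement
  obtain ⟨y, hyL, hspan⟩ : ∃ y : Fin d → EuclideanSpace ℝ (Fin n), (∀ m, y m ∈ L) ∧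
      ∀ z ∈ L, ∃ (c0 : ℝ) (c : Fin d → ℝ), z = c0 • y0 + ∑ m, c m • y m := by
    set M := L ⊓ (ℝ ∙ y0)ᗮ with hM
    have hMlt : M < L := by
      refine lt_of_le_of_ne inf_le_left ?_
      intro h
      have h1 : y0 ∈ M := by rw [h]; exact hy0L
      have h2 := (Submodule.mem_inf.1 h1).2
      rw [Submodule.mem_orthogonal_singleton_iff_inner_right] at h2
      exact hy0ne (inner_self_eq_zero.1 h2)
    have hMfr : Module.finrank ℝ M ≤ d := by
      have := Submodule.finrank_lt_finrank_of_lt hMlt
      omega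
    set bM := Module.finBasis ℝ M
    refine ⟨fun m => if h : (m : ℕ) < Module.finrank ℝ M then (bM ⟨m, h⟩ : EuclideanSpace ℝ (Fin n)) else 0, ?_, ?_⟩
    · intro m
      dsimp only
      split_ifs with h
      · exact (Submodule.mem_inf.1 (bM ⟨m, h⟩).2).1
      · exact L.zero_mem
    · intro z hz
      set c0 : ℝ := inner ℝ y0 z / inner ℝ y0 y0 with hc0
      have hyy : inner ℝ y0 y0 ≠ (0 : ℝ) := inner_self_ne_zero.2 hy0ne
      have hzM : z - c0 • y0 ∈ M := by
        refine Submodule.mem_inf.2 ⟨L.sub_mem hz (L.smul_mem _ hy0L), ?_⟩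
        rw [Submodule.mem_orthogonal_singleton_iff_inner_right, inner_sub_right, inner_smul_right,
          hc0]
        field_simp
        ring
      refine ⟨c0, fun m => if h : (m : ℕ) < Module.finrank ℝ M then
        bM.repr ⟨z - c0 • y0, hzM⟩ ⟨m, h⟩ else 0, ?_⟩
      have hrep := bM.sum_repr ⟨z - c0 • y0, hzM⟩
      have hrep2 := congrArg (Submodule.subtype M) hrep
      rw [map_sum] at hrep2
      simp only [map_smul, Submodule.subtype_apply] at hrep2
      have hsum : ∑ m : Fin d, (if h : (m : ℕ) < Module.finrank ℝ M then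
          bM.repr ⟨z - c0 • y0, hzM⟩ ⟨m, h⟩ else 0) •
          (if h : (m : ℕ) < Module.finrank ℝ M then (bM ⟨m, h⟩ : EuclideanSpace ℝ (Fin n)) else 0)
          = ∑ k : Fin (Module.finrank ℝ M), (bM.repr ⟨z - c0 • y0, hzM⟩ k) •
            (bM k : EuclideanSpace ℝ (Fin n)) := by
        symm
        refine Finset.sum_of_injOn (Fin.castLE hMfr) ?_ ?_ ?_ ?_
        · intro a _ b _ h
          exact Fin.castLE_injective hMfr h
        · intro a _; simp
        · intro m _ hm
          have : ¬ (m : ℕ) < Module.finrank ℝ M := by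
            intro h
            apply hm
            exact ⟨⟨m, h⟩, by simp, by ext; simp⟩
          simp [this]
        · intro k _
          simp
      rw [hsum, hrep2]
      abel
  -- the placement
  refine ⟨fun i => WithLp.toLp 2 (fun m => y m i / y0 i), ?_⟩
  intro ω hωs hωG hωp
  have hωd : ∀ i, ω i i = 0 := fun i => hωG i i (G.loopless.irrefl i)
  have hωp' : ∀ i m, ∑ j, ω i j * (y m i / y0 i - y m j / y0 j) = 0 := by
    intro i m
    have := congrArg (fun v : EuclideanSpace ℝ (Fin d) => v m) (hωp i)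
    simpa using this
  set Ω : Fin n → Fin n → ℝ := fun i j =>
    (if i = j then (∑ k, ω i k) / (y0 i)^2 else 0) - ω i j / (y0 i * y0 j) with hΩ
  have hΩs : ∀ i j, Ω i j = Ω j i := by
    intro i j
    simp only [hΩ]
    by_cases h : i = j
    · subst h; rfl
    · rw [if_neg h, if_neg (Ne.symm h), hωs i j, mul_comm (y0 i)]
  have hΩ0 : ∀ i, ∑ j, Ω i j * y0 j = 0 := by
    intro i
    simp only [hΩ, sub_mul, Finset.sum_sub_distrib, ite_mul, zero_mul, Finset.sum_ite_eq,
      Finset.mem_univ, if_true]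
    have : ∀ j, ω i j / (y0 i * y0 j) * y0 j = ω i j / y0 i := fun j => by
      have := hy0 j; have := hy0 i; field_simp
    simp only [this, ← Finset.sum_div]
    have := hy0 i
    field_simp
    ring
  have hΩm : ∀ i m, ∑ j, Ω i j * y m j = 0 := by
    intro i m
    simp only [hΩ, sub_mul, Finset.sum_sub_distrib, ite_mul, zero_mul, Finset.sum_ite_eq,
      Finset.mem_univ, if_true]
    have h1 := hωp' i m
    simp only [mul_sub, Finset.sum_sub_distrib] at h1
    have h2 : ∑ j, ω i j * (y m i / y0 i) = (∑ k, ω i k) * (y m i / y0 i) := by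
      rw [Finset.sum_mul]
    have h3 : ∑ j, ω i j / (y0 i * y0 j) * y m j = (∑ j, ω i j * (y m j / y0 j)) / y0 i := by
      rw [Finset.sum_div]
      refine Finset.sum_congr rfl fun j _ => ?_
      have := hy0 j; have := hy0 i; field_simp
    rw [h3]
    rw [h2] at h1
    have h4 : ∑ j, ω i j * (y m j / y0 j) = (∑ k, ω i k) * (y m i / y0 i) := by linarith
    rw [h4]
    have := hy0 i
    field_simp
    ring
  have hΩL : ∀ i, ∀ z ∈ L, ∑ j, Ω i j * z j = 0 := by
    intro i z hz
    obtain ⟨c0, c, rfl⟩ := hspan z hz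
    have : ∀ j, (c0 • y0 + ∑ m, c m • y m : EuclideanSpace ℝ (Fin n)) j
        = c0 * y0 j + ∑ m, c m * y m j := by
      intro j
      simp
    simp only [this, mul_add, Finset.sum_add_distrib, Finset.mul_sum]
    have e1 : ∑ j, Ω i j * (c0 * y0 j) = 0 := by
      rw [show ∑ j, Ω i j * (c0 * y0 j) = c0 * ∑ j, Ω i j * y0 j by
        rw [Finset.mul_sum]; exact Finset.sum_congr rfl fun j _ => by ring]
      rw [hΩ0, mul_zero]
    have e2 : ∑ j, ∑ m, Ω i j * (c m * y m j) = 0 := by
      rw [Finset.sum_comm]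
      refine Finset.sum_eq_zero fun m _ => ?_
      rw [show ∑ j, Ω i j * (c m * y m j) = c m * ∑ j, Ω i j * y m j by
        rw [Finset.mul_sum]; exact Finset.sum_congr rfl fun j _ => by ring]
      rw [hΩm, mul_zero]
    rw [e1, e2, add_zero]
  -- rows of Ω are in W
  have hmemW : ∀ v : Fin n → ℝ, (∀ z ∈ L, ∑ j, v j * z j = 0) →
      ∃ μ : Z r, ∀ j, v j = ∑ a, (μ : Fin r → ℝ) a * w a j := by
    intro v hv
    have hvL : (WithLp.toLp 2 v : EuclideanSpace ℝ (Fin n)) ∈ Lᗮ := by
      rw [Submodule.mem_orthogonal']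
      intro z hz
      rw [inner_eq]
      exact hv z hz
    rw [hLW] at hvL
    obtain ⟨μ, hμ⟩ := hvL
    refine ⟨μ, fun j => ?_⟩
    rw [← T_apply, hμ]
  choose M hM using fun i => hmemW (Ω i) (hΩL i)
  have hcol : ∀ z ∈ L, ∀ a, ∑ i, (M i : Fin r → ℝ) a * z i = 0 := by
    intro z hz
    have hνZ : (fun a => ∑ i, (M i : Fin r → ℝ) a * z i) ∈ Z r := by
      rw [mem_Z, Finset.sum_comm]
      refine Finset.sum_eq_zero fun i _ => ?_
      rw [← Finset.sum_mul, (mem_Z _).1 (M i).2, zero_mul]
    have hν0 : T w ⟨_, hνZ⟩ = T w 0 := by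
      ext j
      rw [T_apply, map_zero]
      have e := hΩL j z hz
      simp only [PiLp.zero_apply]
      rw [← e]
      simp only [Finset.sum_mul]
      rw [Finset.sum_comm]
      refine Finset.sum_congr rfl fun i _ => ?_
      rw [hΩs j i, hM i j, Finset.sum_mul]
      refine Finset.sum_congr rfl fun a _ => ?_
      ring
    have := hinj hν0
    intro a
    have h3 := congrArg (fun μ : Z r => (μ : Fin r → ℝ) a) this
    simpa using h3
  choose K hK using fun a => hmemW (fun i => (M i : Fin r → ℝ) a) (fun z hz => hcol z hz a)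
  -- K a : Z r, M i a = ∑ b, K a b * w b i
  have hKrow : ∀ a, ∑ b, (K a : Fin r → ℝ) b = 0 := fun a => (mem_Z _).1 (K a).2
  have hKcol : ∀ b, ∑ a, (K a : Fin r → ℝ) b = 0 := by
    have hνZ : (fun b => ∑ a, (K a : Fin r → ℝ) b) ∈ Z r := by
      rw [mem_Z, Finset.sum_comm]
      exact Finset.sum_eq_zero fun a _ => hKrow a
    have hν0 : T w ⟨_, hνZ⟩ = T w 0 := by
      ext j
      rw [T_apply, map_zero]
      simp only [PiLp.zero_apply]
      have e : ∑ a, (M j : Fin r → ℝ) a = 0 := (mem_Z _).1 (M j).2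
      rw [← e]
      simp only [Finset.sum_mul]
      rw [Finset.sum_comm]
      refine Finset.sum_congr rfl fun a _ => ?_
      rw [hK a j]
    have := hinj hν0
    intro b
    have h3 := congrArg (fun μ : Z r => (μ : Fin r → ℝ) b) this
    simpa using h3
  have hΩK : ∀ i j, Ω i j = ∑ a, ∑ b, (K a : Fin r → ℝ) b * (w a j * w b i) := by
    intro i j
    rw [hM i j]
    refine Finset.sum_congr rfl fun a _ => ?_
    rw [hK a i, Finset.sum_mul]
    refine Finset.sum_congr rfl fun b _ => ?_
    ring
  set K' : Fin r → Fin r → ℝ := fun a b => ((K a : Fin r → ℝ) b + (K b : Fin r → ℝ) a) / 2 with hK'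
  have hΩK' : ∀ i j, ∑ a, ∑ b, K' a b * (w a i * w b j) = Ω i j := by
    intro i j
    have e1 : Ω i j = ∑ a, ∑ b, (K b : Fin r → ℝ) a * (w a i * w b j) := by
      rw [hΩK i j, Finset.sum_comm]
      refine Finset.sum_congr rfl fun a _ => Finset.sum_congr rfl fun b _ => ?_
      ring
    have e2 : Ω i j = ∑ a, ∑ b, (K a : Fin r → ℝ) b * (w a i * w b j) := by
      rw [hΩs i j, hΩK j i]
    have : ∑ a, ∑ b, K' a b * (w a i * w b j) =
      (∑ a, ∑ b, (K a : Fin r → ℝ) b * (w a i * w b j) +
        ∑ a, ∑ b, (K b : Fin r → ℝ) a * (w a i * w b j)) / 2 := by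
      simp only [← Finset.sum_add_distrib, Finset.sum_div]
      refine Finset.sum_congr rfl fun a _ => Finset.sum_congr rfl fun b _ => ?_
      simp only [hK']; ring
    rw [this, ← e1, ← e2]; ring
  have hK'0 := hQ K' (fun a b => by simp only [hK']; ring)
    (fun a => by
      simp only [hK']
      rw [← Finset.sum_div, Finset.sum_add_distrib, hKrow, hKcol]; simp)
    (fun i j hij hadj => by
      rw [hΩK']
      simp only [hΩ, if_neg (ne_of_lt hij), hωG i j hadj]
      simp)
  ext i j
  by_cases hij : i = j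
  · subst hij; simpa using hωd i
  · have h0 : Ω i j = 0 := by
      rw [← hΩK']
      simp [hK'0]
    simp only [hΩ, if_neg hij, zero_sub, neg_eq_zero] at h0
    rcases div_eq_zero_iff.1 h0 with h | h
    · simpa using h
    · exact absurd h (mul_ne_zero (hy0 i) (hy0 j))



end D

namespace E0


open Matrix in
/-- Gram determinant criterion -/
theorem gram_iff {m k : Type} [Fintype m] [DecidableEq m] [Fintype k] (M : Matrix m k ℝ) :
    (∀ v : m → ℝ, v ᵥ* M = 0 → v = 0) ↔ (M * Mᵀ).det ≠ 0 := by
  constructor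
  · intro h hdet
    obtain ⟨v, hv, hvM⟩ := Matrix.exists_vecMul_eq_zero_iff.mpr hdet
    apply hv
    apply h
    have h1 : (v ᵥ* M) ⬝ᵥ (v ᵥ* M) = 0 := by
      have h2 : (v ᵥ* (M * Mᵀ)) ⬝ᵥ v = 0 := by rw [hvM, zero_dotProduct]
      rw [← Matrix.vecMul_vecMul, ← Matrix.dotProduct_mulVec, Matrix.mulVec_transpose] at h2
      exact h2
    exact dotProduct_self_eq_zero.mp h1
  · intro hdet v hv
    by_contra hne
    apply hdet
    apply Matrix.exists_vecMul_eq_zero_iff.mp
    refine ⟨v, hne, ?_⟩
    rw [← Matrix.vecMul_vecMul, hv, Matrix.zero_vecMul]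

theorem ae_of_poly {V : Type} [NormedAddCommGroup V] [NormedSpace ℝ V] [MeasurableSpace V]
    [BorelSpace V] [FiniteDimensional ℝ V] (μ : Measure V) [μ.IsAddHaarMeasure] (f : V → ℝ)
    (hf : Continuous f) (x0 : V) (h0 : f x0 ≠ 0)
    (hp : ∀ x, ∃ P : Polynomial ℝ, ∀ t : ℝ, f (x0 + t • (x - x0)) = P.eval t) :
    ∀ᵐ x ∂μ, f x ≠ 0 := by
  set S : Set (V × ℝ) := {p | f (x0 + p.2 • (p.1 - x0)) = 0} with hS
  have hSm : MeasurableSet S := by
    have : IsClosed S := isClosed_eq (by fun_prop) continuous_const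
    exact this.measurableSet
  have h1 : (μ.prod volume) S = 0 := by
    rw [Measure.measure_prod_null hSm]
    refine Filter.Eventually.of_forall fun x => ?_
    obtain ⟨P, hP⟩ := hp x
    have hP0 : P ≠ 0 := by
      rintro rfl
      have := hP 0
      rw [zero_smul, add_zero, Polynomial.eval_zero] at this
      exact h0 this
    have hsub : Prod.mk x ⁻¹' S ⊆ (P.roots.toFinset : Set ℝ) := by
      intro t ht
      have h2 : f (x0 + t • (x - x0)) = 0 := ht
      rw [hP t] at h2
      simp only [Finset.mem_coe, Multiset.mem_toFinset, Polynomial.mem_roots hP0]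
      exact h2
    exact measure_mono_null hsub (Finset.measure_zero _ _)
  have h2 : (volume.prod μ) (Prod.swap ⁻¹' S) = 0 := by
    have h3 : Measure.map Prod.swap (volume.prod μ) = μ.prod (volume : Measure ℝ) :=
      Measure.prod_swap
    rw [← Measure.map_apply measurable_swap hSm, h3, h1]
  have h3 := Measure.measure_ae_null_of_prod_null h2
  have h4 : ∀ᵐ t : ℝ, t ≠ 0 := Measure.ae_ne volume 0
  obtain ⟨t, ht1, ht0⟩ := (h3.and h4).exists
  set B : Set V := {x | f x = 0} with hB
  have hset : Prod.mk t ⁻¹' (Prod.swap ⁻¹' S) = (t • ·) ⁻¹' ((· + (x0 - t • x0)) ⁻¹' B) := by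
    ext x
    simp only [Set.mem_preimage]
    have : x0 + t • (x - x0) = t • x + (x0 - t • x0) := by
      rw [smul_sub]; abel
    change f (x0 + t • (x - x0)) = 0 ↔ f (t • x + (x0 - t • x0)) = 0
    rw [this]
  have h5 : μ (Prod.mk t ⁻¹' (Prod.swap ⁻¹' S)) = 0 := ht1
  rw [hset, Measure.addHaar_preimage_smul μ ht0, measure_preimage_add_right] at h5
  have h6 : μ B = 0 := by
    rcases mul_eq_zero.mp h5 with h | h
    · exfalso
      rw [ENNReal.ofReal_eq_zero] at h
      have : 0 < |(t ^ Module.finrank ℝ V)⁻¹| := abs_pos.mpr (inv_ne_zero (pow_ne_zero _ ht0))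
      linarith
    · exact h
  exact measure_eq_zero_iff_ae_notMem.mp h6

open Matrix in
/-- families of matrices depending affinely on a parameter -/
theorem ae_of_affine {V : Type} [NormedAddCommGroup V] [NormedSpace ℝ V] [MeasurableSpace V]
    [BorelSpace V] [FiniteDimensional ℝ V] (μ : Measure V) [μ.IsAddHaarMeasure]
    {m k : Type} [Fintype m] [DecidableEq m] [Fintype k] (M : V → Matrix m k ℝ)
    (hM : Continuous M) (haff : ∀ (x0 x : V) (t : ℝ), M (x0 + t • (x - x0)) =
      M x0 + t • (M x - M x0)) (x0 : V) (h0 : ∀ v : m → ℝ, v ᵥ* M x0 = 0 → v = 0) :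
    ∀ᵐ x ∂μ, ∀ v : m → ℝ, v ᵥ* M x = 0 → v = 0 := by
  have h1 := ae_of_poly μ (fun x => (M x * (M x)ᵀ).det) (by fun_prop) x0
    ((gram_iff (M x0)).mp h0) (by
      intro x
      set A : Matrix m k (Polynomial ℝ) := (M x0).map Polynomial.C +
        (Polynomial.X : Polynomial ℝ) • (M x - M x0).map Polynomial.C with hA
      refine ⟨(A * Aᵀ).det, fun t => ?_⟩
      have h2 : A.map (Polynomial.evalRingHom t) = M (x0 + t • (x - x0)) := by
        rw [haff]
        ext i j
        simp [hA, Matrix.map_apply]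
      rw [← Polynomial.coe_evalRingHom, RingHom.map_det, RingHom.mapMatrix_apply, Matrix.map_mul,
        Matrix.transpose_map, h2])
  filter_upwards [h1] with x hx
  exact (gram_iff (M x)).mpr hx

open Matrix in
theorem isOpen_of_cont {V : Type} [TopologicalSpace V]
    {m k : Type} [Fintype m] [DecidableEq m] [Fintype k] (M : V → Matrix m k ℝ)
    (hM : Continuous M) : IsOpen {x | ∀ v : m → ℝ, v ᵥ* M x = 0 → v = 0} := by
  have : {x | ∀ v : m → ℝ, v ᵥ* M x = 0 → v = 0} = {x | (M x * (M x)ᵀ).det ≠ 0} := by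
    ext x
    exact gram_iff (M x)
  rw [this]
  exact isOpen_ne_fun (by fun_prop) continuous_const

open Classical in
/-- stress matrix -/
noncomputable def SM {n d : ℕ} (G : SimpleGraph (Fin n)) (p : Placement n d) :
    Matrix (Fin n × Fin n) ((Fin n × Fin n) ⊕ ((Fin n × Fin n) ⊕ (Fin n × Fin d))) ℝ :=
  fun ij c => match c with
    | Sum.inl kl => (if ij = kl then 1 else 0) - (if ij = (kl.2, kl.1) then 1 else 0)
    | Sum.inr (Sum.inl kl) => if ij = kl ∧ ¬ G.Adj kl.1 kl.2 then 1 else 0
    | Sum.inr (Sum.inr ka) => if ij.1 = ka.1 then p ij.1 ka.2 - p ij.2 ka.2 else 0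

open Matrix in
theorem noStress_iff {n d : ℕ} (G : SimpleGraph (Fin n)) (p : Placement n d) :
    NoStress G p ↔ ∀ v : Fin n × Fin n → ℝ, v ᵥ* SM G p = 0 → v = 0 := by
  classical
  have key : ∀ v : Fin n × Fin n → ℝ, v ᵥ* SM G p = 0 ↔
      (∀ k l, v (k, l) = v (l, k)) ∧ (∀ k l, ¬ G.Adj k l → v (k, l) = 0) ∧
      (∀ k, ∑ j, v (k, j) • (p k - p j) = 0) := by
    intro v
    have e1 : ∀ k l, (v ᵥ* SM G p) (Sum.inl (k, l)) = v (k, l) - v (l, k) := by
      intro k l
      simp only [Matrix.vecMul, dotProduct, SM, mul_sub, Finset.sum_sub_distrib, mul_ite, mul_one,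
        mul_zero]
      rw [Finset.sum_ite_eq' Finset.univ (k, l) v, Finset.sum_ite_eq' Finset.univ (l, k) v]
      simp
    have e2 : ∀ k l, (v ᵥ* SM G p) (Sum.inr (Sum.inl (k, l))) =
        if ¬ G.Adj k l then v (k, l) else 0 := by
      intro k l
      simp only [Matrix.vecMul, dotProduct, SM, mul_ite, mul_one, mul_zero]
      by_cases hkl : G.Adj k l
      · simp [hkl]
      · simp [hkl]
    have e3 : ∀ k a, (v ᵥ* SM G p) (Sum.inr (Sum.inr (k, a))) =
        ∑ j, v (k, j) * (p k a - p j a) := by
      intro k a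
      simp only [Matrix.vecMul, dotProduct, SM, mul_ite, mul_zero]
      rw [Fintype.sum_prod_type]
      rw [Finset.sum_eq_single k]
      · simp
      · intro i _ hik
        apply Finset.sum_eq_zero
        intro j _
        rw [if_neg hik]
      · intro h; exact absurd (Finset.mem_univ k) h
    have e4 : ∀ k a, (∑ j, v (k, j) • (p k - p j)) a = ∑ j, v (k, j) * (p k a - p j a) := by
      intro k a
      rw [← e3]
      rw [e3]
      simp [WithLp.ofLp_sum]
    constructor
    · intro h
      refine ⟨fun k l => ?_, fun k l hkl => ?_, fun k => ?_⟩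
      · have := congrFun h (Sum.inl (k, l))
        rw [e1] at this
        exact sub_eq_zero.mp this
      · have := congrFun h (Sum.inr (Sum.inl (k, l)))
        rw [e2, if_pos hkl] at this
        exact this
      · ext a
        rw [e4, ← e3]
        have := congrFun h (Sum.inr (Sum.inr (k, a)))
        exact this
    · rintro ⟨h1, h2, h3⟩
      funext c
      rcases c with ⟨k, l⟩ | ⟨k, l⟩ | ⟨k, a⟩
      · rw [e1, h1 k l, sub_self]; rfl
      · rw [e2]
        by_cases hkl : G.Adj k l
        · rw [if_neg (not_not.mpr hkl)]; rfl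
        · rw [if_pos hkl]; exact h2 k l hkl
      · rw [e3, ← e4, h3 k]; rfl
  constructor
  · intro h v hv
    obtain ⟨h1, h2, h3⟩ := (key v).mp hv
    have := h (fun i j => v (i, j)) (fun i j => h1 i j) h2 h3
    funext ⟨i, j⟩
    exact congrFun (congrFun this i) j
  · intro h ω h1 h2 h3
    have := h (fun ij => ω ij.1 ij.2) ((key _).mpr ⟨h1, h2, h3⟩)
    funext i j
    exact congrFun this (i, j)

theorem SM_cont {n d : ℕ} (G : SimpleGraph (Fin n)) : Continuous (SM (d := d) G) := by
  classical
  apply continuous_matrix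
  rintro ⟨i, j⟩ (kl | kl | ⟨k, a⟩)
  · exact continuous_const
  · exact continuous_const
  · simp only [SM]
    split_ifs
    · fun_prop
    · exact continuous_const

theorem SM_aff {n d : ℕ} (G : SimpleGraph (Fin n)) (x0 x : Placement n d) (t : ℝ) :
    SM G (x0 + t • (x - x0)) = SM G x0 + t • (SM G x - SM G x0) := by
  classical
  ext ⟨i, j⟩ c
  rcases c with kl | kl | ⟨k, a⟩
  · simp [SM]
  · simp [SM]
  · simp only [SM, Matrix.add_apply, Matrix.smul_apply, Matrix.sub_apply]
    split_ifs
    · simp; ring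
    · simp

theorem isOpen_noStress {n d : ℕ} (G : SimpleGraph (Fin n)) :
    IsOpen {p : Placement n d | NoStress G p} := by
  have h := isOpen_of_cont (SM (d := d) G) (SM_cont G)
  have e : {p : Placement n d | NoStress G p} =
      {x | ∀ v : Fin n × Fin n → ℝ, Matrix.vecMul v (SM G x) = 0 → v = 0} := by
    ext p
    exact noStress_iff G p
  rw [e]
  exact h

/-- matrix of points -/
noncomputable def PM {n d : ℕ} (p : Placement n d) : Matrix (Option (Fin d)) (Fin n) ℝ :=
  fun o i => match o with
    | some a => p i a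
    | none => -1

open Matrix in
theorem spans_iff {n d : ℕ} (hn : 0 < n) (p : Placement n d) :
    Spans p ↔ ∀ v : Option (Fin d) → ℝ, v ᵥ* PM p = 0 → v = 0 := by
  have hin : ∀ (c : EuclideanSpace ℝ (Fin d)) (i : Fin n), inner ℝ c (p i) =
      ∑ a, c a * p i a := by
    intro c i
    rw [PiLp.inner_apply]
    apply Finset.sum_congr rfl
    intro a _
    simp [mul_comm]
  have e1 : ∀ (v : Option (Fin d) → ℝ) (i : Fin n), (v ᵥ* PM p) i =
      (∑ a, v (some a) * p i a) - v none := by
    intro v i
    simp only [Matrix.vecMul, dotProduct, PM]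
    rw [Fintype.sum_option]
    simp only []
    ring
  constructor
  · intro h v hv
    set c : EuclideanSpace ℝ (Fin d) := WithLp.toLp 2 (fun a => v (some a)) with hc
    have h1 : ∀ i, inner ℝ c (p i) = v none := by
      intro i
      have := congrFun hv i
      rw [e1] at this
      rw [hin]
      exact sub_eq_zero.mp this
    have h2 := h c (v none) h1
    have h3 : ∀ a, v (some a) = 0 := by
      intro a
      have := congrArg (fun x : EuclideanSpace ℝ (Fin d) => x a) h2
      exact this
    have h4 : v none = 0 := by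
      rw [← h1 ⟨0, hn⟩, h2, inner_zero_left]
    funext o
    cases o with
    | none => exact h4
    | some a => exact h3 a
  · intro h c b hcb
    have h1 := h (fun o => match o with | some a => c a | none => b) (by
      funext i
      rw [e1]
      simp only []
      rw [← hin, hcb i, sub_self]
      rfl)
    ext a
    exact congrFun h1 (some a)

theorem PM_cont {n d : ℕ} : Continuous (PM (n := n) (d := d)) := by
  apply continuous_matrix
  rintro (_ | a) i
  · exact continuous_const
  · simp only [PM]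
    fun_prop

theorem PM_aff {n d : ℕ} (x0 x : Placement n d) (t : ℝ) :
    PM (x0 + t • (x - x0)) = PM x0 + t • (PM x - PM x0) := by
  ext o i
  cases o with
  | none => simp [PM]
  | some a => simp [PM]

theorem isOpen_spans {n d : ℕ} : IsOpen {p : Placement n d | Spans p} := by
  rcases Nat.eq_zero_or_pos n with h0 | hn
  · subst h0
    have : Subsingleton (Placement 0 d) := inferInstance
    exact isOpen_discrete _
  · have h := isOpen_of_cont (PM (n := n) (d := d)) PM_cont
    have e : {p : Placement n d | Spans p} =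
        {x | ∀ v : Option (Fin d) → ℝ, Matrix.vecMul v (PM x) = 0 → v = 0} := by
      ext p
      exact spans_iff hn p
    rw [e]
    exact h

theorem ae_noStress {n d : ℕ} (G : SimpleGraph (Fin n)) (p₀ : Placement n d)
    (h : NoStress G p₀) : ∀ᵐ p : Placement n d, NoStress G p := by
  have h1 := ae_of_affine (volume : Measure (Placement n d)) (SM G) (SM_cont G)
    (fun x0 x t => SM_aff G x0 x t) p₀ ((noStress_iff G p₀).mp h)
  filter_upwards [h1] with p hp
  exact (noStress_iff G p).mpr hp

theorem ae_spans {n d : ℕ} (h : d + 1 ≤ n) : ∀ᵐ p : Placement n d, Spans p := by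
  have hn : 0 < n := by omega
  classical
  set p₀ : Placement n d := fun i => if h : (i : ℕ) < d then EuclideanSpace.single ⟨i, h⟩ (1:ℝ) else 0
    with hp₀
  have hs : Spans p₀ := by
    intro c b hcb
    have hb : b = 0 := by
      have := hcb ⟨d, by omega⟩
      simp only [hp₀] at this
      rw [dif_neg (by simp), inner_zero_right] at this
      exact this.symm
    ext a
    have h1 := hcb ⟨a, by omega⟩
    simp only [hp₀] at h1
    rw [dif_pos a.2] at h1
    rw [hb, EuclideanSpace.inner_single_right] at h1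
    simpa using h1
  have h1 := ae_of_affine (volume : Measure (Placement n d)) PM PM_cont
    (fun x0 x t => PM_aff x0 x t) p₀ ((spans_iff hn p₀).mp hs)
  filter_upwards [h1] with p hp
  exact (spans_iff hn p).mpr hp



end E0

namespace E1

/-- Ordered edges. -/
abbrev OE {n : ℕ} (G : SimpleGraph (Fin n)) : Set (Fin n × Fin n) :=
  {e : Fin n × Fin n | e.1 < e.2 ∧ G.Adj e.1 e.2}

/-- The rigidity map. -/
noncomputable def rigMap {n d : ℕ} (G : SimpleGraph (Fin n)) (m : Placement n d) :
    Placement n d →ₗ[ℝ] (OE G → ℝ) where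
  toFun := fun v e => inner ℝ (m e.1.1 - m e.1.2) (v e.1.1 - v e.1.2)
  map_add' := by
    intro u v
    funext e
    simp only [Pi.add_apply]
    rw [← inner_add_right]
    congr 1
    abel
  map_smul' := by
    intro c v
    funext e
    simp only [Pi.smul_apply, RingHom.id_apply, smul_eq_mul]
    rw [← smul_sub, inner_smul_right]

theorem rigMap_surj {n d : ℕ} (G : SimpleGraph (Fin n)) (m : Placement n d)
    (h : NoStress G m) : LinearMap.range (rigMap G m) = ⊤ := by
  classical
  by_contra hne
  obtain ⟨f, hf0, hf⟩ := Submodule.exists_le_ker_of_lt_top _ (lt_top_iff_ne_top.mpr hne)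
  obtain ⟨lam, hlam⟩ : ∃ lam : OE G → ℝ, lam = fun e => f (Pi.single e 1) := ⟨_, rfl⟩
  have hfw : ∀ w : OE G → ℝ, f w = ∑ e, w e * lam e := by
    intro w
    conv_lhs => rw [← Finset.univ_sum_single w]
    rw [map_sum]
    refine Finset.sum_congr rfl fun e _ => ?_
    have : (Pi.single e (w e) : OE G → ℝ) = w e • Pi.single e (1 : ℝ) := by
      rw [← Pi.single_smul, smul_eq_mul, mul_one]
    rw [this, map_smul, smul_eq_mul, hlam]
  obtain ⟨L, hL⟩ : ∃ L : Fin n → Fin n → ℝ, L = fun i j =>
    if hh : i < j ∧ G.Adj i j then lam ⟨(i, j), hh⟩ else 0 := ⟨_, rfl⟩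
  have hLz : ∀ i j, ¬ (i < j ∧ G.Adj i j) → L i j = 0 := by
    intro i j hij
    rw [hL]
    exact dif_neg hij
  have hLe : ∀ e : OE G, L e.1.1 e.1.2 = lam e := by
    intro e
    rw [hL]
    exact dif_pos e.2
  have hsumL : ∀ g : Fin n → Fin n → ℝ, ∑ e : OE G, g e.1.1 e.1.2 * lam e
      = ∑ i, ∑ j, L i j * g i j := by
    intro g
    rw [← Finset.sum_product' Finset.univ Finset.univ (fun i j => L i j * g i j)]
    have h1 : ∑ e : OE G, g e.1.1 e.1.2 * lam e
        = ∑ e : OE G, (fun x : Fin n × Fin n => L x.1 x.2 * g x.1 x.2) e.1 := by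
      refine Finset.sum_congr rfl fun e _ => ?_
      simp only [hLe]
      ring
    rw [h1, ← Finset.sum_subtype (Finset.univ.filter (fun e : Fin n × Fin n => e ∈ OE G))
      (fun x => by simp) (fun x : Fin n × Fin n => L x.1 x.2 * g x.1 x.2)]
    refine Finset.sum_subset (Finset.subset_univ _) ?_
    intro x _ hx
    have : ¬ (x.1 < x.2 ∧ G.Adj x.1 x.2) := by
      intro hh
      exact hx (Finset.mem_filter.mpr ⟨Finset.mem_univ _, hh⟩)
    rw [hLz _ _ this, zero_mul]
  obtain ⟨ω, hω⟩ : ∃ ω : Fin n → Fin n → ℝ, ω = fun i j => L i j + L j i := ⟨_, rfl⟩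
  have hkey : ∀ v : Placement n d, ∑ i, inner ℝ (∑ j, ω i j • (m i - m j)) (v i) = 0 := by
    intro v
    have h0 : f (rigMap G m v) = 0 := by
      have := hf (LinearMap.mem_range_self (rigMap G m) v)
      exact this
    rw [hfw] at h0
    have h1 := hsumL (fun i j => inner ℝ (m i - m j) (v i - v j))
    have h2 : ∑ e : OE G, (rigMap G m v) e * lam e
        = ∑ e : OE G, (fun i j => inner ℝ (m i - m j) (v i - v j)) e.1.1 e.1.2 * lam e := rfl
    rw [h2, h1] at h0
    have h3 : ∑ i, ∑ j, L i j * inner ℝ (m i - m j) (v i - v j)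
        = ∑ i, ∑ j, L i j * inner ℝ (m i - m j) (v i) + ∑ i, ∑ j, L j i * inner ℝ (m i - m j) (v i) := by
      rw [Finset.sum_comm (f := fun i j => L j i * inner ℝ (m i - m j) (v i)),
        ← Finset.sum_add_distrib]
      refine Finset.sum_congr rfl fun i _ => ?_
      rw [← Finset.sum_add_distrib]
      refine Finset.sum_congr rfl fun j _ => ?_
      rw [inner_sub_right, ← neg_sub (m i) (m j), inner_neg_left]
      ring
    rw [h3] at h0
    rw [← h0, ← Finset.sum_add_distrib]
    refine Finset.sum_congr rfl fun i _ => ?_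
    rw [sum_inner, ← Finset.sum_add_distrib]
    refine Finset.sum_congr rfl fun j _ => ?_
    rw [hω, real_inner_smul_left]
    ring
  have hω0 : ω = 0 := by
    apply h ω
    · intro i j
      rw [hω]
      exact add_comm _ _
    · intro i j hij
      rw [hω]
      show L i j + L j i = 0
      rw [hLz i j (fun hh => hij hh.2), hLz j i (fun hh => hij hh.2.symm), add_zero]
    · have := hkey (fun i => ∑ j, ω i j • (m i - m j))
      rw [Finset.sum_eq_zero_iff_of_nonneg (fun i _ => real_inner_self_nonneg)] at this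
      intro i
      exact inner_self_eq_zero.mp (this i (Finset.mem_univ i))
  apply hf0
  refine LinearMap.ext fun w => ?_
  rw [hfw]
  simp only [LinearMap.zero_apply]
  refine Finset.sum_eq_zero fun e _ => ?_
  have h1 : ω e.1.1 e.1.2 = 0 := by rw [hω0]; rfl
  have h2 : L e.1.2 e.1.1 = 0 := hLz _ _ (fun hh => absurd hh.1 (not_lt.mpr (le_of_lt e.2.1)))
  rw [hω] at h1
  have h3 : L e.1.1 e.1.2 + L e.1.2 e.1.1 = 0 := h1
  rw [h2, add_zero, hLe] at h3
  rw [h3, mul_zero]

/-- The linear map whose kernel is (skew matrices) x vectors. -/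
noncomputable def symMap (d : ℕ) :
    ((Fin d → Fin d → ℝ) × (Fin d → ℝ)) →ₗ[ℝ] (Sym2 (Fin d) → ℝ) where
  toFun := fun A s => Sym2.lift ⟨fun a b => A.1 a b + A.1 b a, fun a b => add_comm _ _⟩ s
  map_add' := by
    intro A B
    funext s
    induction s using Sym2.ind with
    | _ a b =>
      simp only [Pi.add_apply, Sym2.lift_mk, Prod.fst_add]
      ring
  map_smul' := by
    intro c A
    funext s
    induction s using Sym2.ind with
    | _ a b =>
      simp only [Pi.smul_apply, Sym2.lift_mk, Prod.smul_fst, RingHom.id_apply, smul_eq_mul]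
      ring

theorem symMap_ker_dim (d : ℕ) : (d + 1).choose 2 ≤ Module.finrank ℝ (LinearMap.ker (symMap d)) := by
  have h1 := LinearMap.finrank_range_add_finrank_ker (symMap d)
  have h2 : Module.finrank ℝ (LinearMap.range (symMap d)) ≤ (d + 1).choose 2 := by
    refine (Submodule.finrank_le _).trans ?_
    rw [Module.finrank_fintype_fun_eq_card, Sym2.card, Fintype.card_fin]
  have h3 : Module.finrank ℝ ((Fin d → Fin d → ℝ) × (Fin d → ℝ)) = d * d + d := by
    rw [Module.finrank_prod, Module.finrank_fintype_fun_eq_card, Fintype.card_fin,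
      Module.finrank_pi_fintype]
    simp
  have h4 : 2 * (d + 1).choose 2 = d * d + d := by
    rw [Nat.choose_two_right]
    have : 2 ∣ (d + 1) * (d + 1 - 1) := by
      rw [Nat.add_sub_cancel, mul_comm]
      exact (Nat.even_mul_succ_self d).two_dvd
    rw [Nat.mul_div_cancel' this, Nat.add_sub_cancel]
    ring
  omega

/-- infinitesimal trivial motions -/
noncomputable def phiMap {n d : ℕ} (m : Placement n d) :
    ((Fin d → Fin d → ℝ) × (Fin d → ℝ)) →ₗ[ℝ] Placement n d where
  toFun := fun A i => WithLp.toLp 2 (fun a => ∑ c, A.1 a c * m i c + A.2 a)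
  map_add' := by
    intro A B
    funext i
    ext a
    simp only [Pi.add_apply, Prod.fst_add, Prod.snd_add, PiLp.add_apply, add_mul,
      Finset.sum_add_distrib]
    ring
  map_smul' := by
    intro c A
    funext i
    ext a
    simp only [Pi.smul_apply, Prod.smul_fst, Prod.smul_snd, RingHom.id_apply, smul_eq_mul,
      PiLp.smul_apply, mul_add, Finset.mul_sum, mul_assoc]

/-- The space of infinitesimal motions of the complete graph. -/
noncomputable def allKer {n d : ℕ} (m : Placement n d) : Submodule ℝ (Placement n d) where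
  carrier := {v | ∀ i j, inner ℝ (m i - m j) (v i - v j) = 0}
  add_mem' := by
    intro u v hu hv i j
    have : (u + v) i - (u + v) j = (u i - u j) + (v i - v j) := by
      simp only [Pi.add_apply]; abel
    rw [this, inner_add_right, hu i j, hv i j, add_zero]
  zero_mem' := by
    intro i j
    simp
  smul_mem' := by
    intro c v hv i j
    have : (c • v) i - (c • v) j = c • (v i - v j) := by
      simp only [Pi.smul_apply, smul_sub]
    rw [this, inner_smul_right, hv i j, mul_zero]

theorem symMap_ker_iff {d : ℕ} {A : (Fin d → Fin d → ℝ) × (Fin d → ℝ)}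
    (hA : A ∈ LinearMap.ker (symMap d)) (a b : Fin d) : A.1 a b = - A.1 b a := by
  have h : symMap d A = 0 := hA
  have h2 : symMap d A s(a, b) = 0 := by rw [h]; rfl
  have h3 : symMap d A s(a, b) = A.1 a b + A.1 b a := rfl
  linarith

theorem phiMap_mem {n d : ℕ} (m : Placement n d) {A : (Fin d → Fin d → ℝ) × (Fin d → ℝ)}
    (hA : A ∈ LinearMap.ker (symMap d)) : phiMap m A ∈ allKer m := by
  intro i j
  have hsk := symMap_ker_iff hA
  have h1 : phiMap m A i - phiMap m A j
      = WithLp.toLp 2 (fun a => ∑ c, A.1 a c * (m i c - m j c)) := by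
    ext a
    show (∑ c, A.1 a c * m i c + A.2 a) - (∑ c, A.1 a c * m j c + A.2 a) = _
    simp only [mul_sub, Finset.sum_sub_distrib]
    ring
  rw [h1]
  have h2 : inner ℝ (m i - m j) (WithLp.toLp 2 (fun a => ∑ c, A.1 a c * (m i c - m j c)))
      = ∑ a, ∑ c, A.1 a c * (m i c - m j c) * (m i a - m j a) := by
    rw [PiLp.inner_apply]
    refine Finset.sum_congr rfl fun a _ => ?_
    simp [Finset.sum_mul]
  rw [h2]
  have h3 : ∑ a, ∑ c, A.1 a c * (m i c - m j c) * (m i a - m j a)
      = - ∑ a, ∑ c, A.1 a c * (m i c - m j c) * (m i a - m j a) := by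
    conv_lhs => rw [Finset.sum_comm]
    rw [← Finset.sum_neg_distrib]
    refine Finset.sum_congr rfl fun a _ => ?_
    rw [← Finset.sum_neg_distrib]
    refine Finset.sum_congr rfl fun c _ => ?_
    rw [hsk c a]
    ring
  linarith

theorem allKer_dim {n d : ℕ} (hn : 0 < n) (m : Placement n d) (hs : Spans m) :
    (d + 1).choose 2 ≤ Module.finrank ℝ (allKer m) := by
  refine (symMap_ker_dim d).trans ?_
  let F : LinearMap.ker (symMap d) →ₗ[ℝ] allKer m :=
    ((phiMap m).comp (LinearMap.ker (symMap d)).subtype).codRestrict (allKer m)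
      (fun A => phiMap_mem m A.2)
  apply LinearMap.finrank_le_finrank_of_injective (f := F)
  rw [← LinearMap.ker_eq_bot, LinearMap.ker_eq_bot']
  intro A hA
  have h1 : phiMap m A.1 = 0 := by
    have : ((F A : allKer m) : Placement n d) = 0 := by rw [hA]; rfl
    exact this
  have h2 : ∀ i a, ∑ c, A.1.1 a c * m i c + A.1.2 a = 0 := by
    intro i a
    have : phiMap m A.1 i a = 0 := by rw [h1]; rfl
    exact this
  have h3 : ∀ a, (WithLp.toLp 2 (A.1.1 a) : EuclideanSpace ℝ (Fin d)) = 0 := by
    intro a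
    apply hs _ (- A.1.2 a)
    intro i
    have h4 := h2 i a
    rw [PiLp.inner_apply]
    have h5 : ∑ c, inner ℝ ((WithLp.toLp 2 (A.1.1 a) : EuclideanSpace ℝ (Fin d)) c) (m i c)
        = ∑ c, A.1.1 a c * m i c := by
      refine Finset.sum_congr rfl fun c _ => ?_
      simp [mul_comm]
    rw [h5]
    linarith
  have h6 : ∀ a c, A.1.1 a c = 0 := by
    intro a c
    have : (WithLp.toLp 2 (A.1.1 a) : EuclideanSpace ℝ (Fin d)) c = 0 := by rw [h3 a]; rfl
    exact this
  have h7 : ∀ a, A.1.2 a = 0 := by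
    intro a
    have := h2 ⟨0, hn⟩ a
    simpa [h6] using this
  apply Subtype.ext
  apply Prod.ext
  · funext a c
    exact h6 a c
  · funext a
    exact h7 a

theorem inf_rigid {n d : ℕ} (hn : 0 < n) (G : SimpleGraph (Fin n)) (m : Placement n d)
    (h : NoStress G m) (hs : Spans m)
    (hcard : {e : Fin n × Fin n | e.1 < e.2 ∧ G.Adj e.1 e.2}.ncard + (d + 1).choose 2 = d * n)
    (v : Placement n d) (hv : ∀ i j, G.Adj i j → inner ℝ (m i - m j) (v i - v j) = 0) :
    ∀ i j, inner ℝ (m i - m j) (v i - v j) = 0 := by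
  classical
  have h1 := LinearMap.finrank_range_add_finrank_ker (rigMap G m)
  rw [rigMap_surj G m h, finrank_top, Module.finrank_fintype_fun_eq_card] at h1
  have h2 : Module.finrank ℝ (Placement n d) = n * d := by
    rw [Module.finrank_pi_fintype]
    simp
  have h3 : Fintype.card (OE G) = (OE G).ncard := by
    rw [← Nat.card_eq_fintype_card, Nat.card_coe_set_eq]
  have h4 : allKer m ≤ LinearMap.ker (rigMap G m) := by
    intro w hw
    rw [LinearMap.mem_ker]
    funext e
    exact hw e.1.1 e.1.2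
  have h5 := allKer_dim hn m hs
  have h6 : Module.finrank ℝ (LinearMap.ker (rigMap G m)) ≤ Module.finrank ℝ (allKer m) := by
    have h7 : (OE G).ncard + (d + 1).choose 2 = d * n := hcard
    rw [h2, h3, mul_comm n d] at h1
    omega
  have h8 : allKer m = LinearMap.ker (rigMap G m) := Submodule.eq_of_le_of_finrank_le h4 h6
  have h9 : v ∈ LinearMap.ker (rigMap G m) := by
    rw [LinearMap.mem_ker]
    funext e
    exact hv e.1.1 e.1.2 e.2.2
  rw [← h8] at h9
  exact h9

theorem noStress_inv {n d : ℕ} (G : SimpleGraph (Fin n)) (p q : Placement n d)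
    (φ : EuclideanSpace ℝ (Fin d) ≃ᵢ EuclideanSpace ℝ (Fin d)) (hq : ∀ i, q i = φ (p i))
    (h : NoStress G p) : NoStress G q := by
  intro ω h1 h2 h3
  apply h ω h1 h2
  intro i
  have h4 : ∀ j, q i - q j = φ.toRealAffineIsometryEquiv.linearIsometryEquiv (p i - p j) := by
    intro j
    have := φ.toRealAffineIsometryEquiv.map_vsub (p i) (p j)
    rw [hq i, hq j]
    simpa using this.symm
  have h5 := h3 i
  simp only [h4, ← map_smul, ← map_sum] at h5
  exact (LinearIsometryEquiv.map_eq_zero_iff _).mp h5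

theorem spans_inv {n d : ℕ} (p q : Placement n d)
    (φ : EuclideanSpace ℝ (Fin d) ≃ᵢ EuclideanSpace ℝ (Fin d)) (hq : ∀ i, q i = φ (p i))
    (h : Spans p) : Spans q := by
  intro c b hcb
  obtain ⟨L, hL⟩ : ∃ L, L = φ.toRealAffineIsometryEquiv.linearIsometryEquiv := ⟨_, rfl⟩
  have h4 : ∀ x, φ x = L x + φ 0 := by
    intro x
    have := φ.toRealAffineIsometryEquiv.map_vsub x 0
    rw [hL]
    simp only [vsub_eq_sub, sub_zero, IsometryEquiv.coeFn_toRealAffineIsometryEquiv] at this
    rw [this]
    abel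
  have h5 : L.symm c = 0 := by
    apply h _ (b - inner ℝ c (φ 0))
    intro i
    have h6 := hcb i
    rw [hq i, h4, inner_add_right] at h6
    have h7 : inner ℝ (L.symm c) (p i) = inner ℝ c (L (p i)) := by
      rw [← L.inner_map_map, L.apply_symm_apply]
    rw [h7]
    linarith
  have h8 : c = L 0 := by rw [← h5, L.apply_symm_apply]
  rw [h8, map_zero]

theorem local_rigid
    (hO1 : ∀ {n d : ℕ} (G : SimpleGraph (Fin n)), IsOpen {p : Placement n d | NoStress G p})
    (hO2 : ∀ {n d : ℕ}, IsOpen {p : Placement n d | Spans p})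
    {n d : ℕ} (hn : 0 < n) (G : SimpleGraph (Fin n)) (p : Placement n d)
    (h : NoStress G p) (hs : Spans p)
    (hcard : {e : Fin n × Fin n | e.1 < e.2 ∧ G.Adj e.1 e.2}.ncard + (d + 1).choose 2 = d * n) :
    ∀ᶠ q in nhds p, (∀ i j, G.Adj i j → dist (q i) (q j) = dist (p i) (p j)) →
      ∀ i j, dist (q i) (q j) = dist (p i) (p j) := by
  have hmid : Filter.Tendsto (fun q : Placement n d => (1 / 2 : ℝ) • (p + q)) (nhds p) (nhds p) := by
    have : ContinuousAt (fun q : Placement n d => (1 / 2 : ℝ) • (p + q)) p := by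
      fun_prop
    have h2 : (1 / 2 : ℝ) • (p + p) = p := by
      rw [← two_smul ℝ p, smul_smul]
      norm_num
    have h3 := this.tendsto
    rw [h2] at h3
    exact h3
  have e1 := hmid.eventually ((hO1 G).mem_nhds h)
  have e2 := hmid.eventually (hO2.mem_nhds hs)
  filter_upwards [e1, e2] with q hq1 hq2 hE
  have hpol : ∀ i j, dist (q i) (q j) ^ 2 - dist (p i) (p j) ^ 2
      = 2 * inner ℝ (((1 / 2 : ℝ) • (p + q)) i - ((1 / 2 : ℝ) • (p + q)) j)
        ((q - p) i - (q - p) j) := by
    intro i j
    rw [dist_eq_norm, dist_eq_norm]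
    have a1 : ((1 / 2 : ℝ) • (p + q)) i - ((1 / 2 : ℝ) • (p + q)) j
        = (1 / 2 : ℝ) • ((q i - q j) + (p i - p j)) := by
      simp only [Pi.smul_apply, Pi.add_apply]
      rw [← smul_sub]
      congr 1
      abel
    have a2 : (q - p) i - (q - p) j = (q i - q j) - (p i - p j) := by
      simp only [Pi.sub_apply]
      abel
    have a3 : ∀ x y : EuclideanSpace ℝ (Fin d), inner ℝ (x + y) (x - y) = ‖x‖ ^ 2 - ‖y‖ ^ 2 := by
      intro x y
      rw [inner_add_left, inner_sub_right, inner_sub_right,
        real_inner_self_eq_norm_sq, real_inner_self_eq_norm_sq, real_inner_comm y x]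
      ring
    rw [a1, a2, real_inner_smul_left, a3]
    ring
  have hz := inf_rigid hn G ((1 / 2 : ℝ) • (p + q)) hq1 hq2 hcard (q - p) (by
    intro i j hij
    have := hpol i j
    rw [hE i j hij] at this
    linarith)
  intro i j
  have h5 := hpol i j
  rw [hz i j, mul_zero] at h5
  have h6 : dist (q i) (q j) ^ 2 = dist (p i) (p j) ^ 2 := by linarith
  exact (pow_left_inj₀ dist_nonneg dist_nonneg (by norm_num)).mp h6

theorem rigid_of_noStress
    (hO1 : ∀ {n d : ℕ} (G : SimpleGraph (Fin n)), IsOpen {p : Placement n d | NoStress G p})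
    (hO2 : ∀ {n d : ℕ}, IsOpen {p : Placement n d | Spans p})
    (hcong : ∀ {n d : ℕ} (p q : Placement n d),
      (∀ i j, dist (q i) (q j) = dist (p i) (p j)) →
      ∃ φ : EuclideanSpace ℝ (Fin d) ≃ᵢ EuclideanSpace ℝ (Fin d), ∀ i, q i = φ (p i))
    {n d : ℕ} (G : SimpleGraph (Fin n)) (p : Placement n d)
    (h : NoStress G p) (hs : Spans p)
    (hcard : {e : Fin n × Fin n | e.1 < e.2 ∧ G.Adj e.1 e.2}.ncard + (d + 1).choose 2 = d * n) :
    IsRigid G p := by
  rcases Nat.eq_zero_or_pos n with hn | hn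
  · subst hn
    intro γ _ t
    exact ⟨IsometryEquiv.refl _, fun i => i.elim0⟩
  · intro γ hγ
    obtain ⟨hc, h0, hE⟩ := hγ
    have hci : ∀ i, Continuous (fun t => γ t i) := fun i => (continuous_apply i).comp hc
    have hclosed : IsClosed {t : unitInterval | ∀ i j, dist (γ t i) (γ t j) = dist (p i) (p j)} := by
      have : {t : unitInterval | ∀ i j, dist (γ t i) (γ t j) = dist (p i) (p j)}
          = ⋂ i, ⋂ j, {t | dist (γ t i) (γ t j) = dist (p i) (p j)} := by
        ext t; simp
      rw [this]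
      refine isClosed_iInter fun i => isClosed_iInter fun j => ?_
      exact isClosed_eq ((hci i).dist (hci j)) continuous_const
    have hopen : IsOpen {t : unitInterval | ∀ i j, dist (γ t i) (γ t j) = dist (p i) (p j)} := by
      rw [isOpen_iff_mem_nhds]
      intro t ht
      obtain ⟨φ, hφ⟩ := hcong p (γ t) ht
      have hloc := local_rigid hO1 hO2 hn G (γ t) (noStress_inv G p _ φ hφ h)
        (spans_inv p _ φ hφ hs) hcard
      have := hc.continuousAt.eventually hloc
      filter_upwards [this] with s hs' i j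
      rw [← ht i j]
      exact hs' (fun i j hij => by rw [hE s i j hij, hE t i j hij]) i j
    have huniv : {t : unitInterval | ∀ i j, dist (γ t i) (γ t j) = dist (p i) (p j)} = Set.univ :=
      IsClopen.eq_univ ⟨hclosed, hopen⟩ ⟨0, by intro i j; rw [h0]⟩
    intro t
    have ht : t ∈ {t : unitInterval | ∀ i j, dist (γ t i) (γ t j) = dist (p i) (p j)} := by
      rw [huniv]; trivial
    exact hcong p (γ t) ht




end E1

namespace E1a

/-- congruent finite point families are related by an isometry of the whole space -/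
theorem exists_isometryEquiv_of_dist_eq {n d : ℕ} (p q : Placement n d)
    (h : ∀ i j, dist (q i) (q j) = dist (p i) (p j)) :
    ∃ φ : EuclideanSpace ℝ (Fin d) ≃ᵢ EuclideanSpace ℝ (Fin d), ∀ i, q i = φ (p i) := by
  classical
  rcases Nat.eq_zero_or_pos n with hn | hn
  · subst hn
    exact ⟨IsometryEquiv.refl _, fun i => Fin.elim0 i⟩
  · let i0 : Fin n := ⟨0, hn⟩
    let u : Fin n → EuclideanSpace ℝ (Fin d) := fun i => p i - p i0
    let v : Fin n → EuclideanSpace ℝ (Fin d) := fun i => q i - q i0
    have hinner : ∀ i j, inner ℝ (u i) (u j) = inner ℝ (v i) (v j) := by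
      intro i j
      have h1 : ‖u i‖ = ‖v i‖ := by
        have := h i i0
        rw [dist_eq_norm, dist_eq_norm] at this
        exact this.symm
      have h2 : ‖u j‖ = ‖v j‖ := by
        have := h j i0
        rw [dist_eq_norm, dist_eq_norm] at this
        exact this.symm
      have h3 : ‖u i - u j‖ = ‖v i - v j‖ := by
        have h4 : u i - u j = p i - p j := by simp [u]
        have h5 : v i - v j = q i - q j := by simp [v]
        rw [h4, h5, ← dist_eq_norm, ← dist_eq_norm, h i j]
      rw [real_inner_eq_norm_mul_self_add_norm_mul_self_sub_norm_sub_mul_self_div_two,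
        real_inner_eq_norm_mul_self_add_norm_mul_self_sub_norm_sub_mul_self_div_two, h1, h2, h3]
    let Tu : (Fin n → ℝ) →ₗ[ℝ] EuclideanSpace ℝ (Fin d) := Fintype.linearCombination ℝ u
    let Tv : (Fin n → ℝ) →ₗ[ℝ] EuclideanSpace ℝ (Fin d) := Fintype.linearCombination ℝ v
    have hTu : ∀ c, Tu c = ∑ i, c i • u i := fun c => Fintype.linearCombination_apply ℝ u c
    have hTv : ∀ c, Tv c = ∑ i, c i • v i := fun c => Fintype.linearCombination_apply ℝ v c
    have hnorm : ∀ c, ‖Tu c‖ = ‖Tv c‖ := by
      intro c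
      have h1 : inner ℝ (Tu c) (Tu c) = inner ℝ (Tv c) (Tv c) := by
        rw [hTu, hTv, sum_inner, sum_inner]
        apply Finset.sum_congr rfl
        intro i _
        rw [inner_sum, inner_sum]
        apply Finset.sum_congr rfl
        intro j _
        rw [inner_smul_left, inner_smul_left, inner_smul_right, inner_smul_right, hinner]
      rw [real_inner_self_eq_norm_sq, real_inner_self_eq_norm_sq] at h1
      exact (pow_left_inj₀ (norm_nonneg _) (norm_nonneg _) (by norm_num)).1 h1
    have hker : LinearMap.ker Tu ≤ LinearMap.ker Tv := by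
      intro c hc
      rw [LinearMap.mem_ker] at hc ⊢
      rw [← norm_eq_zero, ← hnorm, hc, norm_zero]
    let L0 : LinearMap.range Tu →ₗ[ℝ] EuclideanSpace ℝ (Fin d) :=
      ((LinearMap.ker Tu).liftQ Tv hker).comp (Tu.quotKerEquivRange.symm.toLinearMap)
    have hL0 : ∀ c, L0 ⟨Tu c, LinearMap.mem_range_self Tu c⟩ = Tv c := by
      intro c
      have h1 : Tu.quotKerEquivRange.symm ⟨Tu c, LinearMap.mem_range_self Tu c⟩ = (LinearMap.ker Tu).mkQ c := by
        rw [LinearEquiv.symm_apply_eq]
        rfl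
      show ((LinearMap.ker Tu).liftQ Tv hker) (Tu.quotKerEquivRange.symm ⟨Tu c, LinearMap.mem_range_self Tu c⟩) = Tv c
      rw [h1]
      rfl
    let L1 : LinearMap.range Tu →ₗᵢ[ℝ] EuclideanSpace ℝ (Fin d) :=
      { L0 with
        norm_map' := by
          rintro ⟨x, c, rfl⟩
          show ‖L0 ⟨Tu c, _⟩‖ = ‖Tu c‖
          rw [hL0, hnorm] }
    let L2 := L1.extend
    let L3 : EuclideanSpace ℝ (Fin d) ≃ₗᵢ[ℝ] EuclideanSpace ℝ (Fin d) := L2.toLinearIsometryEquiv rfl
    have hL3 : ∀ i, L3 (u i) = v i := by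
      intro i
      have h1 : Tu (Pi.single i 1) = u i := by
        rw [hTu, Finset.sum_eq_single i]
        · simp
        · intro j _ hj; simp [hj]
        · intro h; exact absurd (Finset.mem_univ _) h
      have h2 : Tv (Pi.single i 1) = v i := by
        rw [hTv, Finset.sum_eq_single i]
        · simp
        · intro j _ hj; simp [hj]
        · intro h; exact absurd (Finset.mem_univ _) h
      have h3 : L3 (u i) = L2 (u i) := rfl
      rw [h3]
      have h4 := L1.extend_apply ⟨Tu (Pi.single i 1), LinearMap.mem_range_self Tu _⟩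
      have h5 : L1 ⟨Tu (Pi.single i 1), LinearMap.mem_range_self Tu _⟩ = Tv (Pi.single i 1) := hL0 _
      rw [h5] at h4
      simp only [h1, h2] at h4
      exact h4
    refine ⟨(IsometryEquiv.subRight (p i0)).trans (L3.toIsometryEquiv.trans (IsometryEquiv.addRight (q i0))), ?_⟩
    intro i
    show q i = L3 (p i - p i0) + q i0
    have := hL3 i
    show q i = L3 (u i) + q i0
    rw [this]
    simp [v]



end E1a

namespace E2

/-- ordered edges -/
abbrev EE {n : ℕ} (G : SimpleGraph (Fin n)) : Type :=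
  {e : Fin n × Fin n // e.1 < e.2 ∧ G.Adj e.1 e.2}

/-- squared lengths -/
noncomputable def ff {n d : ℕ} (G : SimpleGraph (Fin n)) (x : Placement n d) : EE G → ℝ :=
  fun e => ‖x e.1.1 - x e.1.2‖ ^ 2

noncomputable def ff' {n d : ℕ} (G : SimpleGraph (Fin n)) (p : Placement n d) :
    Placement n d →L[ℝ] (EE G → ℝ) :=
  ContinuousLinearMap.pi (fun e => 2 • (innerSL ℝ (p e.1.1 - p e.1.2)).comp
    (ContinuousLinearMap.proj (R := ℝ) (φ := fun _ : Fin n => EuclideanSpace ℝ (Fin d)) e.1.1 -
     ContinuousLinearMap.proj (R := ℝ) (φ := fun _ : Fin n => EuclideanSpace ℝ (Fin d)) e.1.2))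

open Classical in
lemma ff_strict {n d : ℕ} (G : SimpleGraph (Fin n)) (p : Placement n d) :
    HasStrictFDerivAt (ff G) (ff' G p) p := by
  unfold ff ff'
  rw [hasStrictFDerivAt_pi]
  intro e
  have h1 : HasStrictFDerivAt (fun x : Placement n d => x e.1.1 - x e.1.2)
    (ContinuousLinearMap.proj (R := ℝ) (φ := fun _ : Fin n => EuclideanSpace ℝ (Fin d)) e.1.1 -
     ContinuousLinearMap.proj (R := ℝ) (φ := fun _ : Fin n => EuclideanSpace ℝ (Fin d)) e.1.2) p :=
    ContinuousLinearMap.hasStrictFDerivAt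
     (ContinuousLinearMap.proj (R := ℝ) (φ := fun _ : Fin n => EuclideanSpace ℝ (Fin d)) e.1.1 -
     ContinuousLinearMap.proj (R := ℝ) (φ := fun _ : Fin n => EuclideanSpace ℝ (Fin d)) e.1.2)
  exact (hasStrictFDerivAt_norm_sq (p e.1.1 - p e.1.2)).comp p h1

open Classical in
lemma ff'_surj {n d : ℕ} (G : SimpleGraph (Fin n)) (p : Placement n d) (h : NoStress G p) :
    Function.Surjective (ff' G p) := by
  by_contra hcon
  have hlt : LinearMap.range (ff' G p : Placement n d →ₗ[ℝ] (EE G → ℝ)) < ⊤ := by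
    rw [lt_top_iff_ne_top]
    intro htop
    exact hcon (LinearMap.range_eq_top.1 htop)
  obtain ⟨L, hL0, hL⟩ := Submodule.exists_le_ker_of_lt_top _ hlt
  set lam : EE G → ℝ := fun e => L (Pi.single e 1) with hlam
  have hLsum : ∀ w : EE G → ℝ, L w = ∑ e, w e * lam e := by
    intro w
    conv_lhs => rw [← Finset.univ_sum_single w, map_sum]
    refine Finset.sum_congr rfl fun e _ => ?_
    have : (Pi.single e (w e) : EE G → ℝ) = w e • Pi.single e 1 := by
      rw [← Pi.single_smul]; simp
    rw [this, map_smul, smul_eq_mul]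
  set A : Fin n → Fin n → ℝ := fun i j => if h : i < j ∧ G.Adj i j then lam ⟨(i, j), h⟩ else 0 with hA
  have hsum : ∀ F : Fin n → Fin n → ℝ, ∑ e : EE G, lam e * F e.1.1 e.1.2 = ∑ a, ∑ b, A a b * F a b := by
    intro F
    rw [← Fintype.sum_prod_type']
    rw [← Fintype.sum_subtype_add_sum_subtype (fun q : Fin n × Fin n => q.1 < q.2 ∧ G.Adj q.1 q.2)]
    have h0 : ∑ q : {q : Fin n × Fin n // ¬ (q.1 < q.2 ∧ G.Adj q.1 q.2)}, A q.1.1 q.1.2 * F q.1.1 q.1.2 = 0 := by
      refine Finset.sum_eq_zero fun q _ => ?_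
      simp only [hA, dif_neg q.2, zero_mul]
    rw [h0, add_zero]
    refine Finset.sum_congr rfl fun e _ => ?_
    simp only [hA]
    rw [dif_pos e.2]
  have hω := h (fun i j => A i j + A j i) (fun i j => add_comm _ _) (by
    intro i j hij
    have h1 : A i j = 0 := by simp only [hA]; rw [dif_neg (fun hh => hij hh.2)]
    have h2 : A j i = 0 := by simp only [hA]; rw [dif_neg (fun hh => hij hh.2.symm)]
    simp [h1, h2]) (by
    intro i
    have key : ∀ u : EuclideanSpace ℝ (Fin d), inner ℝ (∑ j, (A i j + A j i) • (p i - p j)) u = 0 := by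
      intro u
      have h1 : L (ff' G p (Pi.single i u)) = 0 := by
        have : ff' G p (Pi.single i u) ∈ LinearMap.range (ff' G p : Placement n d →ₗ[ℝ] (EE G → ℝ)) :=
          ⟨_, rfl⟩
        exact hL this
      rw [hLsum] at h1
      have h2 : ∑ e : EE G, lam e * (inner ℝ (p e.1.1 - p e.1.2)
          ((Pi.single i u : Placement n d) e.1.1 - (Pi.single i u : Placement n d) e.1.2)) = 0 := by
        have h3 : ∑ e : EE G, (ff' G p (Pi.single i u)) e * lam e = 2 * ∑ e : EE G, lam e * (inner ℝ (p e.1.1 - p e.1.2)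
          ((Pi.single i u : Placement n d) e.1.1 - (Pi.single i u : Placement n d) e.1.2)) := by
          rw [Finset.mul_sum]
          refine Finset.sum_congr rfl fun e _ => ?_
          simp only [ff', ContinuousLinearMap.coe_pi', _root_.smul_apply,
            ContinuousLinearMap.comp_apply, _root_.sub_apply, ContinuousLinearMap.proj_apply,
            innerSL_apply_apply, nsmul_eq_mul]
          push_cast
          ring
        rw [h3] at h1
        linarith
      rw [hsum (fun a b => inner ℝ (p a - p b)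
        ((Pi.single i u : Placement n d) a - (Pi.single i u : Placement n d) b))] at h2
      have h4 : ∑ a, ∑ b, A a b * inner ℝ (p a - p b)
        ((Pi.single i u : Placement n d) a - (Pi.single i u : Placement n d) b) =
        ∑ b, A i b * inner ℝ (p i - p b) u + ∑ a, A a i * inner ℝ (p i - p a) u := by
        have e1 : ∀ a b, A a b * inner ℝ (p a - p b)
          ((Pi.single i u : Placement n d) a - (Pi.single i u : Placement n d) b) =
          (if a = i then A a b * inner ℝ (p a - p b) u else 0) +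
          (if b = i then A a b * inner ℝ (p b - p a) u else 0) := by
          intro a b
          rw [inner_sub_right, mul_sub, sub_eq_add_neg]
          congr 1
          · by_cases hai : a = i
            · subst hai; simp
            · simp [hai, Pi.single_eq_of_ne hai]
          · by_cases hbi : b = i
            · subst hbi
              simp only [Pi.single_eq_same, if_true]
              rw [← neg_sub (p b) (p a), inner_neg_left]; ring
            · simp [hbi, Pi.single_eq_of_ne hbi]
        simp only [e1, Finset.sum_add_distrib]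
        congr 1
        · rw [Finset.sum_comm]
          refine Finset.sum_congr rfl fun b _ => ?_
          rw [Finset.sum_ite_eq' Finset.univ i]; simp
        · refine Finset.sum_congr rfl fun a _ => ?_
          rw [Finset.sum_ite_eq' Finset.univ i]; simp
      rw [h4, ← Finset.sum_add_distrib] at h2
      rw [sum_inner, ← h2]
      refine Finset.sum_congr rfl fun j _ => ?_
      rw [real_inner_smul_left]; ring
    have := key (∑ j, (A i j + A j i) • (p i - p j))
    exact inner_self_eq_zero.1 this)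
  apply hL0
  apply LinearMap.ext
  intro w
  rw [hLsum]
  simp only [LinearMap.zero_apply]
  refine Finset.sum_eq_zero fun e _ => ?_
  have h1 := congrFun (congrFun hω e.1.1) e.1.2
  simp only [Pi.zero_apply] at h1
  have h2 : A e.1.1 e.1.2 = lam e := by simp only [hA]; rw [dif_pos e.2]
  have h3 : A e.1.2 e.1.1 = 0 := by
    simp only [hA]; rw [dif_neg (fun hh => absurd hh.1 (not_lt.2 e.2.1.le))]
  rw [h2, h3, add_zero] at h1
  rw [h1, mul_zero]

open Classical in
theorem flexible_of_noStress {n d : ℕ} (G : SimpleGraph (Fin n)) (p : Placement n d)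
    (h : NoStress G p) (e : Sym2 (Fin n)) (he : e ∈ G.edgeSet) :
    ¬ IsRigid (G.deleteEdges {e}) p := by
  intro hrig
  obtain ⟨i0, j0, hlt, hadj, hes⟩ : ∃ i0 j0 : Fin n, i0 < j0 ∧ G.Adj i0 j0 ∧ e = s(i0, j0) := by
    induction e using Sym2.ind with
    | _ a b =>
      have hab : G.Adj a b := he
      rcases lt_or_gt_of_ne hab.ne with h1 | h1
      · exact ⟨a, b, h1, hab, rfl⟩
      · exact ⟨b, a, h1, hab.symm, Sym2.eq_swap⟩
  set e0 : EE G := ⟨(i0, j0), hlt, hadj⟩ with he0
  obtain ⟨S, hS⟩ := LinearMap.exists_rightInverse_of_surjective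
    (ff' G p : Placement n d →ₗ[ℝ] (EE G → ℝ)) (LinearMap.range_eq_top.2 (ff'_surj G p h))
  set S' : (EE G → ℝ) →L[ℝ] Placement n d := LinearMap.toContinuousLinearMap S with hS'
  have hcomp : (ff' G p).comp S' = ContinuousLinearMap.id ℝ (EE G → ℝ) := by
    ext1 w
    exact LinearMap.congr_fun hS w
  set hfun : (EE G → ℝ) → (EE G → ℝ) := fun y => ff G (p + S' y) with hhfun
  have hstrict : HasStrictFDerivAt hfun
      ((ContinuousLinearEquiv.refl ℝ (EE G → ℝ) : (EE G → ℝ) ≃L[ℝ] (EE G → ℝ)) :
        (EE G → ℝ) →L[ℝ] (EE G → ℝ)) 0 := by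
    have h1 : HasStrictFDerivAt (fun y => p + S' y) S' 0 :=
      (S'.hasStrictFDerivAt).const_add p
    have h2 : HasStrictFDerivAt (ff G) (ff' G p) (p + S' 0) := by
      rw [map_zero, add_zero]; exact ff_strict G p
    have h3 := h2.comp (0 : EE G → ℝ) h1
    rw [hcomp] at h3
    exact h3
  set Φ := hstrict.toOpenPartialHomeomorph hfun with hΦ
  have hΦcoe : ∀ y, Φ y = hfun y := fun y => rfl
  have h0s : (0 : EE G → ℝ) ∈ Φ.source := hstrict.mem_toOpenPartialHomeomorph_source
  have hh0 : hfun 0 = ff G p := by simp [hhfun]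
  have h0t : ff G p ∈ Φ.target := by
    rw [← hh0]; exact Φ.map_source h0s
  obtain ⟨r, hr, hball⟩ := Metric.isOpen_iff.1 Φ.open_target _ h0t
  set y : unitInterval → (EE G → ℝ) := fun t => ff G p + ((r / 2) * (t : ℝ)) • Pi.single e0 1 with hy
  have hycont : Continuous y := by
    refine continuous_const.add ?_
    exact (continuous_const.mul continuous_subtype_val).smul continuous_const
  have hyt : ∀ t, y t ∈ Φ.target := by
    intro t
    apply hball
    rw [Metric.mem_ball, dist_eq_norm]
    simp only [hy, add_sub_cancel_left, norm_smul]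
    rw [Pi.norm_single, norm_one, mul_one, Real.norm_eq_abs, abs_of_nonneg (mul_nonneg (by positivity) t.2.1)]
    have := t.2.2
    nlinarith
  set γ : unitInterval → Placement n d := fun t => p + S' (Φ.symm (y t)) with hγ
  have hγcont : Continuous γ := by
    refine continuous_const.add (S'.continuous.comp ?_)
    exact Φ.continuousOn_symm.comp_continuous hycont hyt
  have hfγ : ∀ t, ff G (γ t) = y t := by
    intro t
    have := Φ.right_inv (hyt t)
    rw [hΦcoe] at this
    exact this
  have hγ0 : γ 0 = p := by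
    have h1 : y 0 = hfun 0 := by
      rw [hh0]; simp [hy]
    have h2 : Φ.symm (y 0) = 0 := by
      rw [h1]; exact Φ.left_inv h0s
    simp only [hγ, h2, map_zero, add_zero]
  have hedge : ∀ t (a b : Fin n) (hab : a < b) (hadj' : G.Adj a b), s(a, b) ≠ e →
      dist (γ t a) (γ t b) = dist (p a) (p b) := by
    intro t a b hab hadj' hne
    have h1 := congrFun (hfγ t) ⟨(a, b), hab, hadj'⟩
    have hne' : (⟨(a, b), hab, hadj'⟩ : EE G) ≠ e0 := by
      intro heq
      apply hne
      rw [hes]
      have := congrArg Subtype.val heq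
      simp only [he0, Prod.mk.injEq] at this
      rw [this.1, this.2]
    simp only [hy, Pi.add_apply, Pi.smul_apply, Pi.single_eq_of_ne hne', smul_zero, add_zero, ff] at h1
    rw [dist_eq_norm, dist_eq_norm]
    exact (sq_eq_sq₀ (norm_nonneg _) (norm_nonneg _)).1 h1
  have hmot : IsMotion (G.deleteEdges {e}) p γ := by
    refine ⟨hγcont, hγ0, fun t a b hab => ?_⟩
    rw [SimpleGraph.deleteEdges_adj] at hab
    obtain ⟨h1, h2⟩ := hab
    rcases lt_or_gt_of_ne h1.ne with h3 | h3
    · exact hedge t a b h3 h1 (by simpa using h2)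
    · rw [dist_comm, dist_comm (p a)]
      exact hedge t b a h3 h1.symm (by rw [Sym2.eq_swap]; simpa using h2)
  obtain ⟨φ, hφ⟩ := hrig γ hmot 1
  have h1 : dist (γ 1 i0) (γ 1 j0) = dist (p i0) (p j0) := by
    rw [hφ, hφ, φ.isometry.dist_eq]
  have h2 := congrFun (hfγ 1) e0
  simp only [hy, Pi.add_apply, Pi.smul_apply, Pi.single_eq_same, ff, he0] at h2
  rw [← dist_eq_norm, ← dist_eq_norm, h1] at h2
  simp at h2
  linarith



end E2

theorem hasCrossing_of_isCr {n k : ℕ} (G : SimpleGraph (Fin n)) {P : ℕ → ℕ → Prop}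
    (hP : ∀ x y, P x y → ∃ (hx : x < n) (hy : y < n), G.Adj ⟨x, hx⟩ ⟨y, hy⟩)
    {c d : ℕ → ℕ} (h : IsCr P n k c d) : HasCrossing G (k + 1) := by
  classical
  have hlt : ∀ t, t ≤ k → c t < d t := fun t ht => by have := h.len_ge ht; omega
  have hdn : ∀ t, t ≤ k → d t < n := fun t ht => (hP _ _ (h.mem t ht)).2.1
  have hcn : ∀ t, t ≤ k → c t < n := fun t ht => (hP _ _ (h.mem t ht)).1
  have hcm : ∀ s t, s < t → t ≤ k → c s < c t := by
    intro s t hst ht
    have := h.c_add (t - s) s (by omega)
    have e : s + (t - s) = t := by omega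
    rw [e] at this; omega
  have hdm : ∀ s t, s < t → t ≤ k → d s < d t := by
    intro s t hst ht
    have := h.d_add (t - s) s (by omega)
    have e : s + (t - s) = t := by omega
    rw [e] at this; omega
  have hcd : ∀ s t, s ≤ k → t ≤ k → c t < d s := by
    intro s t hs ht
    have h1 := h.c_add (k - t) t (by omega)
    have e : t + (k - t) = k := by omega
    rw [e] at h1
    have h2 := h.d_add s 0 (by omega)
    rw [Nat.zero_add] at h2
    have := h.mid
    omega
  let f : Fin (k + 1) → Fin n × Fin n := fun t =>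
    (⟨c t, hcn t (by omega)⟩, ⟨d t, hdn t (by omega)⟩)
  have hf : Function.Injective f := by
    intro s t hst
    simp only [f, Prod.mk.injEq, Fin.mk.injEq] at hst
    apply Fin.ext
    rcases Nat.lt_trichotomy (s : ℕ) t with h1 | h1 | h1
    · have := hcm s t h1 (by omega); omega
    · exact h1
    · have := hcm t s h1 (by omega); omega
  refine ⟨Finset.univ.image f, ?_, ?_, ?_⟩
  · rw [Finset.card_image_of_injective _ hf, Finset.card_univ, Fintype.card_fin]
  · intro e he
    rw [Finset.mem_image] at he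
    obtain ⟨t, -, rfl⟩ := he
    refine ⟨hlt t (by omega), ?_⟩
    obtain ⟨_, _, h3⟩ := hP _ _ (h.mem t (by omega))
    exact h3
  · intro e he g hg heg
    rw [Finset.mem_image] at he hg
    obtain ⟨s, -, rfl⟩ := he
    obtain ⟨t, -, rfl⟩ := hg
    have hst : s ≠ t := fun hh => heg (by rw [hh])
    rcases lt_or_gt_of_ne hst with h1 | h1
    · left
      exact ⟨hcm s t h1 (by omega), hcd s t (by omega) (by omega), hdm s t h1 (by omega)⟩
    · right
      exact ⟨hcm t s h1 (by omega), hcd t s (by omega) (by omega), hdm t s h1 (by omega)⟩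

theorem isCr_of_hasCrossing {n k : ℕ} (G : SimpleGraph (Fin n)) (h : HasCrossing G (k + 1)) :
    ∃ c d, IsCr (fun x y => ∃ (hx : x < n) (hy : y < n), G.Adj ⟨x, hx⟩ ⟨y, hy⟩) n k c d := by
  classical
  obtain ⟨S, hS, hadj, hcr⟩ := h
  have hinj : Set.InjOn Prod.fst (S : Set (Fin n × Fin n)) := by
    intro e he f hf hef
    by_contra hne
    rcases hcr e he f hf hne with h1 | h1
    · rw [hef] at h1; exact absurd h1.1 (lt_irrefl _)
    · rw [hef] at h1; exact absurd h1.1 (lt_irrefl _)
  have hF : (S.image Prod.fst).card = k + 1 := by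
    rw [Finset.card_image_of_injOn hinj, hS]
  have hg : ∀ t : Fin (k + 1), ∃ e ∈ S, e.1 = (S.image Prod.fst).orderEmbOfFin hF t := by
    intro t
    have := Finset.orderEmbOfFin_mem (S.image Prod.fst) hF t
    rw [Finset.mem_image] at this
    exact this
  choose g hgS hg1 using hg
  have hmono : ∀ s t : Fin (k + 1), s < t → (g s).1 < (g t).1 := by
    intro s t hst
    rw [hg1, hg1]
    exact ((S.image Prod.fst).orderEmbOfFin hF).strictMono hst
  have hcross : ∀ s t : Fin (k + 1), s < t →
      (g s).1 < (g t).1 ∧ (g t).1 < (g s).2 ∧ (g s).2 < (g t).2 := by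
    intro s t hst
    have h1 := hmono s t hst
    have hne : g s ≠ g t := fun hh => by rw [hh] at h1; exact absurd h1 (lt_irrefl _)
    rcases hcr _ (hgS s) _ (hgS t) hne with h2 | h2
    · exact h2
    · exact absurd h1 (not_lt.2 h2.1.le)
  refine ⟨fun t => if h : t < k + 1 then ((g ⟨t, h⟩).1 : ℕ) else 0,
    fun t => if h : t < k + 1 then ((g ⟨t, h⟩).2 : ℕ) else 0, ?_, ?_, ?_, ?_, ?_⟩
  · intro t ht
    have h1 : t < k + 1 := by omega
    have h2 : t + 1 < k + 1 := by omega
    simp only [h1, h2, dif_pos]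
    exact (hcross ⟨t, h1⟩ ⟨t + 1, h2⟩ (by simp [Fin.lt_def])).1
  · intro t ht
    have h1 : t < k + 1 := by omega
    have h2 : t + 1 < k + 1 := by omega
    simp only [h1, h2, dif_pos]
    exact (hcross ⟨t, h1⟩ ⟨t + 1, h2⟩ (by simp [Fin.lt_def])).2.2
  · have h1 : k < k + 1 := by omega
    have h2 : 0 < k + 1 := by omega
    simp only [h1, h2, dif_pos]
    rcases Nat.eq_zero_or_pos k with h0 | h0
    · subst h0
      exact (hadj _ (hgS _)).1
    · exact (hcross ⟨0, h2⟩ ⟨k, h1⟩ (by simp [Fin.lt_def, h0])).2.1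
  · have h1 : k < k + 1 := by omega
    simp only [h1, dif_pos]
    exact (g ⟨k, h1⟩).2.2
  · intro t ht
    have h1 : t < k + 1 := by omega
    simp only [h1, dif_pos]
    exact ⟨(g ⟨t, h1⟩).1.2, (g ⟨t, h1⟩).2.2, (hadj _ (hgS _)).2⟩

/-- the adjacency relation on natural numbers -/
def rel {n : ℕ} (G : SimpleGraph (Fin n)) (x y : ℕ) : Prop :=
  ∃ (hx : x < n) (hy : y < n), G.Adj ⟨x, hx⟩ ⟨y, hy⟩

theorem kt_of_multi {n k : ℕ} (G : SimpleGraph (Fin n)) (h : IsKTriangulation k G) :
    KT (rel G) n k := by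
  classical
  constructor
  · intro c d hcd
    exact h.1 (hasCrossing_of_isCr G (fun _ _ h => h) hcd)
  · intro x y hxy hy hT
    have hx : x < n := by omega
    have hne : (⟨x, hx⟩ : Fin n) ≠ ⟨y, hy⟩ := by
      intro hh; rw [Fin.mk.injEq] at hh; omega
    let H : SimpleGraph (Fin n) := G ⊔ SimpleGraph.fromEdgeSet {s(⟨x, hx⟩, ⟨y, hy⟩)}
    have hHadj : H.Adj ⟨x, hx⟩ ⟨y, hy⟩ := by
      right
      rw [SimpleGraph.fromEdgeSet_adj]
      exact ⟨rfl, hne⟩
    have hH : HasCrossing H (k + 1) := by
      by_contra hno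
      have hle := h.2 hno le_sup_left
      exact hT ⟨hx, hy, hle hHadj⟩
    obtain ⟨c, d, hcd⟩ := isCr_of_hasCrossing H hH
    refine ⟨c, d, hcd.hc, hcd.hd, hcd.mid, hcd.top, ?_⟩
    intro t ht
    obtain ⟨h1, h2, h3⟩ := hcd.mem t ht
    have hlen := hcd.len_ge ht
    rcases h3 with h3 | h3
    · exact Or.inl ⟨h1, h2, h3⟩
    · right
      rw [SimpleGraph.fromEdgeSet_adj] at h3
      have h4 := h3.1
      rw [Set.mem_singleton_iff, Sym2.eq_iff] at h4
      rcases h4 with ⟨h5, h6⟩ | ⟨h5, h6⟩
      · rw [Fin.mk.injEq] at h5 h6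
        exact ⟨h5, h6⟩
      · rw [Fin.mk.injEq] at h5 h6
        omega

theorem numN_compl (T : ℕ → ℕ → Prop) (n : ℕ) :
    numN T n + numN (fun x y => ¬ T x y) n = n.choose 2 := by
  classical
  unfold numN
  rw [← Finset.sum_add_distrib, Nat.choose_two_right, ← Finset.sum_range_id]
  apply Finset.sum_congr rfl
  intro y _
  rw [← Finset.sum_add_distrib]
  have h3 : y = ∑ x ∈ Finset.range y, 1 := by simp
  conv_rhs => rw [h3]
  apply Finset.sum_congr rfl
  intro x _
  by_cases h : T x y
  · simp [h]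
  · simp [h]

theorem ncard_edges {n : ℕ} (G : SimpleGraph (Fin n)) :
    {e : Fin n × Fin n | e.1 < e.2 ∧ G.Adj e.1 e.2}.ncard = numN (fun x y => ¬ rel G x y) n := by
  classical
  rw [← card_Nset]
  have hinj : Function.Injective (fun e : Fin n × Fin n => ((e.1 : ℕ), (e.2 : ℕ))) := by
    intro e f h
    simp only [Prod.mk.injEq] at h
    exact Prod.ext (Fin.ext h.1) (Fin.ext h.2)
  rw [← Set.ncard_image_of_injective _ hinj, ← Set.ncard_coe_finset]
  congr 1
  ext ⟨x, y⟩
  rw [Finset.mem_coe, mem_Nset]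
  simp only [Set.mem_image, Set.mem_setOf_eq, Prod.mk.injEq, not_not, rel]
  constructor
  · rintro ⟨⟨a, b⟩, ⟨h1, h2⟩, rfl, rfl⟩
    exact ⟨h1, b.2, a.2, b.2, h2⟩
  · rintro ⟨h1, h2, h3, h4, h5⟩
    exact ⟨(⟨x, h3⟩, ⟨y, h4⟩), ⟨h1, h5⟩, rfl, rfl⟩

theorem arith (N m : ℕ) : ∀ E, (m + 1).choose 2 + E = (N + 1 + m).choose 2 →
    E + (N + 1).choose 2 = N * (N + 1 + m) := by
  intro E hE
  have h1 : ∀ a : ℕ, 2 * (a + 1).choose 2 = (a + 1) * a := by
    intro a
    rw [Nat.choose_two_right, Nat.add_sub_cancel]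
    have h2 : 2 ∣ (a + 1) * a := by
      rw [mul_comm]; exact (Nat.even_mul_succ_self a).two_dvd
    exact Nat.mul_div_cancel' h2
  have e1 := h1 m
  have e2 := h1 (N + m)
  have e3 := h1 N
  have e4 : N + 1 + m = N + m + 1 := by ring
  rw [e4] at hE ⊢
  nlinarith

/-- A `k`-triangulation exists; indeed every graph without a `(k+1)`-crossing is contained in
one (a check that the definition is not vacuous). -/
theorem exists_isKTriangulation {n : ℕ} (k : ℕ) (G : SimpleGraph (Fin n))
    (hG : ¬ HasCrossing G (k + 1)) : ∃ T, G ≤ T ∧ IsKTriangulation k T :=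
  Finite.exists_le_maximal hG

/-- **Main theorem.** For all `k ≥ 1` and `n ≥ 2k + 1`, every `k`-triangulation of the convex
`n`-gon is minimally generically rigid in dimension `2k`. -/
theorem main (k n : ℕ) (hk : 1 ≤ k) (hn : 2 * k + 1 ≤ n) (G : SimpleGraph (Fin n))
    (hG : IsKTriangulation k G) : IsMinimallyGenericallyRigid (2 * k) G := by
  classical
  obtain ⟨m, rfl⟩ : ∃ m, n = 2 * k + 1 + m := ⟨n - (2 * k + 1), by omega⟩
  have hKT := kt_of_multi G hG
  obtain ⟨⟨ι, _, A, hA⟩, hN⟩ := exists_pipes k hk m (rel G) hKT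
  have hcard := hA.card hn
  have e1 : 2 * k + 1 + m - 2 * k = m + 1 := by omega
  rw [e1] at hcard
  have hA' := hA.equiv (Fintype.equivFinOfCardEq hcard).symm
  obtain ⟨w, hw⟩ := exists_vectors hn hA' (by rw [hN, e1])
  obtain ⟨p₀, hp₀⟩ := D.exists_noStress (n := 2 * k + 1 + m) (d := 2 * k) (r := m + 1) (by omega)
    (by omega) G (fun a i => w a i) (by
      intro c hc
      apply hw c
      intro i j hij hj hT
      have h1 := hc ⟨i, by omega⟩ ⟨j, hj⟩ hij (fun hadj => hT ⟨_, _, hadj⟩)
      exact h1)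
  have hae := E0.ae_noStress G p₀ hp₀
  have hcount : {e : Fin (2 * k + 1 + m) × Fin (2 * k + 1 + m) | e.1 < e.2 ∧ G.Adj e.1 e.2}.ncard +
      (2 * k + 1).choose 2 = 2 * k * (2 * k + 1 + m) := by
    apply arith
    rw [ncard_edges, ← hN]
    exact numN_compl _ _
  refine ⟨?_, ?_⟩
  · filter_upwards [hae, E0.ae_spans (n := 2 * k + 1 + m) (d := 2 * k) (by omega)] with p h1 h2
    exact E1.rigid_of_noStress E0.isOpen_noStress E0.isOpen_spans
      E1a.exists_isometryEquiv_of_dist_eq G p h1 h2 hcount
  · intro e he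
    filter_upwards [hae] with p h1
    exact E2.flexible_of_noStress G p h1 e he

end Pool.Agent.Helper598.MT

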